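import Pool.Agent.Helper95.AlgConnectC
import Pool.Agent.Helper25.AlgGal

namespace Pool.Agent.Helper95.AlgConnect

open Polynomial

/-- An integral extension of a quotient by the kernel of a coordinate line has transcendence
degree one. -/
theorem trdeg_eq_one {κ : Type} [Field κ] {n : ℕ} {R : Type} [CommRing R] [Algebra κ R]
    [Algebra (MvPolynomial (Fin n) κ) R] [IsScalarTower κ (MvPolynomial (Fin n) κ) R]
    [Algebra.IsIntegral (MvPolynomial (Fin n) κ) R]
    (i : Fin n) (p : Fin n → κ) (𝔭 : Ideal R) [𝔭.IsPrime]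
    (h : 𝔭.comap (algebraMap (MvPolynomial (Fin n) κ) R) = RingHom.ker (line i p)) :
    Algebra.trdeg κ (R ⧸ 𝔭) = 1 := by
  let τ₀ : κ[X] →ₐ[κ] MvPolynomial (Fin n) κ :=
    aeval (MvPolynomial.X i : MvPolynomial (Fin n) κ)
  let τ : κ[X] →ₐ[κ] R ⧸ 𝔭 :=
    (Ideal.Quotient.mkₐ κ 𝔭).comp
      ((IsScalarTower.toAlgHom κ (MvPolynomial (Fin n) κ) R).comp τ₀)
  let alg : Algebra κ[X] (R ⧸ 𝔭) := (τ : κ[X] →+* R ⧸ 𝔭).toAlgebra
  have htow : IsScalarTower κ κ[X] (R ⧸ 𝔭) :=
    IsScalarTower.of_algebraMap_eq fun c => (τ.commutes c).symm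
  have hsec : ∀ f, line i p (τ₀ f) = f := line_section i p
  have hτ : ∀ a : MvPolynomial (Fin n) κ,
      Ideal.Quotient.mk 𝔭 (algebraMap _ R a) = algebraMap κ[X] (R ⧸ 𝔭) (line i p a) := by
    intro a
    change _ = Ideal.Quotient.mk 𝔭 (algebraMap _ R (τ₀ (line i p a)))
    rw [Ideal.Quotient.eq, ← map_sub]
    have : a - τ₀ (line i p a) ∈ RingHom.ker (line i p) := by
      rw [RingHom.mem_ker, map_sub, hsec, sub_self]
    rw [← h] at this
    exact this
  have hinj : Function.Injective (algebraMap κ[X] (R ⧸ 𝔭)) := by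
    rw [injective_iff_map_eq_zero]
    intro f hf
    have h1 : algebraMap _ R (τ₀ f) ∈ 𝔭 := Ideal.Quotient.eq_zero_iff_mem.mp hf
    have h2 : τ₀ f ∈ RingHom.ker (line i p) := by rw [← h]; exact h1
    rw [RingHom.mem_ker, hsec] at h2
    exact h2
  have hfaith : FaithfulSMul κ[X] (R ⧸ 𝔭) :=
    (faithfulSMul_iff_algebraMap_injective _ _).mpr hinj
  have hcomp : (algebraMap κ[X] (R ⧸ 𝔭)).comp (line i p : MvPolynomial (Fin n) κ →+* κ[X]) =
      (Ideal.Quotient.mk 𝔭).comp (algebraMap _ R) := RingHom.ext fun a => (hτ a).symm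
  have hint : Algebra.IsIntegral κ[X] (R ⧸ 𝔭) := by
    constructor
    intro y
    obtain ⟨x, rfl⟩ := Ideal.Quotient.mk_surjective y
    obtain ⟨N, hN, hN'⟩ := Algebra.IsIntegral.isIntegral (R := MvPolynomial (Fin n) κ) x
    refine ⟨N.map (line i p : MvPolynomial (Fin n) κ →+* κ[X]), hN.map _, ?_⟩
    rw [eval₂_map, hcomp, ← hom_eval₂, hN', map_zero]
  have halg : Algebra.IsAlgebraic κ[X] (R ⧸ 𝔭) := inferInstance
  have hadd := _root_.trdeg_add_eq κ κ[X] (A := R ⧸ 𝔭)
  rw [_root_.trdeg_eq_zero_iff.mpr halg, add_zero, Polynomial.trdeg_of_isDomain] at hadd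
  exact hadd.symm

theorem connect {κ R : Type} [Field κ] [IsAlgClosed κ] [CommRing R] [IsDomain R] [Algebra κ R]
    [Algebra.FiniteType κ R] (rel : (R →ₐ[κ] κ) → (R →ₐ[κ] κ) → Prop) (hrel : Equivalence rel)
    (hcurve : ∀ 𝔭 : Ideal R, 𝔭.IsPrime → Algebra.trdeg κ (R ⧸ 𝔭) = 1 →
      ∀ u v : R →ₐ[κ] κ, 𝔭 ≤ RingHom.ker u → 𝔭 ≤ RingHom.ker v → rel u v) :
    ∀ u v, rel u v := by
  obtain ⟨n, g, hg, hgf⟩ := exists_finite_inj_algHom_of_fg κ R
  let algAR : Algebra (MvPolynomial (Fin n) κ) R := (g : MvPolynomial (Fin n) κ →+* R).toAlgebra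
  have htow1 : IsScalarTower κ (MvPolynomial (Fin n) κ) R :=
    IsScalarTower.of_algebraMap_eq fun c => (g.commutes c).symm
  have hfin : Module.Finite (MvPolynomial (Fin n) κ) R := hgf
  obtain ⟨R', cR', dR', algAR', algRR', towARR', G, grp, finG, actG, comG, hinjRR', hint, htrans,
    hinv, hgal⟩ := Pool.Agent.Helper25.AlgGal.exists_galois_cover (A := MvPolynomial (Fin n) κ)
      (R := R) hg
  let algκR' : Algebra κ R' :=
    ((algebraMap (MvPolynomial (Fin n) κ) R').comp (algebraMap κ (MvPolynomial (Fin n) κ))).toAlgebra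
  have htow2 : IsScalarTower κ (MvPolynomial (Fin n) κ) R' :=
    IsScalarTower.of_algebraMap_eq fun c => rfl
  have htow3 : IsScalarTower κ R R' := IsScalarTower.of_algebraMap_eq fun c => by
    rw [IsScalarTower.algebraMap_apply κ (MvPolynomial (Fin n) κ) R' c,
      IsScalarTower.algebraMap_apply κ (MvPolynomial (Fin n) κ) R c,
      ← IsScalarTower.algebraMap_apply (MvPolynomial (Fin n) κ) R R']
  have hinjAR' : Function.Injective (algebraMap (MvPolynomial (Fin n) κ) R') := by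
    rw [IsScalarTower.algebraMap_eq (MvPolynomial (Fin n) κ) R R']
    exact hinjRR'.comp hg
  have hintRR' : Algebra.IsIntegral R R' := Algebra.IsIntegral.tower_top (R := MvPolynomial (Fin n) κ)
  let ι : R →ₐ[κ] R' := IsScalarTower.toAlgHom κ R R'
  have hι : ∀ x, ι x = algebraMap R R' x := fun x => rfl
  have hlift : ∀ u : R →ₐ[κ] κ, ∃ u' : R' →ₐ[κ] κ, u'.comp ι = u := by
    intro u
    obtain ⟨ψ, hψ⟩ := exists_extend' (S := R') (u : R →+* κ) (fun c => ⟨algebraMap κ R c, by simp⟩)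
      hinjRR'
    refine ⟨⟨ψ, fun c => ?_⟩, ?_⟩
    · change ψ (algebraMap κ R' c) = c
      rw [IsScalarTower.algebraMap_apply κ R R', hψ]
      simp
    · ext x
      exact hψ x
  have hrel' : Equivalence (fun u v : R' →ₐ[κ] κ =>
      ∀ g : G, rel ((act n g u).comp ι) ((act n g v).comp ι)) :=
    ⟨fun u g => hrel.refl _, fun h g => hrel.symm (h g), fun h1 h2 g => hrel.trans (h1 g) (h2 g)⟩
  have hmain := all_related (n := n) (G := G) hinjAR' htrans hinv hgal
    (fun u v : R' →ₐ[κ] κ => ∀ g : G, rel ((act n g u).comp ι) ((act n g v).comp ι)) hrel'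
    (by
      intro g u v h g'
      rw [← act_mul, ← act_mul]
      exact h (g * g'))
    (by
      intro i p 𝔮 h𝔮p h𝔮 u v hu hv g
      -- the translate of the prime
      have hpr : (𝔮.comap (MulSemiringAction.toRingHom G R' g)).IsPrime := Ideal.comap_isPrime _ _
      set 𝔮g := 𝔮.comap (MulSemiringAction.toRingHom G R' g) with h𝔮g
      have hpr' : (𝔮g.comap (algebraMap R R')).IsPrime := Ideal.comap_isPrime _ _
      refine hcurve (𝔮g.comap (algebraMap R R')) hpr' ?_ _ _ ?_ ?_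
      · apply trdeg_eq_one i p
        rw [← h𝔮]
        ext a
        rw [Ideal.mem_comap, Ideal.mem_comap, ← IsScalarTower.algebraMap_apply, Ideal.mem_comap,
          Ideal.mem_comap]
        change g • algebraMap _ R' a ∈ 𝔮 ↔ _
        rw [smul_algebraMap]
      · intro x hx
        exact hu hx
      · intro x hx
        exact hv hx)
  intro u v
  obtain ⟨u', hu'⟩ := hlift u
  obtain ⟨v', hv'⟩ := hlift v
  have h := hmain v' u' 1
  simp only [act_one] at h
  rw [hu', hv'] at h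
  exact h

end Pool.Agent.Helper95.AlgConnect
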