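import Pool.Agent.Helper95.TTCa

/-!
# Bounded functional calculus of `log Δ` where `R = 2 (1 + Δ)⁻¹`
-/

open scoped InnerProductSpace Topology BoundedContinuousFunction
open ContinuousLinearMap Filter

namespace Pool.Agent.Helper95.TTC

lemma cont_aux (G : ℝ →ᵇ ℂ) :
    Continuous (fun r : ℝ => ((r * (2 - r) : ℝ) : ℂ) * G (Real.log ((2 - r) / r))) := by
  rw [continuous_iff_continuousAt]
  intro r₀
  by_cases h0 : r₀ * (2 - r₀) = 0
  · have hv : ((r₀ * (2 - r₀) : ℝ) : ℂ) * G (Real.log ((2 - r₀) / r₀)) = 0 := by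
      rw [h0]; simp
    change Tendsto _ _ (𝓝 (((r₀ * (2 - r₀) : ℝ) : ℂ) * G (Real.log ((2 - r₀) / r₀))))
    rw [hv]
    apply squeeze_zero_norm (a := fun r : ℝ => |r * (2 - r)| * ‖G‖)
    · intro r
      rw [norm_mul, Complex.norm_real, Real.norm_eq_abs]
      exact mul_le_mul_of_nonneg_left (G.norm_coe_le_norm _) (abs_nonneg _)
    · have hc : Continuous (fun r : ℝ => |r * (2 - r)| * ‖G‖) := by fun_prop
      have := hc.tendsto r₀
      simpa [h0] using this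
  · have h1 : r₀ ≠ 0 := by
      rintro rfl; simp at h0
    have h2 : 2 - r₀ ≠ 0 := by
      intro h; rw [h] at h0; simp at h0
    apply ContinuousAt.mul
    · fun_prop
    · apply (G.continuous.continuousAt).comp
      have h3 : ContinuousAt (fun r : ℝ => (2 - r) / r) r₀ :=
        ContinuousAt.div (by fun_prop) (by fun_prop) h1
      exact h3.log (div_ne_zero h2 h1)

/-- the function `w(r) G(log ((2 - r) / r))`, `w(r) = r (2 - r)` -/
noncomputable def xG (G : ℝ →ᵇ ℂ) : C(sS, ℂ) :=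
  ⟨fun z => (((z : ℂ).re * (2 - (z : ℂ).re) : ℝ) : ℂ) *
    G (Real.log ((2 - (z : ℂ).re) / (z : ℂ).re)), by
    exact (cont_aux G).comp (by fun_prop : Continuous fun z : sS => (z : ℂ).re)⟩

/-- the weight -/
noncomputable def wS : C(sS, ℂ) := zS * ((2 : ℂ) • 1 - zS)

lemma xG_apply (G : ℝ →ᵇ ℂ) (z : sS) (r : ℝ) (h : (z : ℂ) = r) :
    xG G z = ((r * (2 - r) : ℝ) : ℂ) * G (Real.log ((2 - r) / r)) := by
  have : (z : ℂ).re = r := by rw [h]; simp
  change (((z : ℂ).re * (2 - (z : ℂ).re) : ℝ) : ℂ) *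
    G (Real.log ((2 - (z : ℂ).re) / (z : ℂ).re)) = _
  rw [this]

lemma wS_apply (z : sS) (r : ℝ) (h : (z : ℂ) = r) : wS z = ((r * (2 - r) : ℝ) : ℂ) := by
  simp [wS, zS, h]

lemma zS_apply (z : sS) (r : ℝ) (h : (z : ℂ) = r) : zS z = (r : ℂ) := h

lemma xG_le (G : ℝ →ᵇ ℂ) (z : sS) : ‖xG G z‖ ≤ ‖G‖ * ‖wS z‖ := by
  obtain ⟨r, h0, h2, h⟩ := sS_cases z
  rw [xG_apply G z r h, wS_apply z r h, norm_mul, mul_comm ‖G‖]
  exact mul_le_mul_of_nonneg_left (G.norm_coe_le_norm _) (norm_nonneg _)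

lemma xG_mul (G G' : ℝ →ᵇ ℂ) : xG G * xG G' = wS * xG (G * G') := by
  ext z
  obtain ⟨r, h0, h2, h⟩ := sS_cases z
  rw [ContinuousMap.mul_apply, ContinuousMap.mul_apply, xG_apply _ z r h, xG_apply _ z r h,
    xG_apply _ z r h, wS_apply z r h]
  simp only [BoundedContinuousFunction.mul_apply]
  ring

lemma xG_add (G G' : ℝ →ᵇ ℂ) : xG (G + G') = xG G + xG G' := by
  ext z
  obtain ⟨r, h0, h2, h⟩ := sS_cases z
  rw [ContinuousMap.add_apply, xG_apply _ z r h, xG_apply _ z r h, xG_apply _ z r h]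
  simp only [BoundedContinuousFunction.add_apply]
  ring

lemma xG_alg (c : ℂ) : xG (algebraMap ℂ (ℝ →ᵇ ℂ) c) = c • wS := by
  ext z
  obtain ⟨r, h0, h2, h⟩ := sS_cases z
  rw [ContinuousMap.smul_apply, xG_apply _ z r h, wS_apply z r h, smul_eq_mul]
  simp [mul_comm]

lemma xG_star (G : ℝ →ᵇ ℂ) : star (xG G) = xG (star G) := by
  ext z
  obtain ⟨r, h0, h2, h⟩ := sS_cases z
  rw [ContinuousMap.star_apply, xG_apply _ z r h, xG_apply _ z r h]
  simp

lemma xG_par (G G' : ℝ →ᵇ ℂ) (hG : ∀ ρ, G' ρ = (starRingEnd ℂ) (G (-ρ))) :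
    par (xG G) = xG G' := by
  ext z
  obtain ⟨r, h0, h2, h⟩ := sS_cases z
  have h' : ((refl z : sS) : ℂ) = ((2 - r : ℝ) : ℂ) := by
    change 2 - (z : ℂ) = _
    rw [h]; push_cast; ring
  rw [par_apply, xG_apply _ (refl z) _ h', xG_apply _ z r h, hG]
  have h3 : Real.log ((2 - (2 - r)) / (2 - r)) = -Real.log ((2 - r) / r) := by
    rw [← Real.log_inv, inv_div]
    congr 2
    ring
  rw [h3]
  simp only [star_mul', RCLike.star_def, Complex.conj_ofReal]
  congr 2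
  ring

end Pool.Agent.Helper95.TTC

namespace Pool.Agent.Helper23

/-- the function `2 / (1 + e^ρ)` -/
noncomputable def FR : ℝ →ᵇ ℂ :=
  BoundedContinuousFunction.ofNormedAddCommGroup (fun ρ : ℝ => ((2 / (1 + Real.exp ρ) : ℝ) : ℂ))
    (by
      refine Complex.continuous_ofReal.comp (Continuous.div (by fun_prop) (by fun_prop) ?_)
      intro ρ
      positivity) 2 (by
      intro ρ
      rw [Complex.norm_real, Real.norm_of_nonneg (by positivity)]
      rw [div_le_iff₀ (by positivity)]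
      nlinarith [Real.exp_pos ρ])

/-- the function `1 / cosh (ρ / 2) ^ 2` -/
noncomputable def FW : ℝ →ᵇ ℂ := FR * (2 - FR)

end Pool.Agent.Helper23

namespace Pool.Agent.Helper95.TTC

open Pool.Agent.Helper23

lemma xG_FR : xG FR = wS * zS := by
  ext z
  obtain ⟨r, h0, h2, h⟩ := sS_cases z
  rw [ContinuousMap.mul_apply, xG_apply _ z r h, wS_apply z r h, zS_apply z r h]
  change ((r * (2 - r) : ℝ) : ℂ) * (((2 / (1 + Real.exp (Real.log ((2 - r) / r))) : ℝ) : ℂ)) = _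
  rcases eq_or_lt_of_le h0 with h0' | h0'
  · rw [← h0']; simp
  rcases eq_or_lt_of_le h2 with h2' | h2'
  · rw [h2']; simp
  rw [Real.exp_log (by apply div_pos <;> linarith), ← Complex.ofReal_mul, ← Complex.ofReal_mul]
  congr 1
  have : (2 : ℝ) / (1 + (2 - r) / r) = r := by
    field_simp
    ring
  rw [this]

variable {H : Type*} [NormedAddCommGroup H] [InnerProductSpace ℂ H] [CompleteSpace H]

/-- Continuity of the symbol in the topology of locally uniform bounded convergence. -/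
lemma tendsto_xG (G : ℕ → (ℝ →ᵇ ℂ)) (G₀ : ℝ →ᵇ ℂ) (C : ℝ) (hC : ∀ n, ‖G n‖ ≤ C)
    (hG : ∀ L : ℝ, TendstoUniformlyOn (fun n ρ => G n ρ) (fun ρ => G₀ ρ) atTop (Set.Icc (-L) L)) :
    Tendsto (fun n => xG (G n)) atTop (𝓝 (xG G₀)) := by
  rw [Metric.tendsto_atTop]
  intro ε hε
  have hC0 : 0 ≤ C := (norm_nonneg _).trans (hC 0)
  set B := C + ‖G₀‖ + 1 with hB
  have hBpos : 0 < B := by positivity
  set δ := ε / (2 * B) with hδ
  have hδpos : 0 < δ := by positivity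
  set L := Real.log (4 / δ) with hL
  have hu := hG L
  rw [Metric.tendstoUniformlyOn_iff] at hu
  obtain ⟨N, hN⟩ := eventually_atTop.mp (hu (ε / 2) (by positivity))
  refine ⟨N, fun n hn => ?_⟩
  rw [dist_eq_norm]
  refine lt_of_le_of_lt ((ContinuousMap.norm_le _ (C := ε / 2) (by positivity)).mpr ?_)
    (by linarith)
  intro z
  obtain ⟨r, h0, h2, h⟩ := sS_cases z
  rw [ContinuousMap.sub_apply, xG_apply _ z r h, xG_apply _ z r h, ← mul_sub, norm_mul,
    Complex.norm_real, Real.norm_of_nonneg (by nlinarith)]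
  by_cases hw : r * (2 - r) ≤ δ
  · have h1 : ‖(G n) (Real.log ((2 - r) / r)) - G₀ (Real.log ((2 - r) / r))‖ ≤ B := by
      refine (norm_sub_le _ _).trans ?_
      have h3 := (G n).norm_coe_le_norm (Real.log ((2 - r) / r))
      have h4 := G₀.norm_coe_le_norm (Real.log ((2 - r) / r))
      have h5 := hC n
      linarith
    calc r * (2 - r) * ‖(G n) (Real.log ((2 - r) / r)) - G₀ (Real.log ((2 - r) / r))‖
        ≤ δ * B := mul_le_mul hw h1 (norm_nonneg _) hδpos.le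
      _ = ε / 2 := by rw [hδ]; field_simp
  · push Not at hw
    have hr0 : δ / 2 < r := by nlinarith
    have hr2 : δ / 2 < 2 - r := by nlinarith
    have hr0' : 0 < r := by linarith
    have hpos : 0 < (2 - r) / r := by apply div_pos <;> linarith
    have hmem : Real.log ((2 - r) / r) ∈ Set.Icc (-L) L := by
      constructor
      · rw [hL, ← Real.log_inv, inv_div]
        apply Real.log_le_log (by positivity)
        rw [le_div_iff₀ hr0']
        nlinarith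
      · rw [hL]
        apply Real.log_le_log hpos
        rw [div_le_div_iff₀ hr0' hδpos]
        nlinarith
    have h1 := hN n hn _ hmem
    rw [dist_eq_norm, norm_sub_rev] at h1
    have hw1 : r * (2 - r) ≤ 1 := by nlinarith [sq_nonneg (r - 1)]
    calc r * (2 - r) * ‖(G n) (Real.log ((2 - r) / r)) - G₀ (Real.log ((2 - r) / r))‖
        ≤ 1 * (ε / 2) := mul_le_mul hw1 h1.le (norm_nonneg _) (by norm_num)
      _ = ε / 2 := one_mul _

end Pool.Agent.Helper95.TTC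

namespace Pool.Agent.Helper23

open Pool.Agent.Helper95.TTC

variable {H : Type*} [NormedAddCommGroup H] [InnerProductSpace ℂ H] [CompleteSpace H]

/-- MODULE TT-C: bounded functional calculus of `log Δ` where `R = 2 (1 + Δ)⁻¹` -/
theorem exists_fc (R : H →L[ℂ] H) (hs : star R = R) (h0 : ∀ v : H, 0 ≤ (⟪v, R v⟫_ℂ).re)
    (h2 : ∀ v : H, (⟪v, R v⟫_ℂ).re ≤ 2 * ‖v‖ ^ 2) (hi : ∀ v : H, R v = 0 → v = 0)
    (hi' : ∀ v : H, R v = (2 : ℂ) • v → v = 0) :
    ∃ Ψ : (ℝ →ᵇ ℂ) →⋆ₐ[ℂ] (H →L[ℂ] H), Ψ FR = R ∧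
      (∀ X : H →L[ℂ] H, X * R = R * X → ∀ G, X * Ψ G = Ψ G * X) ∧
      (∀ D : H →L[ℝ] H, (∀ (c : ℂ) (v : H), D (c • v) = (starRingEnd ℂ) c • D v) →
        (∀ v : H, D (R v) = (2 : ℂ) • D v - R (D v)) → ∀ G G' : ℝ →ᵇ ℂ,
        (∀ ρ, G' ρ = (starRingEnd ℂ) (G (-ρ))) → ∀ v : H, D (Ψ G v) = Ψ G' (D v)) ∧
      (∀ (G : ℕ → (ℝ →ᵇ ℂ)) (G₀ : ℝ →ᵇ ℂ) (C : ℝ), (∀ n, ‖G n‖ ≤ C) →
        (∀ L : ℝ, TendstoUniformlyOn (fun n ρ => G n ρ) (fun ρ => G₀ ρ) atTop (Set.Icc (-L) L)) →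
        ∀ v : H, Tendsto (fun n => Ψ (G n) v) atTop (𝓝 (Ψ G₀ v))) := by
  have hR : IsStarNormal R := (show IsSelfAdjoint R from hs).isStarNormal
  have hsp := spectrum_subset R hs h0 h2
  let Φ := Phi R hR hsp
  have hΦz : Φ zS = R := Phi_z R hR hsp
  let W : H →L[ℂ] H := Φ wS
  have hWdef : W = R * ((2 : ℂ) • 1 - R) := by
    change Φ (zS * ((2 : ℂ) • 1 - zS)) = _
    rw [map_mul, map_sub, map_smul, map_one, hΦz]
  have hWinj : ∀ v, W v = 0 → v = 0 := by
    intro v hv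
    rw [hWdef] at hv
    have h3 := hi _ hv
    apply hi'
    have h4 : (2 : ℂ) • v - R v = 0 := h3
    exact (sub_eq_zero.mp h4).symm
  have hWstar : star W = W := by
    change star (Φ wS) = Φ wS
    rw [← map_star]
    congr 1
    ext z
    obtain ⟨r, h0, h2, h⟩ := sS_cases z
    rw [ContinuousMap.star_apply, wS_apply z r h]
    simp
  have hWdense : DenseRange W := by
    have h3 : (LinearMap.range (W : H →ₗ[ℂ] H))ᗮ = ⊥ := by
      rw [Submodule.eq_bot_iff]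
      intro x hx
      apply hWinj
      rw [Submodule.mem_orthogonal] at hx
      have h4 := hx (W (W x)) ⟨W x, rfl⟩
      have h5 : ⟪W (W x), x⟫_ℂ = ⟪W x, W x⟫_ℂ := by
        conv_lhs => rw [← hWstar]
        rw [ContinuousLinearMap.star_eq_adjoint, ContinuousLinearMap.adjoint_inner_left,
          ← ContinuousLinearMap.star_eq_adjoint, hWstar]
      rw [h5] at h4
      exact inner_self_eq_zero.mp h4
    have h4 := (Submodule.topologicalClosure_eq_top_iff).mpr h3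
    rw [DenseRange, dense_iff_closure_eq]
    have h5 := congrArg (fun K : Submodule ℂ H => (K : Set H)) h4
    exact h5
  have huniq : ∀ A B : H →L[ℂ] H, (∀ v, A (W v) = B (W v)) → A = B := by
    intro A B h
    ext x
    exact congrFun (hWdense.equalizer A.continuous B.continuous (funext h)) x
  have hext : ∀ G : ℝ →ᵇ ℂ, ∃ z : H →L[ℂ] H, (∀ v, z (W v) = Φ (xG G) v) ∧ ‖z‖ ≤ ‖G‖ := by
    intro G
    have h3 : ∀ v, ‖(Φ (xG G) : H →ₗ[ℂ] H) v‖ ≤ ‖G‖ * ‖(W : H →ₗ[ℂ] H) v‖ :=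
      fun v => Phi_le R hR hsp (xG G) wS ‖G‖ (norm_nonneg _) (xG_le G) v
    exact ⟨(Φ (xG G) : H →ₗ[ℂ] H).extendOfNorm (W : H →ₗ[ℂ] H),
      fun v => LinearMap.extendOfNorm_eq hWdense ⟨_, h3⟩ v,
      LinearMap.opNorm_extendOfNorm_le hWdense (norm_nonneg _) h3⟩
  choose Ψ₀ hΨ hΨn using hext
  have hcommW : ∀ f : C(sS, ℂ), Φ f * W = W * Φ f := by
    intro f
    change Φ f * Φ wS = Φ wS * Φ f
    rw [← map_mul, ← map_mul, mul_comm]
  have hΨW : ∀ G, Ψ₀ G * W = Φ (xG G) := fun G => by ext v; exact hΨ G v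
  have hWΨ : ∀ G, W * Ψ₀ G = Φ (xG G) := by
    intro G
    apply huniq
    intro v
    change W (Ψ₀ G (W v)) = Φ (xG G) (W v)
    rw [hΨ]
    exact congrArg (fun T : H →L[ℂ] H => T v) (hcommW (xG G)).symm
  have hcancel : ∀ A B : H →L[ℂ] H, W * A = W * B → A = B := by
    intro A B h
    ext v
    have h3 : W (A v - B v) = 0 := by
      rw [map_sub]
      exact sub_eq_zero.mpr (congrArg (fun T : H →L[ℂ] H => T v) h)
    exact sub_eq_zero.mp (hWinj _ h3)
  let Ψ : (ℝ →ᵇ ℂ) →⋆ₐ[ℂ] (H →L[ℂ] H) :=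
    { toFun := Ψ₀
      map_one' := by
        apply hcancel
        rw [hWΨ, ← map_one (algebraMap ℂ (ℝ →ᵇ ℂ)), xG_alg, one_smul, mul_one]
      map_mul' := by
        intro G G'
        apply hcancel
        rw [hWΨ]
        apply hcancel
        calc W * Φ (xG (G * G')) = Φ (wS * xG (G * G')) := (map_mul Φ _ _).symm
          _ = Φ (xG G * xG G') := by rw [xG_mul]
          _ = Φ (xG G) * Φ (xG G') := map_mul Φ _ _
          _ = (W * Ψ₀ G) * (W * Ψ₀ G') := by rw [hWΨ, hWΨ]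
          _ = W * ((Ψ₀ G * W) * Ψ₀ G') := by simp only [mul_assoc]
          _ = W * ((W * Ψ₀ G) * Ψ₀ G') := by rw [hΨW, hWΨ]
          _ = W * (W * (Ψ₀ G * Ψ₀ G')) := by simp only [mul_assoc]
      map_zero' := by
        apply hcancel
        rw [hWΨ, ← map_zero (algebraMap ℂ (ℝ →ᵇ ℂ)), xG_alg, zero_smul, map_zero, mul_zero]
      map_add' := by
        intro G G'
        apply hcancel
        rw [hWΨ, mul_add, hWΨ, hWΨ, xG_add, map_add]
      commutes' := by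
        intro c
        apply hcancel
        rw [hWΨ, xG_alg, map_smul]
        change c • W = W * algebraMap ℂ _ c
        rw [← Algebra.commutes, Algebra.smul_def]
      map_star' := by
        intro G
        apply hcancel
        rw [hWΨ, ← xG_star, map_star, ← hΨW, star_mul, hWstar] }
  have hΨΨ : ∀ G, Ψ G = Ψ₀ G := fun G => rfl
  refine ⟨Ψ, ?_, ?_, ?_, ?_⟩
  · rw [hΨΨ]
    apply hcancel
    rw [hWΨ, xG_FR, map_mul, hΦz]
  · intro X hX G
    rw [hΨΨ]
    have h3 : ∀ f : C(sS, ℂ), X * Φ f = Φ f * X := Phi_comm R hR hsp hs X hX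
    have h4 : W * X = X * W := (h3 wS).symm
    apply hcancel
    rw [← mul_assoc, ← mul_assoc, hWΨ, h4, mul_assoc, hWΨ, h3]
  · intro D hD hDR G G' hGG' v
    rw [hΨΨ, hΨΨ]
    have hDf := Phi_D R hR hsp D hD hDR
    have hparw : par wS = wS := by
      have h3 := xG_par (1 : ℝ →ᵇ ℂ) 1 (by intro ρ; simp)
      have h4 : xG (1 : ℝ →ᵇ ℂ) = wS := by
        rw [← map_one (algebraMap ℂ (ℝ →ᵇ ℂ)), xG_alg, one_smul]
      rwa [h4] at h3
    have hDW : ∀ u, D (W u) = W (D u) := by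
      intro u
      have := hDf wS u
      rwa [hparw] at this
    have h3 : W (D (Ψ₀ G v) - Ψ₀ G' (D v)) = 0 := by
      rw [map_sub, ← hDW]
      have h4 : W (Ψ₀ G v) = Φ (xG G) v := congrArg (fun T : H →L[ℂ] H => T v) (hWΨ G)
      have h5 : W (Ψ₀ G' (D v)) = Φ (xG G') (D v) :=
        congrArg (fun T : H →L[ℂ] H => T (D v)) (hWΨ G')
      rw [h4, h5, hDf, xG_par G G' hGG', sub_self]
    exact sub_eq_zero.mp (hWinj _ h3)
  · intro G G₀ C hC hG v
    have hC0 : 0 ≤ C := (norm_nonneg _).trans (hC 0)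
    have hΦG : ∀ u, Tendsto (fun n => Φ (xG (G n)) u) atTop (𝓝 (Φ (xG G₀) u)) := by
      intro u
      have h3 := tendsto_xG G G₀ C hC hG
      exact ((ContinuousLinearMap.apply ℂ H u).continuous.tendsto _).comp
        (((Phi_cont R hR hsp).tendsto _).comp h3)
    rw [Metric.tendsto_atTop]
    intro ε hε
    set B := C + ‖G₀‖ + 1 with hB
    have hBpos : 0 < B := by positivity
    obtain ⟨u, hu⟩ := hWdense.exists_dist_lt v (show 0 < ε / (3 * B) by positivity)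
    obtain ⟨N, hN⟩ := (Metric.tendsto_atTop.mp (hΦG u)) (ε / 3) (by positivity)
    refine ⟨N, fun n hn => ?_⟩
    have h3 := hN n hn
    rw [dist_eq_norm] at h3 hu ⊢
    have h4 : Ψ (G n) v - Ψ G₀ v = Ψ₀ (G n) (v - W u) + (Φ (xG (G n)) u - Φ (xG G₀) u) -
        Ψ₀ G₀ (v - W u) := by
      rw [hΨΨ, hΨΨ, map_sub, map_sub, hΨ, hΨ]
      abel
    have hsm : ∀ K : ℝ →ᵇ ℂ, ‖K‖ ≤ B → ‖Ψ₀ K (v - W u)‖ ≤ ε / 3 := by
      intro K hK
      calc ‖Ψ₀ K (v - W u)‖ ≤ ‖Ψ₀ K‖ * ‖v - W u‖ := (Ψ₀ K).le_opNorm _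
        _ ≤ B * (ε / (3 * B)) := mul_le_mul ((hΨn K).trans hK) hu.le (norm_nonneg _) hBpos.le
        _ = ε / 3 := by field_simp
    have h5 := hsm (G n) (by have := hC n; have := norm_nonneg G₀; linarith)
    have h6 := hsm G₀ (by linarith)
    rw [h4]
    calc _ ≤ ‖Ψ₀ (G n) (v - W u) + (Φ (xG (G n)) u - Φ (xG G₀) u)‖ + ‖Ψ₀ G₀ (v - W u)‖ :=
          norm_sub_le _ _
      _ ≤ (‖Ψ₀ (G n) (v - W u)‖ + ‖Φ (xG (G n)) u - Φ (xG G₀) u‖) + ‖Ψ₀ G₀ (v - W u)‖ := by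
          gcongr; exact norm_add_le _ _
      _ < ε := by linarith

end Pool.Agent.Helper23
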