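import Pool.Agent.Helper23.UBic

/-!
# Averaging over the approximate centralizer (module U6)
-/

open scoped InnerProductSpace Topology
open ContinuousLinearMap Filter

namespace Pool.Agent.Helper23

universe u

variable {H : Type u} [NormedAddCommGroup H] [InnerProductSpace ℂ H] [CompleteSpace H]
variable {M N : VonNeumannAlgebra H} {ξ : H} {E : (H →L[ℂ] H) → (H →L[ℂ] H)}

/-- conjugates of `x` by unitaries of `N` of small defect -/
def avG (N : VonNeumannAlgebra H) (ξ : H) (x : H →L[ℂ] H) (d : ℝ) : Set (H →L[ℂ] H) :=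
  {z | ∃ u ∈ N, star u * u = 1 ∧ u * star u = 1 ∧ Defect N ξ 1 d u ∧ z = star u * x * u}

/-- convex hull of the conjugates -/
def avK (N : VonNeumannAlgebra H) (ξ : H) (x : H →L[ℂ] H) (d : ℝ) : Set (H →L[ℂ] H) :=
  convexHull ℝ (avG N ξ x d)

lemma convex_vN (A : VonNeumannAlgebra H) : Convex ℝ {z : H →L[ℂ] H | z ∈ A} := by
  intro z hz z' hz' a b _ _ _
  have h1 : a • z = (a : ℂ) • z := (Complex.coe_smul a z).symm
  have h2 : b • z' = (b : ℂ) • z' := (Complex.coe_smul b z').symm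
  change a • z + b • z' ∈ A
  rw [h1, h2]
  exact add_mem (smul_mem' _ hz) (smul_mem' _ hz')

lemma norm_conj_le {u x : H →L[ℂ] H} (hu : star u * u = 1) : ‖star u * x * u‖ ≤ ‖x‖ := by
  have h1 := norm_le_one_of_isom hu
  have h2 : ‖star u‖ ≤ 1 := by rw [norm_star]; exact h1
  calc ‖star u * x * u‖ ≤ ‖star u * x‖ * ‖u‖ := norm_mul_le _ _
    _ ≤ (‖star u‖ * ‖x‖) * ‖u‖ := by gcongr; exact norm_mul_le _ _
    _ ≤ (1 * ‖x‖) * 1 := by gcongr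
    _ = ‖x‖ := by ring

lemma avK_mono {x : H →L[ℂ] H} {d d' : ℝ} (h : d ≤ d') : avK N ξ x d ⊆ avK N ξ x d' := by
  refine convexHull_mono ?_
  rintro z ⟨u, hu, h1, h2, h3, rfl⟩
  exact ⟨u, hu, h1, h2, h3.mono h, rfl⟩

lemma avK_mem {x : H →L[ℂ] H} (hx : x ∈ N) {d : ℝ} {z : H →L[ℂ] H} (hz : z ∈ avK N ξ x d) :
    z ∈ N ∧ ‖z‖ ≤ ‖x‖ := by
  have hconv : Convex ℝ ({z : H →L[ℂ] H | z ∈ N} ∩ Metric.closedBall 0 ‖x‖) :=
    (convex_vN N).inter (convex_closedBall _ _)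
  have hsub : avG N ξ x d ⊆ ({z : H →L[ℂ] H | z ∈ N} ∩ Metric.closedBall 0 ‖x‖) := by
    rintro z ⟨u, hu, h1, h2, h3, rfl⟩
    refine ⟨mul_mem (mul_mem (star_mem hu) hx) hu, ?_⟩
    rw [mem_closedBall_zero_iff]
    exact norm_conj_le h1
  have := convexHull_min hsub hconv hz
  exact ⟨this.1, mem_closedBall_zero_iff.1 this.2⟩

lemma self_mem_avK {x : H →L[ℂ] H} {d : ℝ} (hd : 0 ≤ d) : x ∈ avK N ξ x d :=
  subset_convexHull _ _ ⟨1, one_mem N, by simp, by simp, Defect.one hd, by simp⟩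

lemma avK_conj {x z v : H →L[ℂ] H} {d e : ℝ} (hd : 0 ≤ d) (he : 0 ≤ e)
    (hz : z ∈ avK N ξ x d) (hv : v ∈ N) (h1 : star v * v = 1) (h2 : v * star v = 1)
    (h3 : Defect N ξ 1 e v) : star v * z * v ∈ avK N ξ x (d + e) := by
  have hconv : Convex ℝ {z : H →L[ℂ] H | star v * z * v ∈ avK N ξ x (d + e)} := by
    intro a ha b hb s t hs ht hst
    have := (convex_convexHull ℝ (avG N ξ x (d + e))) ha hb hs ht hst
    change star v * (s • a + t • b) * v ∈ convexHull ℝ (avG N ξ x (d + e))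
    convert this using 1
    rw [mul_add, add_mul, mul_smul_comm, mul_smul_comm, smul_mul_assoc, smul_mul_assoc]
  have hsub : avG N ξ x d ⊆ {z : H →L[ℂ] H | star v * z * v ∈ avK N ξ x (d + e)} := by
    rintro _ ⟨u, hu, g1, g2, g3, rfl⟩
    refine subset_convexHull _ _ ⟨u * v, mul_mem hu hv, ?_, ?_, ?_, ?_⟩
    · rw [star_mul]
      calc star v * star u * (u * v) = star v * (star u * u) * v := by noncomm_ring
        _ = 1 := by rw [g1, mul_one, h1]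
    · rw [star_mul]
      calc u * v * (star v * star u) = u * (v * star v) * star u := by noncomm_ring
        _ = 1 := by rw [h2, mul_one, g2]
    · have h4 := Defect.mul hu hv g3 h3 hd he
      rw [one_mul] at h4
      refine Defect.mono (by simpa using h4) ?_
      have n1 := norm_le_one_of_isom g1
      have n2 := norm_le_one_of_isom h1
      have : e * ‖u‖ ≤ e * 1 := by gcongr
      have : d * ‖v‖ ≤ d * 1 := by gcongr
      linarith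
    · rw [star_mul]
      noncomm_ring
  exact convexHull_min hsub hconv hz

lemma norm_right_defect {z v : H →L[ℂ] H} {e : ℝ} (he : 0 ≤ e) (hz : z ∈ N) (hv : v ∈ N)
    (h1 : star v * v = 1) (h2 : v * star v = 1) (h3 : Defect N ξ 1 e v) :
    ‖z (v ξ)‖ ^ 2 ≤ ‖z ξ‖ ^ 2 + e * ‖z‖ ^ 2 := by
  have h4 := h3 (star v * (star z * z)) (mul_mem (star_mem hv) (mul_mem (star_mem hz) hz))
  have e1 : ⟪ξ, (star v * (star z * z)) (v ξ)⟫_ℂ = ((‖z (v ξ)‖ ^ 2 : ℝ) : ℂ) := by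
    change ⟪ξ, (star v) ((star z) (z (v ξ)))⟫_ℂ = _
    rw [inner_star_right, inner_star_right, inner_self_eq_norm_sq_to_K]
    norm_cast
  have e2 : ⟪ξ, v ((star v * (star z * z)) ξ)⟫_ℂ = ((‖z ξ‖ ^ 2 : ℝ) : ℂ) := by
    have : v ((star v * (star z * z)) ξ) = (star z) (z ξ) :=
      congrArg (fun T : H →L[ℂ] H => T ((star z) (z ξ))) h2
    rw [this, inner_star_right, inner_self_eq_norm_sq_to_K]
    norm_cast
  rw [e1, e2, Complex.ofReal_one, one_mul, ← Complex.ofReal_sub, Complex.norm_real,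
    Real.norm_eq_abs] at h4
  have h5 : ‖star v * (star z * z)‖ ≤ ‖z‖ ^ 2 := by
    have n2 := norm_le_one_of_isom h1
    calc ‖star v * (star z * z)‖ ≤ ‖star v‖ * ‖star z * z‖ := norm_mul_le _ _
      _ ≤ 1 * (‖star z‖ * ‖z‖) := by
          gcongr
          · rw [norm_star]; exact n2
          · exact norm_mul_le _ _
      _ = ‖z‖ ^ 2 := by rw [norm_star]; ring
  have h6 := le_of_abs_le h4
  nlinarith [mul_le_mul_of_nonneg_left h5 he]

/-- minimal norm -/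
noncomputable def avm (N : VonNeumannAlgebra H) (ξ : H) (x : H →L[ℂ] H) (d : ℝ) : ℝ :=
  sInf ((fun z : H →L[ℂ] H => ‖z ξ‖) '' avK N ξ x d)

lemma avm_bdd (x : H →L[ℂ] H) (d : ℝ) :
    BddBelow ((fun z : H →L[ℂ] H => ‖z ξ‖) '' avK N ξ x d) :=
  ⟨0, by rintro _ ⟨z, _, rfl⟩; exact norm_nonneg _⟩

lemma avm_le {x z : H →L[ℂ] H} {d : ℝ} (hz : z ∈ avK N ξ x d) : avm N ξ x d ≤ ‖z ξ‖ :=
  csInf_le (avm_bdd x d) ⟨z, hz, rfl⟩

lemma avm_nonneg (x : H →L[ℂ] H) (d : ℝ) : 0 ≤ avm N ξ x d :=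
  Real.sInf_nonneg (by rintro _ ⟨z, _, rfl⟩; exact norm_nonneg _)

lemma avm_exists {x : H →L[ℂ] H} {d : ℝ} (hd : 0 ≤ d) {ε : ℝ} (hε : 0 < ε) :
    ∃ z ∈ avK N ξ x d, ‖z ξ‖ < avm N ξ x d + ε := by
  have hne : ((fun z : H →L[ℂ] H => ‖z ξ‖) '' avK N ξ x d).Nonempty :=
    ⟨_, x, self_mem_avK hd, rfl⟩
  obtain ⟨_, ⟨z, hz, rfl⟩, h⟩ := exists_lt_of_csInf_lt hne
    (lt_add_of_pos_right (avm N ξ x d) hε)
  exact ⟨z, hz, h⟩

lemma avm_anti {x : H →L[ℂ] H} {d d' : ℝ} (hd : 0 ≤ d) (h : d ≤ d') :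
    avm N ξ x d' ≤ avm N ξ x d :=
  csInf_le_csInf (avm_bdd x d') ⟨_, x, self_mem_avK hd, rfl⟩ (Set.image_mono (avK_mono h))

lemma avK_par {x z z' : H →L[ℂ] H} {d : ℝ} (hz : z ∈ avK N ξ x d) (hz' : z' ∈ avK N ξ x d) :
    ‖z ξ - z' ξ‖ ^ 2 ≤ 2 * ‖z ξ‖ ^ 2 + 2 * ‖z' ξ‖ ^ 2 - 4 * avm N ξ x d ^ 2 := by
  have hmid : (1 / 2 : ℝ) • z + (1 / 2 : ℝ) • z' ∈ avK N ξ x d :=
    convex_convexHull ℝ _ hz hz' (by norm_num) (by norm_num) (by norm_num)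
  have h1 := avm_le (ξ := ξ) hmid
  have h2 : ((1 / 2 : ℝ) • z + (1 / 2 : ℝ) • z') ξ = (1 / 2 : ℝ) • (z ξ + z' ξ) := by
    change (1 / 2 : ℝ) • z ξ + (1 / 2 : ℝ) • z' ξ = _
    rw [smul_add]
  rw [h2, norm_smul, Real.norm_of_nonneg (by norm_num)] at h1
  have h3 := parallelogram_law_with_norm ℂ (z ξ) (z' ξ)
  have h4 := avm_nonneg (N := N) (ξ := ξ) x d
  have h5 : avm N ξ x d ^ 2 ≤ (1 / 2 * ‖z ξ + z' ξ‖) ^ 2 := by gcongr
  nlinarith

lemma avK_state {x z : H →L[ℂ] H} (hx : x ∈ N) {d : ℝ} (hd : 0 ≤ d)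
    (hz : z ∈ avK N ξ x d) : ‖⟪ξ, z ξ⟫_ℂ - ⟪ξ, x ξ⟫_ℂ‖ ≤ d * ‖x‖ := by
  have hconv : Convex ℝ {z : H →L[ℂ] H | ‖⟪ξ, z ξ⟫_ℂ - ⟪ξ, x ξ⟫_ℂ‖ ≤ d * ‖x‖} := by
    intro a ha b hb s t hs ht hst
    change ‖⟪ξ, (s • a + t • b) ξ⟫_ℂ - ⟪ξ, x ξ⟫_ℂ‖ ≤ d * ‖x‖
    have e1 : ⟪ξ, (s • a + t • b) ξ⟫_ℂ - ⟪ξ, x ξ⟫_ℂ =
        (s : ℂ) * (⟪ξ, a ξ⟫_ℂ - ⟪ξ, x ξ⟫_ℂ) + (t : ℂ) * (⟪ξ, b ξ⟫_ℂ - ⟪ξ, x ξ⟫_ℂ) := by
      have e2 : (s • a + t • b) ξ = (s : ℂ) • a ξ + (t : ℂ) • b ξ := by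
        change s • a ξ + t • b ξ = _
        rw [Complex.coe_smul, Complex.coe_smul]
      rw [e2, inner_add_right, inner_smul_right, inner_smul_right]
      have e3 : (s : ℂ) + (t : ℂ) = 1 := by rw [← Complex.ofReal_add, hst, Complex.ofReal_one]
      linear_combination ⟪ξ, x ξ⟫_ℂ * e3
    rw [e1]
    have ha' : ‖⟪ξ, a ξ⟫_ℂ - ⟪ξ, x ξ⟫_ℂ‖ ≤ d * ‖x‖ := ha
    have hb' : ‖⟪ξ, b ξ⟫_ℂ - ⟪ξ, x ξ⟫_ℂ‖ ≤ d * ‖x‖ := hb
    calc ‖(s : ℂ) * (⟪ξ, a ξ⟫_ℂ - ⟪ξ, x ξ⟫_ℂ) + (t : ℂ) * (⟪ξ, b ξ⟫_ℂ - ⟪ξ, x ξ⟫_ℂ)‖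
        ≤ ‖(s : ℂ) * (⟪ξ, a ξ⟫_ℂ - ⟪ξ, x ξ⟫_ℂ)‖ + ‖(t : ℂ) * (⟪ξ, b ξ⟫_ℂ - ⟪ξ, x ξ⟫_ℂ)‖ :=
          norm_add_le _ _
      _ ≤ s * (d * ‖x‖) + t * (d * ‖x‖) := by
          rw [norm_mul, norm_mul, Complex.norm_real, Complex.norm_real,
            Real.norm_of_nonneg hs, Real.norm_of_nonneg ht]
          gcongr
      _ = d * ‖x‖ := by rw [← add_mul, hst, one_mul]
  have hsub : avG N ξ x d ⊆ {z : H →L[ℂ] H | ‖⟪ξ, z ξ⟫_ℂ - ⟪ξ, x ξ⟫_ℂ‖ ≤ d * ‖x‖} := by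
    rintro _ ⟨u, hu, g1, g2, g3, rfl⟩
    have h1 := g3 (star u * x) (mul_mem (star_mem hu) hx)
    have e1 : u ((star u * x) ξ) = x ξ := congrArg (fun T : H →L[ℂ] H => T (x ξ)) g2
    rw [e1, Complex.ofReal_one, one_mul] at h1
    refine h1.trans ?_
    gcongr
    calc ‖star u * x‖ ≤ ‖star u‖ * ‖x‖ := norm_mul_le _ _
      _ ≤ 1 * ‖x‖ := by gcongr; rw [norm_star]; exact norm_le_one_of_isom g1
      _ = ‖x‖ := one_mul _
  exact convexHull_min hsub hconv hz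

lemma avK_half {x z : H →L[ℂ] H} {d : ℝ} (w w' : H) {c : ℝ}
    (h : ∀ u ∈ N, star u * u = 1 → u * star u = 1 → Defect N ξ 1 d u →
      c ≤ (⟪w, (star u * x * u) w'⟫_ℂ).re) (hz : z ∈ avK N ξ x d) :
    c ≤ (⟪w, z w'⟫_ℂ).re := by
  have hconv : Convex ℝ {z : H →L[ℂ] H | c ≤ (⟪w, z w'⟫_ℂ).re} := by
    intro a ha b hb s t hs ht hst
    change c ≤ (⟪w, (s • a + t • b) w'⟫_ℂ).re
    have e2 : (s • a + t • b) w' = (s : ℂ) • a w' + (t : ℂ) • b w' := by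
      change s • a w' + t • b w' = _
      rw [Complex.coe_smul, Complex.coe_smul]
    have ha' : c ≤ (⟪w, a w'⟫_ℂ).re := ha
    have hb' : c ≤ (⟪w, b w'⟫_ℂ).re := hb
    rw [e2, inner_add_right, inner_smul_right, inner_smul_right, Complex.add_re,
      Complex.re_ofReal_mul, Complex.re_ofReal_mul]
    calc c = s * c + t * c := by rw [← add_mul, hst, one_mul]
      _ ≤ _ := by gcongr
  refine convexHull_min ?_ hconv hz
  rintro _ ⟨u, hu, g1, g2, g3, rfl⟩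
  exact h u hu g1 g2 g3

/-- the sequence of radii -/
noncomputable def avd (n : ℕ) : ℝ := (1 / 2 : ℝ) ^ n

lemma avd_pos (n : ℕ) : 0 < avd n := by unfold avd; positivity

lemma avd_anti {n k : ℕ} (h : n ≤ k) : avd k ≤ avd n :=
  pow_le_pow_of_le_one (by norm_num) (by norm_num) h

lemma avd_tendsto : Tendsto avd atTop (𝓝 0) :=
  tendsto_pow_atTop_nhds_zero_of_lt_one (by norm_num) (by norm_num)

lemma avd_succ (n : ℕ) : avd (n + 1) + avd (n + 1) = avd n := by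
  unfold avd; rw [pow_succ]; ring

theorem Setting.avgA (S : Setting M N E ξ) (TB : ∀ x ∈ Bicent N N ξ, ∃ c : ℂ, x = c • 1)
    {x : H →L[ℂ] H} (hx : x ∈ N) (w w' : H) {c δ : ℝ} (hδ : 0 < δ)
    (h : ∀ u ∈ N, star u * u = 1 → u * star u = 1 → Defect N ξ 1 δ u →
      c ≤ (⟪w, (star u * x * u) w'⟫_ℂ).re) :
    c ≤ (⟪ξ, x ξ⟫_ℂ * ⟪w, w'⟫_ℂ).re := by
  -- the minimal norms converge
  have hmono : Monotone fun n => avm N ξ x (avd n) := fun n k hnk =>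
    avm_anti (avd_pos k).le (avd_anti hnk)
  have hbdd : BddAbove (Set.range fun n => avm N ξ x (avd n)) :=
    ⟨‖x ξ‖, by rintro _ ⟨n, rfl⟩; exact avm_le (self_mem_avK (avd_pos n).le)⟩
  set m0 : ℝ := ⨆ n, avm N ξ x (avd n) with hm0
  have hm : Tendsto (fun n => avm N ξ x (avd n)) atTop (𝓝 m0) := tendsto_atTop_ciSup hmono hbdd
  choose z hz hzn using fun n => avm_exists (N := N) (ξ := ξ) (x := x) (avd_pos n).le (avd_pos n)
  have hzN : ∀ n, z n ∈ N := fun n => (avK_mem hx (hz n)).1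
  have hzC : ∀ n, ‖z n‖ ≤ ‖x‖ := fun n => (avK_mem hx (hz n)).2
  have hzm : Tendsto (fun n => ‖z n ξ‖) atTop (𝓝 m0) := by
    have h2 : Tendsto (fun n => avm N ξ x (avd n) + avd n) atTop (𝓝 m0) := by
      have := hm.add avd_tendsto
      rwa [add_zero] at this
    exact tendsto_of_tendsto_of_tendsto_of_le_of_le hm h2 (fun n => avm_le (hz n))
      (fun n => (hzn n).le)
  have hzm2 : Tendsto (fun n => ‖z n ξ‖ ^ 2) atTop (𝓝 (m0 ^ 2)) := hzm.pow 2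
  have hm2 : Tendsto (fun n => avm N ξ x (avd n) ^ 2) atTop (𝓝 (m0 ^ 2)) := hm.pow 2
  -- Cauchy
  have hcau : CauchySeq fun n => z n ξ := by
    rw [Metric.cauchySeq_iff']
    intro ε hε
    have h1 : ∀ᶠ n in atTop, ‖z n ξ‖ ^ 2 < m0 ^ 2 + ε ^ 2 / 16 :=
      hzm2.eventually (gt_mem_nhds (by have : 0 < ε ^ 2 / 16 := by positivity
                                       linarith))
    have h2 : ∀ᶠ n in atTop, m0 ^ 2 - ε ^ 2 / 16 < avm N ξ x (avd n) ^ 2 :=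
      hm2.eventually (lt_mem_nhds (by have : 0 < ε ^ 2 / 16 := by positivity
                                      linarith))
    obtain ⟨n0, hn0⟩ := eventually_atTop.1 (h1.and h2)
    refine ⟨n0, fun n hn => ?_⟩
    have h3 := avK_par (avK_mono (avd_anti hn) (hz n)) (hz n0)
    have h4 := (hn0 n hn).1
    have h5 := hn0 n0 le_rfl
    rw [dist_eq_norm]
    refine lt_of_pow_lt_pow_left₀ 2 hε.le ?_
    have h6 : 0 < ε ^ 2 := by positivity
    nlinarith [h5.1, h5.2]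
  obtain ⟨η, hη⟩ := cauchySeq_tendsto_of_complete hcau
  obtain ⟨y, hyN, hyη, hyC⟩ := exists_limit N S.dense_commN (norm_nonneg x) hzN hzC hη
  -- `y` is in the bicentralizer
  have hyB : y ∈ Bicent M N ξ := by
    refine S.bicent_of_unitary (S.le y hyN) fun v hv => ?_
    obtain ⟨hvN, hv1, hv2, hvD⟩ := hv
    rw [Metric.tendsto_atTop]
    intro ε hε
    have hε2 : 0 < (ε / 4) ^ 2 := by positivity
    -- choose `n`
    have h1 : ∀ᶠ n in atTop, ‖z n ξ - η‖ < ε / 8 := by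
      have := (tendsto_iff_norm_sub_tendsto_zero.1 hη).eventually
        (gt_mem_nhds (show (0 : ℝ) < ε / 8 by positivity))
      exact this
    have h2 : ∀ᶠ n in atTop, ‖z (n + 1) ξ‖ ^ 2 < m0 ^ 2 + (ε / 4) ^ 2 / 16 :=
      (hzm2.comp (tendsto_add_atTop_nat 1)).eventually (gt_mem_nhds (by linarith))
    have h3 : ∀ᶠ n in atTop, m0 ^ 2 - (ε / 4) ^ 2 / 16 < avm N ξ x (avd n) ^ 2 :=
      hm2.eventually (lt_mem_nhds (by linarith))
    obtain ⟨n1, hn1⟩ := eventually_atTop.1 h1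
    obtain ⟨n2, hn2⟩ := eventually_atTop.1 (h2.and h3)
    set n := max n1 n2 with hn
    have k1 : ‖z (n + 1) ξ - η‖ < ε / 8 := hn1 _ ((le_max_left n1 n2).trans (Nat.le_succ _))
    have k2 : ‖z (n + 1) ξ‖ ^ 2 < m0 ^ 2 + (ε / 4) ^ 2 / 16 := (hn2 n (le_max_right _ _)).1
    have k3 : m0 ^ 2 - (ε / 4) ^ 2 / 16 < avm N ξ x (avd n) ^ 2 := (hn2 n (le_max_right _ _)).2
    -- choose the defect
    set R : ℝ := 4 * ‖x‖ ^ 2 + 1 with hR
    have hRpos : 0 < R := by positivity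
    set e : ℝ := min (avd (n + 1)) ((ε / 8) ^ 2 / R) with he
    have hepos : 0 < e := lt_min (avd_pos _) (by positivity)
    have heR : e * R ≤ (ε / 8) ^ 2 := by
      have : e ≤ (ε / 8) ^ 2 / R := min_le_right _ _
      rwa [le_div_iff₀ hRpos] at this
    have hed : e ≤ avd (n + 1) := min_le_left _ _
    obtain ⟨k0, hk0⟩ := eventually_atTop.1 (hvD e hepos)
    refine ⟨k0, fun k hk => ?_⟩
    have hDk := hk0 k hk
    rw [dist_zero_right]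
    set u := v k with hu
    have hu1 : star u * u = 1 := hv1 k
    have hu2 : u * star u = 1 := hv2 k
    have huN : u ∈ N := hvN k
    set Z := z (n + 1) with hZ
    have hZN : Z ∈ N := hzN _
    -- first piece
    have p1 : ‖(y - Z) (u ξ)‖ ^ 2 ≤ (ε / 8) ^ 2 + (ε / 8) ^ 2 := by
      have q1 := norm_right_defect hepos.le (sub_mem hyN hZN) huN hu1 hu2 hDk
      have q2 : ‖y - Z‖ ^ 2 ≤ R := by
        have : ‖y - Z‖ ≤ ‖x‖ + ‖x‖ := (norm_sub_le _ _).trans (add_le_add hyC (hzC _))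
        have q3 : ‖y - Z‖ ^ 2 ≤ (‖x‖ + ‖x‖) ^ 2 := by gcongr
        rw [hR]; nlinarith
      have q4 : ‖(y - Z) ξ‖ ^ 2 ≤ (ε / 8) ^ 2 := by
        have : ‖(y - Z) ξ‖ ≤ ε / 8 := by
          rw [sub_apply, hyη, norm_sub_rev]; exact k1.le
        gcongr
      have q5 : e * ‖y - Z‖ ^ 2 ≤ e * R := by gcongr
      linarith
    have p1' : ‖(y - Z) (u ξ)‖ < ε / 4 := by
      refine lt_of_pow_lt_pow_left₀ 2 (by positivity) ?_
      nlinarith
    -- second piece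
    have p2 : ‖(star u * Z * u) ξ - Z ξ‖ ^ 2 < (ε / 4) ^ 2 := by
      have q1 : star u * Z * u ∈ avK N ξ x (avd n) := by
        have := avK_conj (avd_pos (n + 1)).le hepos.le (hz (n + 1)) huN hu1 hu2 hDk
        refine avK_mono ?_ this
        rw [← avd_succ n]; linarith
      have q2 : Z ∈ avK N ξ x (avd n) := avK_mono (avd_anti (Nat.le_succ n)) (hz (n + 1))
      have q3 := avK_par q1 q2
      have q4 : ‖(star u * Z * u) ξ‖ ^ 2 ≤ ‖Z ξ‖ ^ 2 + e * ‖Z‖ ^ 2 := by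
        have : ‖(star u * Z * u) ξ‖ = ‖Z (u ξ)‖ := by
          change ‖(star u) (Z (u ξ))‖ = _
          exact norm_of_isom (by rw [star_star]; exact hu2) _
        rw [this]
        exact norm_right_defect hepos.le hZN huN hu1 hu2 hDk
      have q5 : e * ‖Z‖ ^ 2 ≤ (ε / 8) ^ 2 / 4 := by
        have : ‖Z‖ ^ 2 ≤ ‖x‖ ^ 2 := by
          have := hzC (n + 1)
          gcongr
        have q6 : e * (4 * ‖Z‖ ^ 2) ≤ e * R := by
          gcongr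
          rw [hR]; linarith
        linarith
      nlinarith
    have p2' : ‖(star u * Z * u) ξ - Z ξ‖ < ε / 4 :=
      lt_of_pow_lt_pow_left₀ 2 (by positivity) p2
    -- assemble
    have e1 : y (u ξ) - u (y ξ) =
        (y - Z) (u ξ) + u ((star u * Z * u) ξ - Z ξ) + u (Z ξ - y ξ) := by
      have e2 : u ((star u * Z * u) ξ) = Z (u ξ) :=
        congrArg (fun T : H →L[ℂ] H => T (Z (u ξ))) hu2
      rw [map_sub, map_sub, e2, sub_apply]
      abel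
    rw [e1]
    have n1 : ‖u ((star u * Z * u) ξ - Z ξ)‖ = ‖(star u * Z * u) ξ - Z ξ‖ := norm_of_isom hu1 _
    have n2 : ‖u (Z ξ - y ξ)‖ = ‖Z ξ - y ξ‖ := norm_of_isom hu1 _
    calc ‖(y - Z) (u ξ) + u ((star u * Z * u) ξ - Z ξ) + u (Z ξ - y ξ)‖
        ≤ ‖(y - Z) (u ξ)‖ + ‖u ((star u * Z * u) ξ - Z ξ)‖ + ‖u (Z ξ - y ξ)‖ :=
          norm_add₃_le
      _ < ε / 4 + ε / 4 + ε / 8 := by
          rw [n1, n2, hyη]
          linarith
      _ < ε := by linarith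
  have hyBN : y ∈ Bicent N N ξ := ⟨hyN, hyB.2⟩
  obtain ⟨c0, hc0⟩ := TB y hyBN
  -- the scalar
  have hstate : Tendsto (fun n => ⟪ξ, z n ξ⟫_ℂ) atTop (𝓝 ⟪ξ, x ξ⟫_ℂ) := by
    rw [tendsto_iff_norm_sub_tendsto_zero]
    have h1 : Tendsto (fun n => avd n * ‖x‖) atTop (𝓝 0) := by
      have := avd_tendsto.mul_const ‖x‖
      rwa [zero_mul] at this
    exact squeeze_zero (fun n => norm_nonneg _) (fun n => avK_state hx (avd_pos n).le (hz n)) h1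
  have hstate' : Tendsto (fun n => ⟪ξ, z n ξ⟫_ℂ) atTop (𝓝 ⟪ξ, η⟫_ℂ) :=
    tendsto_const_nhds.inner hη
  have hc : c0 = ⟪ξ, x ξ⟫_ℂ := by
    have h1 := tendsto_nhds_unique hstate hstate'
    rw [h1, ← hyη, hc0]
    change c0 = ⟪ξ, c0 • ξ⟫_ℂ
    rw [inner_smul_right, S.inner_self, mul_one]
  -- strong convergence
  have hstrong : Tendsto (fun n => (z n - c0 • (1 : H →L[ℂ] H)) w') atTop (𝓝 0) := by
    refine tendsto_of_bounded N S.dense_commN (x := fun n => z n - c0 • (1 : H →L[ℂ] H))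
      (C := ‖x‖ + ‖c0 • (1 : H →L[ℂ] H)‖)
      (fun n => sub_mem (hzN n) (smul_mem' _ (one_mem N)))
      (fun n => (norm_sub_le _ _).trans (by gcongr; exact hzC n)) ?_ w'
    have h1 := hη.sub_const (c0 • ξ)
    have h2 : η - c0 • ξ = 0 := by
      rw [← hyη, hc0]
      exact sub_self _
    rw [h2] at h1
    exact h1
  have hw : Tendsto (fun n => (⟪w, z n w'⟫_ℂ).re) atTop (𝓝 (c0 * ⟪w, w'⟫_ℂ).re) := by
    have h1 : Tendsto (fun n => z n w') atTop (𝓝 (c0 • w')) := by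
      have h2 := hstrong.add_const (c0 • w')
      rw [zero_add] at h2
      refine h2.congr fun n => ?_
      change z n w' - c0 • w' + c0 • w' = z n w'
      abel
    have h3 : Tendsto (fun n => ⟪w, z n w'⟫_ℂ) atTop (𝓝 ⟪w, c0 • w'⟫_ℂ) :=
      tendsto_const_nhds.inner h1
    rw [inner_smul_right] at h3
    exact (Complex.continuous_re.tendsto _).comp h3
  rw [← hc]
  refine ge_of_tendsto hw ?_
  have h1 : ∀ᶠ n in atTop, avd n < δ := avd_tendsto.eventually (gt_mem_nhds hδ)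
  filter_upwards [h1] with n hn
  exact avK_half w w' h (avK_mono hn.le (hz n))

end Pool.Agent.Helper23
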