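import Pool.Agent.Helper23.UDefs
import Pool.Agent.Helper23.Dens
import Mathlib.Analysis.CStarAlgebra.ContinuousFunctionalCalculus.Basic
import Mathlib.Analysis.CStarAlgebra.ContinuousFunctionalCalculus.Isometric
import Mathlib.Analysis.CStarAlgebra.ContinuousFunctionalCalculus.Commute
import Mathlib.Topology.ContinuousMap.Weierstrass

/-!
# Kaplansky density (module U4)
-/

open scoped InnerProductSpace Topology BoundedContinuousFunction
open ContinuousLinearMap Filter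

namespace Pool.Agent.Helper23

universe u

variable {K : Type u} [NormedAddCommGroup K] [InnerProductSpace ℂ K] [CompleteSpace K]

/-- `f(B) = 2 B (1 + B²)⁻¹` -/
noncomputable def kap2 {G : Type*} [NormedAddCommGroup G] [InnerProductSpace ℂ G]
    [CompleteSpace G] (B : G →L[ℂ] G) : G →L[ℂ] G :=
  (2 : ℂ) • (B * Ring.inverse (1 + B * B))

section basic

variable {G : Type*} [NormedAddCommGroup G] [InnerProductSpace ℂ G] [CompleteSpace G]

lemma kap_isUnit {B : G →L[ℂ] G} (hB : star B = B) : IsUnit (1 + B * B) := by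
  have h1 : (-1 : ℝ) ∉ spectrum ℝ (star B * B) := fun h => by
    have := spectrum_star_mul_self_nonneg (b := B) _ h
    norm_num at this
  rw [spectrum.notMem_iff, hB] at h1
  have h2 := h1.neg
  have h3 : -((algebraMap ℝ (G →L[ℂ] G)) (-1) - B * B) = 1 + B * B := by
    rw [map_neg, map_one]; abel
  rwa [h3] at h2

/-- `w = (1 + B²)⁻¹ x` -/
lemma kap_inv_apply {B : G →L[ℂ] G} (hB : star B = B) (x : G) :
    Ring.inverse (1 + B * B) x + B (B (Ring.inverse (1 + B * B) x)) = x := by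
  have h := Ring.mul_inverse_cancel _ (kap_isUnit hB)
  have h2 := congrArg (fun T : G →L[ℂ] G => T x) h
  exact h2

lemma kap_sa {B : G →L[ℂ] G} (hB : star B = B) (x y : G) : ⟪B x, y⟫_ℂ = ⟪x, B y⟫_ℂ := by
  rw [← ContinuousLinearMap.adjoint_inner_left, ← ContinuousLinearMap.star_eq_adjoint, hB]

lemma kap_key {B : G →L[ℂ] G} (hB : star B = B) (w : G) :
    ‖w + B (B w)‖ ^ 2 = ‖w‖ ^ 2 + 2 * ‖B w‖ ^ 2 + ‖B (B w)‖ ^ 2 ∧
    ‖w + B (B w)‖ ^ 2 = ‖w - B (B w)‖ ^ 2 + 4 * ‖B w‖ ^ 2 := by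
  have h1 : RCLike.re ⟪w, B (B w)⟫_ℂ = ‖B w‖ ^ 2 := by
    rw [← kap_sa hB, inner_self_eq_norm_sq]
  have h2 := @norm_add_sq ℂ G _ _ _ w (B (B w))
  have h3 := @norm_sub_sq ℂ G _ _ _ w (B (B w))
  rw [h1] at h2 h3
  constructor
  · rw [h2]
  · rw [h2, h3]; ring

lemma kap_inv_norm {B : G →L[ℂ] G} (hB : star B = B) (x : G) :
    ‖Ring.inverse (1 + B * B) x‖ ≤ ‖x‖ := by
  have h := kap_inv_apply hB x
  have h2 := (kap_key hB (Ring.inverse (1 + B * B) x)).1
  rw [h] at h2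
  refine le_of_sq_le_sq ?_ (norm_nonneg _)
  nlinarith [sq_nonneg ‖B (Ring.inverse (1 + B * B) x)‖,
    sq_nonneg ‖B (B (Ring.inverse (1 + B * B) x))‖]

lemma kap2_apply (B : G →L[ℂ] G) (x : G) :
    kap2 B x = (2 : ℂ) • B (Ring.inverse (1 + B * B) x) := rfl

lemma kap2_apply_norm {B : G →L[ℂ] G} (hB : star B = B) (x : G) : ‖kap2 B x‖ ≤ ‖x‖ := by
  have h := kap_inv_apply hB x
  have h2 := (kap_key hB (Ring.inverse (1 + B * B) x)).2
  rw [h] at h2
  rw [kap2_apply, norm_smul]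
  refine le_of_sq_le_sq ?_ (norm_nonneg _)
  rw [h2, mul_pow]
  have h3 : ‖(2 : ℂ)‖ ^ 2 = 4 := by norm_num
  rw [h3]
  nlinarith [sq_nonneg ‖Ring.inverse (1 + B * B) x - B (B (Ring.inverse (1 + B * B) x))‖]

end basic

theorem kap2_norm {B : K →L[ℂ] K} (hB : star B = B) : ‖kap2 B‖ ≤ 1 :=
  ContinuousLinearMap.opNorm_le_bound _ zero_le_one fun x => by
    rw [one_mul]; exact kap2_apply_norm hB x

section alg

variable {G : Type*} [NormedAddCommGroup G] [InnerProductSpace ℂ G] [CompleteSpace G]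

/-- `B P - S Q = P (B - S) Q + P B (S - B) S Q` -/
lemma kap2_diff {B S : G →L[ℂ] G} (hB : star B = B) (hS : star S = S) (v : G) :
    ‖kap2 B v - kap2 S v‖ ≤ 2 * ‖(B - S) (Ring.inverse (1 + S * S) v)‖ +
      ‖(B - S) (kap2 S v)‖ := by
  set P := Ring.inverse (1 + B * B) with hP
  set Q := Ring.inverse (1 + S * S) with hQ
  have h1 : P * (1 + B * B) = 1 := Ring.inverse_mul_cancel _ (kap_isUnit hB)
  have h2 : (1 + S * S) * Q = 1 := Ring.mul_inverse_cancel _ (kap_isUnit hS)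
  have h1' : (1 + B * B) * P = 1 := Ring.mul_inverse_cancel _ (kap_isUnit hB)
  -- `P` commutes with `B`
  have hPB : P * B = B * P := by
    have e : (1 + B * B) * B = B * (1 + B * B) := by noncomm_ring
    calc P * B = P * B * ((1 + B * B) * P) := by rw [h1', mul_one]
      _ = P * (B * (1 + B * B)) * P := by noncomm_ring
      _ = P * ((1 + B * B) * B) * P := by rw [e]
      _ = (P * (1 + B * B)) * B * P := by noncomm_ring
      _ = B * P := by rw [h1, one_mul]
  have key : B * P - S * Q = P * ((B - S) * Q) + (B * P) * ((S - B) * (S * Q)) := by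
    have e1 : B * P = P * B * ((1 + S * S) * Q) := by rw [h2, mul_one, hPB]
    have e2 : S * Q = (P * (1 + B * B)) * (S * Q) := by rw [h1, one_mul]
    calc B * P - S * Q = P * B * ((1 + S * S) * Q) - (P * (1 + B * B)) * (S * Q) := by
          rw [← e1, ← e2]
      _ = P * ((B - S) * Q) + (P * B) * ((S - B) * (S * Q)) := by noncomm_ring
      _ = _ := by rw [hPB]
  have hv : kap2 B v - kap2 S v = (2 : ℂ) • P ((B - S) (Q v)) -
      (2 : ℂ) • (B * P) ((B - S) ((S * Q) v)) := by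
    have h3 := congrArg (fun T : G →L[ℂ] G => (2 : ℂ) • T v) key
    have h4 : kap2 B v - kap2 S v = (2 : ℂ) • (B * P - S * Q) v := by
      rw [kap2_apply, kap2_apply]
      change _ = (2 : ℂ) • (B (P v) - S (Q v))
      rw [smul_sub]
    rw [h4]
    refine h3.trans ?_
    change (2 : ℂ) • (P ((B - S) (Q v)) + (B * P) ((S - B) ((S * Q) v))) = _
    have h5 : (S - B) ((S * Q) v) = -((B - S) ((S * Q) v)) := by
      change S _ - B _ = -(B _ - S _)
      abel
    rw [smul_add, h5, map_neg, smul_neg, ← sub_eq_add_neg]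
  have hkS : kap2 S v = (2 : ℂ) • (S * Q) v := rfl
  have hkB : ∀ x, (2 : ℂ) • (B * P) x = kap2 B x := fun x => rfl
  rw [hv, hkB]
  refine (norm_sub_le _ _).trans (add_le_add ?_ ?_)
  · rw [norm_smul]
    have : ‖(2 : ℂ)‖ = 2 := by norm_num
    rw [this]
    exact mul_le_mul_of_nonneg_left (kap_inv_norm hB _) (by norm_num)
  · refine (kap2_apply_norm hB _).trans ?_
    rw [hkS, map_smul, norm_smul]
    have : ‖(2 : ℂ)‖ = 2 := by norm_num
    rw [this]
    nlinarith [norm_nonneg ((B - S) ((S * Q) v))]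

end alg

section density

variable (A : StarSubalgebra ℂ (K →L[ℂ] K))

/-- Double commutant theorem: elements of the bicommutant are approximated on finitely many
vectors. -/
theorem exists_alg_near {ι : Type*} [Fintype ι] [DecidableEq ι] (η : ι → K) {c : K →L[ℂ] K}
    (hc : c ∈ genVN (A : Set (K →L[ℂ] K))) {ε : ℝ} (hε : 0 < ε) :
    ∃ a ∈ A, ∀ i, ‖a (η i) - c (η i)‖ < ε := by
  set vec : PiLp 2 (fun _ : ι => K) := WithLp.toLp 2 η with hvec
  let L : (K →L[ℂ] K) →ₗ[ℂ] PiLp 2 (fun _ : ι => K) :=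
    { toFun := fun a => diag ι a vec
      map_add' := by
        intro a b
        ext i
        rfl
      map_smul' := by
        intro c a
        ext i
        rfl }
  have hL : ∀ a, L a = diag ι a vec := fun a => rfl
  set V := (A.toSubalgebra.toSubmodule.map L).topologicalClosure with hV
  set P := V.starProjection with hP
  -- invariance
  have hinv : ∀ b ∈ A, ∀ x ∈ V, diag ι b x ∈ V := by
    intro b hb x hx
    have h1 : ((A.toSubalgebra.toSubmodule.map L : Submodule ℂ _) :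
        Set (PiLp 2 (fun _ : ι => K))) ⊆ (diag ι b) ⁻¹' (V : Set _) := by
      rintro _ ⟨a, ha, rfl⟩
      refine Submodule.le_topologicalClosure _ ⟨b * a, A.mul_mem hb ha, ?_⟩
      rw [hL, hL]
      ext i
      rfl
    exact closure_minimal h1 ((Submodule.isClosed_topologicalClosure _).preimage
      (diag ι b).continuous) hx
  have hinv' : ∀ b ∈ A, ∀ x ∈ Vᗮ, diag ι b x ∈ Vᗮ := by
    intro b hb x hx
    rw [Submodule.mem_orthogonal] at hx ⊢
    intro u hu
    have := hx _ (hinv _ (star_mem hb) u hu)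
    rw [inner_diag, star_star] at this
    exact this
  have hcomm : ∀ b ∈ A, ∀ x, P (diag ι b x) = diag ι b (P x) := by
    intro b hb x
    refine Submodule.eq_starProjection_of_mem_orthogonal (K := V) ?_ ?_
    · exact hinv b hb _ (Submodule.starProjection_apply_mem V x)
    · rw [← map_sub]
      exact hinv' b hb _ (Submodule.sub_starProjection_mem_orthogonal x)
  -- entries
  let T : ι → ι → (K →L[ℂ] K) := fun i j =>
    (PiLp.proj 2 (fun _ : ι => K) i).comp (P.comp (sing ι j))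
  have hTmem : ∀ i j, ∀ b ∈ A, b * T i j = T i j * b := by
    intro i j b hb
    ext h
    change b (P (sing ι j h) i) = P (sing ι j (b h)) i
    rw [← diag_sing, hcomm b hb]
    rfl
  have hcT : ∀ i j h, c (T i j h) = T i j (c h) := by
    intro i j h
    have hcmem : c ∈ StarSubalgebra.centralizer ℂ
        ((StarSubalgebra.centralizer ℂ (A : Set (K →L[ℂ] K)) :
          StarSubalgebra ℂ (K →L[ℂ] K)) : Set (K →L[ℂ] K)) := hc
    have hTc : T i j ∈ StarSubalgebra.centralizer ℂ (A : Set (K →L[ℂ] K)) := by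
      rw [StarSubalgebra.mem_centralizer_iff]
      intro b hb
      exact ⟨hTmem i j b hb, hTmem i j (star b) (star_mem hb)⟩
    rw [StarSubalgebra.mem_centralizer_iff] at hcmem
    have h3 := (hcmem _ hTc).1
    exact (congrArg (fun X : K →L[ℂ] K => X h) h3).symm
  have hcommc : ∀ x, P (diag ι c x) = diag ι c (P x) := by
    intro x
    have hx := sum_sing x
    have h1 : diag ι c x = ∑ j, sing ι j (c (x j)) := by
      conv_lhs => rw [hx]
      rw [map_sum]
      exact Finset.sum_congr rfl fun j _ => diag_sing _ _ _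
    have h2 : P (diag ι c x) = ∑ j, P (sing ι j (c (x j))) := by rw [h1, map_sum]
    have h3 : P x = ∑ j, P (sing ι j (x j)) := by
      conv_lhs => rw [hx]
      rw [map_sum]
    rw [h2, h3, map_sum]
    refine Finset.sum_congr rfl fun j _ => ?_
    ext i
    rw [diag_apply]
    change T i j (c (x j)) = c (T i j (x j))
    exact (hcT i j _).symm
  have hvecV : vec ∈ V := by
    refine Submodule.le_topologicalClosure _ ⟨1, A.one_mem, ?_⟩
    rw [hL]
    ext i
    rfl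
  have hcvec : diag ι c vec ∈ V := by
    have h1 : P vec = vec := Submodule.starProjection_eq_self_iff.2 hvecV
    rw [← h1, ← hcommc]
    exact Submodule.starProjection_apply_mem V _
  have hcl : diag ι c vec ∈ closure ((A.toSubalgebra.toSubmodule.map L : Submodule ℂ _) :
      Set (PiLp 2 (fun _ : ι => K))) := hcvec
  obtain ⟨_, ⟨a, ha, rfl⟩, hdist⟩ := Metric.mem_closure_iff.1 hcl ε hε
  refine ⟨a, ha, fun i => ?_⟩
  rw [dist_eq_norm] at hdist
  have h4 : ‖(diag ι c vec - L a) i‖ ≤ ‖diag ι c vec - L a‖ := PiLp.norm_apply_le _ i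
  have h5 : (diag ι c vec - L a) i = c (η i) - a (η i) := rfl
  rw [h5, norm_sub_rev] at h4
  exact lt_of_le_of_lt h4 hdist

variable {A}

/-- a pair of vector functionals vanishing on the algebra vanishes on the bicommutant -/
lemma functional_zero {v₁ v₂ y₁ y₂ : K}
    (h : ∀ X ∈ A, ⟪y₁, X v₁⟫_ℂ + ⟪y₂, X v₂⟫_ℂ + (⟪v₁, X y₁⟫_ℂ + ⟪v₂, X y₂⟫_ℂ) = 0)
    {c : K →L[ℂ] K} (hc : c ∈ genVN (A : Set (K →L[ℂ] K))) :
    ⟪y₁, c v₁⟫_ℂ + ⟪y₂, c v₂⟫_ℂ + (⟪v₁, c y₁⟫_ℂ + ⟪v₂, c y₂⟫_ℂ) = 0 := by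
  set D := ⟪y₁, c v₁⟫_ℂ + ⟪y₂, c v₂⟫_ℂ + (⟪v₁, c y₁⟫_ℂ + ⟪v₂, c y₂⟫_ℂ) with hD
  set M := ‖y₁‖ + ‖y₂‖ + (‖v₁‖ + ‖v₂‖) with hM
  have hM0 : 0 ≤ M := by positivity
  have hle : ∀ ε : ℝ, 0 < ε → ‖D‖ ≤ M * ε := by
    intro ε hε
    obtain ⟨a, ha, hn⟩ := exists_alg_near A (ι := Fin 4) ![v₁, v₂, y₁, y₂] hc hε
    have n0 : ‖c v₁ - a v₁‖ ≤ ε := by rw [norm_sub_rev]; exact (hn 0).le
    have n1 : ‖c v₂ - a v₂‖ ≤ ε := by rw [norm_sub_rev]; exact (hn 1).le
    have n2 : ‖c y₁ - a y₁‖ ≤ ε := by rw [norm_sub_rev]; exact (hn 2).le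
    have n3 : ‖c y₂ - a y₂‖ ≤ ε := by rw [norm_sub_rev]; exact (hn 3).le
    have hDa : D = ⟪y₁, c v₁ - a v₁⟫_ℂ + ⟪y₂, c v₂ - a v₂⟫_ℂ +
        (⟪v₁, c y₁ - a y₁⟫_ℂ + ⟪v₂, c y₂ - a y₂⟫_ℂ) := by
      simp only [inner_sub_right]
      have := h a ha
      rw [hD]
      linear_combination this
    rw [hDa]
    have b0 := (norm_inner_le_norm (𝕜 := ℂ) y₁ (c v₁ - a v₁)).trans
      (mul_le_mul_of_nonneg_left n0 (norm_nonneg _))
    have b1 := (norm_inner_le_norm (𝕜 := ℂ) y₂ (c v₂ - a v₂)).trans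
      (mul_le_mul_of_nonneg_left n1 (norm_nonneg _))
    have b2 := (norm_inner_le_norm (𝕜 := ℂ) v₁ (c y₁ - a y₁)).trans
      (mul_le_mul_of_nonneg_left n2 (norm_nonneg _))
    have b3 := (norm_inner_le_norm (𝕜 := ℂ) v₂ (c y₂ - a y₂)).trans
      (mul_le_mul_of_nonneg_left n3 (norm_nonneg _))
    refine (norm_add_le _ _).trans ?_
    have c0 := norm_add_le ⟪y₁, c v₁ - a v₁⟫_ℂ ⟪y₂, c v₂ - a v₂⟫_ℂ
    have c1 := norm_add_le ⟪v₁, c y₁ - a y₁⟫_ℂ ⟪v₂, c y₂ - a y₂⟫_ℂ
    rw [hM]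
    nlinarith
  by_contra hne
  have hpos : 0 < ‖D‖ := norm_pos_iff.2 hne
  have h1 := hle (‖D‖ / (2 * (M + 1))) (by positivity)
  have h2 : M * (‖D‖ / (2 * (M + 1))) < ‖D‖ := by
    rw [mul_div_assoc', div_lt_iff₀ (by positivity)]
    nlinarith
  linarith

/-- self-adjoint elements of the bicommutant are approximated by self-adjoint elements of the
algebra, on two vectors -/
theorem exists_sa_near {S : K →L[ℂ] K} (hS : star S = S)
    (hSA : S ∈ genVN (A : Set (K →L[ℂ] K))) (v₁ v₂ : K) {ε : ℝ} (hε : 0 < ε) :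
    ∃ B ∈ A, star B = B ∧ ‖(B - S) v₁‖ < ε ∧ ‖(B - S) v₂‖ < ε := by
  set vec : PiLp 2 (fun _ : Fin 2 => K) := WithLp.toLp 2 ![v₁, v₂] with hvec
  let iR : InnerProductSpace ℝ (PiLp 2 (fun _ : Fin 2 => K)) :=
    InnerProductSpace.rclikeToReal ℂ (PiLp 2 (fun _ : Fin 2 => K))
  have hre : ∀ x y : PiLp 2 (fun _ : Fin 2 => K),
      iR.toInner.inner x y = (⟪x 0, y 0⟫_ℂ + ⟪x 1, y 1⟫_ℂ).re := by
    intro x y
    have h1 : iR.toInner.inner x y = (⟪x, y⟫_ℂ).re := rfl
    rw [h1, PiLp.inner_apply, Fin.sum_univ_two]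
  let V : Submodule ℝ (PiLp 2 (fun _ : Fin 2 => K)) :=
    { carrier := {x | ∃ B ∈ A, star B = B ∧ diag (Fin 2) B vec = x}
      add_mem' := by
        rintro _ _ ⟨B, hB, hB', rfl⟩ ⟨C, hC, hC', rfl⟩
        refine ⟨B + C, A.add_mem hB hC, by rw [star_add, hB', hC'], ?_⟩
        ext i; rfl
      zero_mem' := by
        refine ⟨0, A.zero_mem, star_zero _, ?_⟩
        ext i; rfl
      smul_mem' := by
        rintro c _ ⟨B, hB, hB', rfl⟩
        refine ⟨(c : ℂ) • B, A.smul_mem hB _, ?_, ?_⟩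
        · rw [star_smul, hB']; simp
        · ext i; rfl }
  have horth : ∀ y ∈ Vᗮ, iR.toInner.inner (diag (Fin 2) S vec) y = 0 := by
    intro y hy
    set y₁ : K := y 0 with hy₁
    set y₂ : K := y 1 with hy₂
    have hfun : ∀ B : K →L[ℂ] K, iR.toInner.inner (diag (Fin 2) B vec) y =
        (⟪B v₁, y₁⟫_ℂ + ⟪B v₂, y₂⟫_ℂ).re := fun B => hre _ _
    have hre2 : ∀ B : K →L[ℂ] K, star B = B →
        ⟪y₁, B v₁⟫_ℂ + ⟪y₂, B v₂⟫_ℂ + (⟪v₁, B y₁⟫_ℂ + ⟪v₂, B y₂⟫_ℂ) =
          ((2 * (⟪B v₁, y₁⟫_ℂ + ⟪B v₂, y₂⟫_ℂ).re : ℝ) : ℂ) := by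
      intro B hB
      rw [← kap_sa hB v₁ y₁, ← kap_sa hB v₂ y₂]
      have e1 := inner_conj_symm (𝕜 := ℂ) y₁ (B v₁)
      have e2 := inner_conj_symm (𝕜 := ℂ) y₂ (B v₂)
      rw [← e1, ← e2]
      have e3 := Complex.add_conj (⟪B v₁, y₁⟫_ℂ + ⟪B v₂, y₂⟫_ℂ)
      rw [map_add] at e3
      rw [← e3]
      ring
    have hsa : ∀ B ∈ A, star B = B →
        ⟪y₁, B v₁⟫_ℂ + ⟪y₂, B v₂⟫_ℂ + (⟪v₁, B y₁⟫_ℂ + ⟪v₂, B y₂⟫_ℂ) = 0 := by
      intro B hB hB'
      have h1 : iR.toInner.inner (diag (Fin 2) B vec) y = 0 :=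
        (Submodule.mem_orthogonal V y).1 hy _ ⟨B, hB, hB', rfl⟩
      rw [hre2 B hB', ← hfun, h1]
      simp
    have hall : ∀ X ∈ A,
        ⟪y₁, X v₁⟫_ℂ + ⟪y₂, X v₂⟫_ℂ + (⟪v₁, X y₁⟫_ℂ + ⟪v₂, X y₂⟫_ℂ) = 0 := by
      intro X hX
      set B : K →L[ℂ] K := X + star X with hBdef
      set C : K →L[ℂ] K := Complex.I • (star X - X) with hCdef
      have hX' : star X ∈ A := star_mem hX
      have hB := hsa B (add_mem hX hX') (by rw [hBdef, star_add, star_star, add_comm])
      have hC := hsa C (A.smul_mem (sub_mem hX' hX) _) (by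
        rw [hCdef, star_smul, star_sub, star_star, ← neg_sub (star X) X, smul_neg, ← neg_smul]
        congr 1
        simp)
      have hXe : ∀ w, X w = (1 / 2 : ℂ) • B w + (Complex.I / 2) • C w := by
        intro w
        change X w = (1 / 2 : ℂ) • (X w + star X w) +
          (Complex.I / 2) • (Complex.I • (star X w - X w))
        rw [smul_smul]
        have : Complex.I / 2 * Complex.I = -(1 / 2 : ℂ) := by
          rw [div_mul_eq_mul_div, Complex.I_mul_I]; norm_num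
        rw [this]
        module
      simp only [hXe, inner_add_right, inner_smul_right]
      linear_combination (1 / 2 : ℂ) * hB + (Complex.I / 2) * hC
    have hSz := functional_zero hall hSA
    rw [hre2 S hS, ← hfun] at hSz
    have h4 := Complex.ofReal_eq_zero.1 hSz
    linarith
  have hmem : diag (Fin 2) S vec ∈ V.topologicalClosure := by
    rw [← Submodule.orthogonal_orthogonal_eq_closure, Submodule.mem_orthogonal]
    intro y hy
    rw [real_inner_comm]
    exact horth y hy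
  have hcl : diag (Fin 2) S vec ∈ closure (V : Set (PiLp 2 (fun _ : Fin 2 => K))) := hmem
  obtain ⟨_, ⟨B, hB, hB', rfl⟩, hdist⟩ := Metric.mem_closure_iff.1 hcl ε hε
  rw [dist_eq_norm, norm_sub_rev] at hdist
  have hi : ∀ i : Fin 2, ‖(diag (Fin 2) B vec - diag (Fin 2) S vec) i‖ < ε := fun i =>
    lt_of_le_of_lt (PiLp.norm_apply_le _ i) hdist
  exact ⟨B, hB, hB', hi 0, hi 1⟩

end density

/-- the inverse of `2 t / (1 + t ^ 2)` on `[-1, 1]` -/
noncomputable def kapg (s : ℝ) : ℝ := s / (1 + Real.sqrt (1 - s ^ 2))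

lemma kapg_pos (s : ℝ) : 0 < 1 + Real.sqrt (1 - s ^ 2) := by positivity

lemma kapg_cont : Continuous kapg := by
  unfold kapg
  exact continuous_id.div (by fun_prop) fun s => (kapg_pos s).ne'

lemma kapg_spec {s : ℝ} (hs : |s| ≤ 1) : 2 * kapg s = s * (1 + kapg s ^ 2) := by
  have h1 : Real.sqrt (1 - s ^ 2) ^ 2 = 1 - s ^ 2 :=
    Real.sq_sqrt (by have := (sq_le_one_iff_abs_le_one s).2 hs; linarith)
  have h2 := (kapg_pos s).ne'
  unfold kapg
  set c := Real.sqrt (1 - s ^ 2)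
  have h3 : s ^ 2 = 1 - c ^ 2 := by rw [h1]; ring
  field_simp
  linear_combination (-s) * h3

lemma spec_abs_le {G : Type*} [NormedAddCommGroup G] [InnerProductSpace ℂ G] [CompleteSpace G]
    {B : G →L[ℂ] G} {C : ℝ} (hC : ‖B‖ ≤ C) {s : ℝ} (hs : s ∈ spectrum ℝ B) : |s| ≤ C := by
  have hG : Nontrivial G := by
    by_contra h
    rw [not_nontrivial_iff_subsingleton] at h
    have : Subsingleton (G →L[ℂ] G) := inferInstance
    rw [spectrum.of_subsingleton] at hs
    exact hs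
  have h1 := spectrum.subset_closedBall_norm B hs
  rw [Metric.mem_closedBall, dist_zero_right, Real.norm_eq_abs] at h1
  exact h1.trans hC

/-- approximation of self-adjoint contractions in the bicommutant -/
theorem kaplansky (A : StarSubalgebra ℂ (K →L[ℂ] K)) {T : K →L[ℂ] K} (hT : star T = T)
    (hT1 : ‖T‖ ≤ 1) (hTA : T ∈ genVN (A : Set (K →L[ℂ] K))) (v : K) {ε : ℝ} (hε : 0 < ε) :
    ∃ B ∈ A, star B = B ∧ ‖kap2 B v - T v‖ < ε := by
  have hTsa : IsSelfAdjoint T := hT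
  set S := cfc kapg T with hSdef
  have hS : star S = S := cfc_predicate kapg T
  have hST : (2 : ℂ) • S = T * (1 + S * S) := by
    have e1 : (2 : ℂ) • S = cfc (fun s => 2 * kapg s) T := by
      rw [cfc_const_mul (2 : ℝ) kapg T kapg_cont.continuousOn]
      exact (two_smul ℂ S).trans (two_smul ℝ S).symm
    have e2 : T * (1 + S * S) = cfc (fun s => s * (1 + kapg s ^ 2)) T := by
      have c1 : ContinuousOn (fun s => 1 + kapg s ^ 2) (spectrum ℝ T) :=
        (continuous_const.add (kapg_cont.pow 2)).continuousOn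
      have c2 : ContinuousOn (fun s => kapg s ^ 2) (spectrum ℝ T) :=
        (kapg_cont.pow 2).continuousOn
      rw [cfc_mul (fun s => s) (fun s => 1 + kapg s ^ 2) T continuousOn_id c1, cfc_id' ℝ T,
        cfc_add T (fun _ => (1 : ℝ)) (fun s => kapg s ^ 2) continuousOn_const c2,
        cfc_const_one ℝ T, cfc_pow kapg 2 T kapg_cont.continuousOn, pow_two]
    rw [e1, e2]
    exact cfc_congr fun s hs => kapg_spec (spec_abs_le hT1 hs)
  have hkS : kap2 S = T := by
    have h1 := Ring.mul_inverse_cancel _ (kap_isUnit hS)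
    calc kap2 S = ((2 : ℂ) • S) * Ring.inverse (1 + S * S) := by
          rw [kap2, smul_mul_assoc]
      _ = T := by rw [hST, mul_assoc, h1, mul_one]
  have hSA : S ∈ genVN (A : Set (K →L[ℂ] K)) := by
    have hTm : T ∈ StarSubalgebra.centralizer ℂ
        ((StarSubalgebra.centralizer ℂ (A : Set (K →L[ℂ] K)) :
          StarSubalgebra ℂ (K →L[ℂ] K)) : Set (K →L[ℂ] K)) := hTA
    rw [StarSubalgebra.mem_centralizer_iff] at hTm
    change S ∈ StarSubalgebra.centralizer ℂ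
        ((StarSubalgebra.centralizer ℂ (A : Set (K →L[ℂ] K)) :
          StarSubalgebra ℂ (K →L[ℂ] K)) : Set (K →L[ℂ] K))
    rw [StarSubalgebra.mem_centralizer_iff]
    intro c hc
    have h1 : Commute T c := (hTm c hc).1.symm
    have h2 : Commute T (star c) := (hTm c hc).2.symm
    exact ⟨(h1.cfc_real kapg).symm, (h2.cfc_real kapg).symm⟩
  obtain ⟨B, hB, hB', h1, h2⟩ := exists_sa_near (A := A) hS hSA
    (Ring.inverse (1 + S * S) v) (kap2 S v) (ε := ε / 4) (by positivity)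
  refine ⟨B, hB, hB', ?_⟩
  have h3 := kap2_diff hB' hS v
  rw [hkS] at h3
  rw [hkS] at h2
  linarith

/-- `f(B)` is a norm limit of polynomials in `B`, uniformly for `‖B‖ ≤ C` -/
theorem kap2_poly (C : ℝ) {ε : ℝ} (hε : 0 < ε) : ∃ p : Polynomial ℂ,
    ∀ (G : Type u) [NormedAddCommGroup G] [InnerProductSpace ℂ G] [CompleteSpace G]
      (B : G →L[ℂ] G), star B = B → ‖B‖ ≤ C → ‖kap2 B - Polynomial.aeval B p‖ ≤ ε := by
  have hf : Continuous fun t : ℝ => 2 * t / (1 + t ^ 2) :=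
    (by fun_prop : Continuous fun t : ℝ => 2 * t).div (by fun_prop) fun t => by positivity
  obtain ⟨q, hq⟩ := exists_polynomial_near_of_continuousOn (-C) C _ hf.continuousOn ε hε
  refine ⟨q.map (algebraMap ℝ ℂ), ?_⟩
  intro G _ _ _ B hB hBC
  have hBsa : IsSelfAdjoint B := hB
  have e1 : kap2 B = cfc (fun t : ℝ => 2 * t / (1 + t ^ 2)) B := by
    have h1 : cfc (fun t : ℝ => 2 * t / (1 + t ^ 2)) B * (1 + B * B) = (2 : ℂ) • B := by
      have e2 : (1 + B * B) = cfc (fun t : ℝ => 1 + t ^ 2) B := by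
        rw [cfc_add B (fun _ => (1 : ℝ)) (fun t => t ^ 2) (by fun_prop) (by fun_prop),
          cfc_const_one ℝ B, cfc_pow_id B 2, pow_two]
      have e3 : (2 : ℂ) • B = cfc (fun t : ℝ => 2 * t) B := by
        rw [cfc_const_mul (2 : ℝ) (fun t => t) B (by fun_prop), cfc_id' ℝ B]
        exact (two_smul ℂ B).trans (two_smul ℝ B).symm
      rw [e2, e3, ← cfc_mul _ _ B hf.continuousOn (by fun_prop)]
      refine cfc_congr fun t _ => ?_
      have : (1 + t ^ 2 : ℝ) ≠ 0 := by positivity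
      field_simp
    have h2 := Ring.mul_inverse_cancel _ (kap_isUnit hB)
    calc kap2 B = ((2 : ℂ) • B) * Ring.inverse (1 + B * B) := by
          rw [kap2, smul_mul_assoc]
      _ = _ := by rw [← h1, mul_assoc, h2, mul_one]
  have e4 : Polynomial.aeval B (q.map (algebraMap ℝ ℂ)) = cfc q.eval B := by
    rw [Polynomial.aeval_map_algebraMap, cfc_polynomial q B]
  rw [e1, e4, ← cfc_sub _ _ B hf.continuousOn q.continuous.continuousOn]
  refine norm_cfc_le hε.le fun t ht => ?_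
  have h5 := spec_abs_le hBC ht
  rw [Real.norm_eq_abs, abs_sub_comm]
  exact (hq t (abs_le.1 h5)).le

end Pool.Agent.Helper23
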