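import Pool.Agent.Helper29.QP.Defs

/-!
Module QP-T9 of the project MP_55050e_al: the right ideal of a free subgroup of a free group.
-/

open MonoidAlgebra Module

namespace Pool.Agent.Helper95.QPT9
open Pool.Agent.Helper29.QP

universe u
variable {K : Type u} [Field K] {X : Type}

/-- group of right affine maps -/
@[ext] structure Aff (K : Type u) [Field K] (X : Type) where
  /-- linear part -/
  g : FreeGroup X
  /-- translation part -/
  a : GA K X

lemma el_mul (g h : FreeGroup X) : el K (g * h) = el K g * el K h := by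
  simp [el, MonoidAlgebra.single_mul_single]

lemma el_one : el K (1 : FreeGroup X) = 1 := rfl

noncomputable instance : Mul (Aff K X) := ⟨fun p q => ⟨p.g * q.g, p.a * el K q.g + q.a⟩⟩
noncomputable instance : One (Aff K X) := ⟨⟨1, 0⟩⟩
noncomputable instance : Inv (Aff K X) := ⟨fun p => ⟨p.g⁻¹, - (p.a * el K p.g⁻¹)⟩⟩

lemma mul_g (p q : Aff K X) : (p * q).g = p.g * q.g := rfl
lemma mul_a (p q : Aff K X) : (p * q).a = p.a * el K q.g + q.a := rfl
lemma one_g : (1 : Aff K X).g = 1 := rfl
lemma one_a : (1 : Aff K X).a = 0 := rfl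
lemma inv_g (p : Aff K X) : (p⁻¹).g = p.g⁻¹ := rfl
lemma inv_a (p : Aff K X) : (p⁻¹).a = - (p.a * el K p.g⁻¹) := rfl

noncomputable instance : Group (Aff K X) :=
  Group.ofLeftAxioms
    (by
      intro p q r
      ext1
      · simp only [mul_g, mul_assoc]
      · simp only [mul_g, mul_a, el_mul, add_mul, mul_assoc, add_assoc])
    (by
      intro q
      ext1
      · simp only [mul_g, one_g, one_mul]
      · simp only [mul_a, one_a, zero_mul, zero_add])
    (by
      intro p
      ext1
      · simp only [mul_g, inv_g, one_g, inv_mul_cancel]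
      · simp only [mul_a, inv_a, one_a, neg_mul, mul_assoc, ← el_mul, inv_mul_cancel, el_one,
          mul_one, neg_add_cancel])

lemma exists_crossed (H : Subgroup (FreeGroup X)) {ι : Type} (b : FreeGroupBasis ι H)
    (c : ι → GA K X) : ∃ D : H → GA K X,
      (∀ g h, D (g * h) = D g * el K (h : FreeGroup X) + D h) ∧ ∀ i, D (b i) = c i := by
  classical
  let φ : H →* Aff K X := b.lift fun i => ⟨(b i : H), c i⟩
  let π : Aff K X →* FreeGroup X :=
    { toFun := fun p => p.g, map_one' := rfl, map_mul' := fun p q => rfl }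
  have hφ : ∀ i, φ (b i) = ⟨(b i : H), c i⟩ := fun i => by simp [φ]
  have hπ : π.comp φ = H.subtype := by
    apply b.ext_hom
    intro i
    simp [π, hφ]
  have hg : ∀ h : H, (φ h).g = (h : FreeGroup X) := fun h => DFunLike.congr_fun hπ h
  refine ⟨fun h => (φ h).a, ?_, ?_⟩
  · intro g h
    simp only [map_mul, mul_a, hg]
  · intro i
    simp only [hφ]

/-- the `H` part of an element -/
noncomputable def sH (H : Subgroup (FreeGroup X)) (g : FreeGroup X) : H :=
  ⟨g * (Quotient.out (Quotient.mk (QuotientGroup.rightRel H) g))⁻¹, by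
    have h := Quotient.mk_out (s := QuotientGroup.rightRel H) g
    exact QuotientGroup.rightRel_apply.mp h⟩

lemma sH_mul (H : Subgroup (FreeGroup X)) (h : H) (g : FreeGroup X) :
    sH H ((h : FreeGroup X) * g) = h * sH H g := by
  have e : (Quotient.mk (QuotientGroup.rightRel H) ((h : FreeGroup X) * g))
      = Quotient.mk (QuotientGroup.rightRel H) g := by
    apply Quotient.sound
    apply QuotientGroup.rightRel_apply.mpr
    simp
  apply Subtype.ext
  simp only [sH, e, Subgroup.coe_mul, mul_assoc]

/-- linear extension -/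
noncomputable def Th (H : Subgroup (FreeGroup X)) (D : H → GA K X) : GA K X →ₗ[K] GA K X :=
  (Finsupp.linearCombination K
    (fun g => D (sH H g) * el K ((sH H g : FreeGroup X)⁻¹ * g))) ∘ₗ
    (MonoidAlgebra.coeffLinearEquiv K).toLinearMap

lemma Th_el (H : Subgroup (FreeGroup X)) (D : H → GA K X) (g : FreeGroup X) :
    Th H D (el K g) = D (sH H g) * el K ((sH H g : FreeGroup X)⁻¹ * g) := by
  have e : (MonoidAlgebra.coeffLinearEquiv K) (el K g) = Finsupp.single g (1 : K) := rfl
  simp only [Th, LinearMap.comp_apply, LinearEquiv.coe_coe]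
  rw [e, Finsupp.linearCombination_single, one_smul]

lemma Th_mul (H : Subgroup (FreeGroup X)) (D : H → GA K X)
    (hD : ∀ g h, D (g * h) = D g * el K (h : FreeGroup X) + D h) (h : H) (a : GA K X) :
    Th H D ((el K (h : FreeGroup X) - 1) * a) = D h * a := by
  induction a using MonoidAlgebra.induction_linear with
  | zero => simp
  | add x y hx hy => rw [mul_add, map_add, hx, hy, mul_add]
  | single g r =>
    have e : (MonoidAlgebra.single g r : GA K X) = r • el K g := by
      simp [el]
    rw [e, mul_smul_comm, mul_smul_comm, map_smul]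
    congr 1
    rw [sub_mul, one_mul, ← el_mul, map_sub, Th_el, Th_el, sH_mul, hD, add_mul]
    have e2 : ((h * sH H g : H) : FreeGroup X)⁻¹ * ((h : FreeGroup X) * g)
        = (sH H g : FreeGroup X)⁻¹ * g := by
      push_cast
      group
    rw [e2, mul_assoc, ← el_mul, mul_inv_cancel_left]
    abel

open Classical in
/-- restriction of the support to `H` -/
noncomputable def piH (H : Subgroup (FreeGroup X)) : GA K X →ₗ[K] GA K X :=
  (MonoidAlgebra.coeffLinearEquiv K).symm.toLinearMap ∘ₗ
    ((Finsupp.supported K K (H : Set (FreeGroup X))).subtype ∘ₗ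
      Finsupp.restrictDom K K (H : Set (FreeGroup X))) ∘ₗ
    (MonoidAlgebra.coeffLinearEquiv K).toLinearMap

open Classical in
lemma piH_coeff (H : Subgroup (FreeGroup X)) (a : GA K X) (g : FreeGroup X) :
    (piH H a).coeff g = if g ∈ H then a.coeff g else 0 := by
  have e : (piH H a).coeff = Finsupp.filter (· ∈ (H : Set (FreeGroup X))) a.coeff := by
    simp only [piH, LinearMap.comp_apply, LinearEquiv.coe_coe, Submodule.subtype_apply,
      Finsupp.restrictDom_apply]
    rfl
  rw [e, Finsupp.filter_apply]
  rfl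

lemma piH_suppIn (H : Subgroup (FreeGroup X)) (a : GA K X) :
    SuppIn (H : Set (FreeGroup X)) (piH H a) := by
  classical
  intro g hg
  rw [piH_coeff] at hg
  by_contra hn
  exact hg (if_neg hn)

lemma piH_mul (H : Subgroup (FreeGroup X)) (a : GA K X) (h : H) :
    piH H (a * el K (h : FreeGroup X)) = piH H a * el K (h : FreeGroup X) := by
  classical
  apply MonoidAlgebra.coeff_injective
  ext g
  rw [piH_coeff, MonoidAlgebra.coeff_mul_single_apply, MonoidAlgebra.coeff_mul_single_apply,
    piH_coeff]
  have e : g * (h : FreeGroup X)⁻¹ ∈ H ↔ g ∈ H :=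
    Subgroup.mul_mem_cancel_right H (inv_mem h.2)
  simp only [e, ite_mul, zero_mul]

lemma piH_one (H : Subgroup (FreeGroup X)) : piH H (1 : GA K X) = 1 := by
  classical
  apply MonoidAlgebra.coeff_injective
  ext g
  rw [piH_coeff]
  split_ifs with hg
  · rfl
  · have hg1 : g ≠ 1 := fun h => hg (h ▸ one_mem H)
    rw [MonoidAlgebra.one_def, MonoidAlgebra.coeff_single, Finsupp.single_eq_of_ne hg1]

/-- augmentation -/
noncomputable def aug : GA K X →ₐ[K] K := MonoidAlgebra.lift K K (FreeGroup X) 1

lemma aug_el (g : FreeGroup X) : (aug : GA K X →ₐ[K] K) (el K g) = 1 := by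
  simp [aug, el]

theorem ideal_of_subgroup (H : Subgroup (FreeGroup X)) {m : ℕ} (b : FreeGroupBasis (Fin m) H) :
    ∃ (I : RIdeal K X), IdealHasRank I m ∧ I ≠ ⊤ ∧ (∀ h ∈ H, el K h - 1 ∈ I) ∧
      ∀ w ∈ H, PrimInIdeal I (el K w - 1) →
        ∃ d : H → GA K X, (∀ g, SuppIn (H : Set (FreeGroup X)) (d g)) ∧
          (∀ g h, d (g * h) = d g * el K (h : FreeGroup X) + d h) ∧
          ∀ hw : w ∈ H, d ⟨w, hw⟩ = 1 := by
  classical
  let v : Fin m → GA K X := fun j => el K ((b j : H) : FreeGroup X) - 1
  have hli : LinearIndependent (GA K X)ᵐᵒᵖ v := by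
    rw [Fintype.linearIndependent_iff]
    intro a ha i
    obtain ⟨D, hD, hDb⟩ := exists_crossed (K := K) H b (fun j => if j = i then (1 : GA K X) else 0)
    have h1 : Th H D (∑ j, a j • v j) = ∑ j, D (b j) * (a j).unop := by
      rw [map_sum]
      refine Finset.sum_congr rfl fun j _ => ?_
      rw [← Th_mul H D hD]
      rfl
    rw [ha, map_zero] at h1
    simp only [hDb, ite_mul, one_mul, zero_mul, Finset.sum_ite_eq', Finset.mem_univ,
      if_true] at h1
    exact MulOpposite.unop_injective h1.symm
  let I : RIdeal K X := Submodule.span (GA K X)ᵐᵒᵖ (Set.range v)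
  have hmul : ∀ (x : GA K X) (a : GA K X), x ∈ I → x * a ∈ I := fun x a hx =>
    I.smul_mem (MulOpposite.op a) hx
  let S : Subgroup H :=
    { carrier := {h | el K (h : FreeGroup X) - 1 ∈ I}
      mul_mem' := by
        intro g h hg hh
        have e : el K ((g * h : H) : FreeGroup X) - 1
            = (el K (g : FreeGroup X) - 1) * el K (h : FreeGroup X)
              + (el K (h : FreeGroup X) - 1) := by
          rw [Subgroup.coe_mul, el_mul, sub_mul, one_mul]
          abel
        show el K ((g * h : H) : FreeGroup X) - 1 ∈ I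
        rw [e]
        exact I.add_mem (hmul _ _ hg) hh
      one_mem' := by
        show el K ((1 : H) : FreeGroup X) - 1 ∈ I
        rw [Subgroup.coe_one, el_one, sub_self]
        exact I.zero_mem
      inv_mem' := by
        intro g hg
        have e : el K ((g⁻¹ : H) : FreeGroup X) - 1
            = - ((el K (g : FreeGroup X) - 1) * el K ((g : FreeGroup X)⁻¹)) := by
          rw [Subgroup.coe_inv, sub_mul, one_mul, ← el_mul, mul_inv_cancel, el_one]
          abel
        show el K ((g⁻¹ : H) : FreeGroup X) - 1 ∈ I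
        rw [e]
        exact I.neg_mem (hmul _ _ hg) }
  have hbS : ∀ i, b i ∈ S := fun i => Submodule.subset_span ⟨i, rfl⟩
  have hS : ∀ h : H, h ∈ S := by
    have key : ∀ x : FreeGroup (Fin m), b.repr.symm x ∈ S := by
      intro x
      induction x using FreeGroup.induction_on with
      | C1 => rw [map_one]; exact one_mem S
      | of i =>
        have : b.repr.symm (FreeGroup.of i) = b i := rfl
        rw [this]; exact hbS i
      | inv_of i hi => rw [map_inv]; exact inv_mem hi
      | mul x y hx hy => rw [map_mul]; exact mul_mem hx hy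
    intro h
    have := key (b.repr h)
    rwa [MulEquiv.symm_apply_apply] at this
  refine ⟨I, ⟨Basis.span hli⟩, ?_, fun h hh => hS ⟨h, hh⟩, ?_⟩
  · intro htop
    have haug : ∀ x ∈ I, (aug : GA K X →ₐ[K] K) x = 0 := by
      intro x hx
      induction hx using Submodule.span_induction with
      | mem x hx =>
        obtain ⟨j, rfl⟩ := hx
        simp only [v, map_sub, aug_el, map_one, sub_self]
      | zero => exact map_zero _
      | add x y _ _ hx hy => rw [map_add, hx, hy, add_zero]
      | smul a x _ hx =>
        have : a • x = x * a.unop := rfl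
        rw [this, map_mul, hx, zero_mul]
    have h1 := haug 1 (htop ▸ Submodule.mem_top)
    rw [map_one] at h1
    exact one_ne_zero h1
  · rintro w hw ⟨ι, b', i0, hb'⟩
    let θ : I →ₗ[(GA K X)ᵐᵒᵖ] (GA K X)ᵐᵒᵖ := b'.coord i0
    let el' : H → I := fun g => ⟨el K (g : FreeGroup X) - 1, hS g⟩
    have hel' : ∀ g h : H, el' (g * h) = MulOpposite.op (el K (h : FreeGroup X)) • el' g + el' h := by
      intro g h
      apply Subtype.ext
      show el K ((g * h : H) : FreeGroup X) - 1
        = (el K (g : FreeGroup X) - 1) * el K (h : FreeGroup X) + (el K (h : FreeGroup X) - 1)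
      rw [Subgroup.coe_mul, el_mul, sub_mul, one_mul]
      abel
    refine ⟨fun g => piH H (θ (el' g)).unop, fun g => piH_suppIn H _, ?_, ?_⟩
    · intro g h
      show piH H (θ (el' (g * h))).unop = piH H (θ (el' g)).unop * el K (h : FreeGroup X)
        + piH H (θ (el' h)).unop
      rw [hel', map_add, map_smul, MulOpposite.unop_add, smul_eq_mul, MulOpposite.unop_mul,
        MulOpposite.unop_op, map_add, piH_mul]
    · intro hw'
      have e : el' ⟨w, hw'⟩ = b' i0 := Subtype.ext hb'.symm
      have e2 : θ (b' i0) = 1 := by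
        simp [θ]
      show piH H (θ (el' ⟨w, hw'⟩)).unop = 1
      rw [e, e2, MulOpposite.unop_one, piH_one]

end Pool.Agent.Helper95.QPT9
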