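import Pool.Agent.Helper55.Circ.BU

/-!
Module LC-T0 of MP_07bfe7_gt: Borsuk-Ulam, no retraction, invariance of the boundary.
-/

set_option autoImplicit false

open Topology Set

namespace Pool.Agent.Helper26.LC

open Pool.Agent.Helper55.Circ Pool.Agent.Helper20.Glimm in
/-- Borsuk-Ulam for sequences. -/
theorem bu_seq (n : ℕ) (G : Fin n → (ℕ → ℝ) → ℝ) (hG : ∀ i, ContinuousOn (G i) (Dset n))
    (hodd : ∀ i, ∀ y ∈ Dset n, G i (-y) = - G i y) :
    ∃ y ∈ Dset n, ∀ i, G i y = 0 := by
  let m : ℕ → ℕ := fun j => if j = 0 then n else 0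
  have hmem : ∀ y : Y m, (fun i => y.1 (0, i)) ∈ Dset n := by
    intro y
    obtain ⟨-, ⟨i, hi, h⟩, -⟩ := y.2 0
    refine ⟨i, by simpa [m, Nat.lt_succ_iff] using hi, ?_⟩
    intro h0
    simp only [h0, abs_zero] at h
    exact one_ne_zero h.symm
  let σ : Y m → (ℕ → ℝ) := fun y => (fun i => y.1 (0, i))
  have hσ : Continuous σ := continuous_pi fun i =>
    (continuous_apply (0, i)).comp continuous_subtype_val
  obtain ⟨y, hy⟩ := borsukUlam (m := m) 1 (fun x y => G x (σ y))
    (fun x => (hG x).comp_continuous hσ hmem)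
    (fun _ j => if j = 0 then 1 else 0) (fun x j y => by
      by_cases hj : j = 0
      · subst hj
        simp only [if_true, one_ne_zero, if_false]
        have h1 : σ (flipY 0 y) = -(σ y) := by
          funext i
          simp [σ, flipY_apply]
        rw [h1, hodd _ _ (hmem y)]
      · simp only [hj, if_false, if_true]
        have h1 : σ (flipY j y) = σ y := by
          funext i
          simp only [σ]
          rw [flipY_apply]
          rw [if_neg (fun h => hj h.symm)]
        rw [h1]) (List.finRange n) (by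
      refine cnt_tri 1 (fun _ j => if j = 0 then 1 else 0) (fun _ => 0) (fun x => by simp)
        (fun x j hj => by simp [hj.ne']) (List.finRange n) m (fun _ _ => one_pos) ?_ ?_
      · exact List.pairwise_of_forall (fun _ _ => le_rfl)
      · intro j hj
        have : j = 0 := by omega
        subst this
        simp [m])
  exact ⟨σ y, hmem y, fun i => hy i (List.mem_finRange i)⟩

open Pool.Agent.Helper55.Circ in
/-- Borsuk-Ulam on Euclidean space minus the origin. -/
theorem bu (n : ℕ) (f : Fin n → EuclideanSpace ℝ (Fin (n + 1)) → ℝ)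
    (hf : ∀ i, ContinuousOn (f i) {x | x ≠ 0})
    (hodd : ∀ i, ∀ x, x ≠ 0 → f i (-x) = - f i x) : ∃ x, x ≠ 0 ∧ ∀ i, f i x = 0 := by
  let L : (ℕ → ℝ) → EuclideanSpace ℝ (Fin (n + 1)) := fun y => WithLp.toLp 2 fun i => y i
  have hL : Continuous L := by
    refine (PiLp.continuous_toLp 2 _).comp ?_
    exact continuous_pi fun i => continuous_apply _
  have hLapp : ∀ y i, L y i = y i := fun y i => rfl
  have hne : ∀ y ∈ Dset n, L y ≠ 0 := by
    rintro y ⟨i, hi, hy⟩ h
    apply hy
    have := congrArg (fun z : EuclideanSpace ℝ (Fin (n + 1)) => z ⟨i, by omega⟩) h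
    simpa [hLapp] using this
  have hneg : ∀ y, L (-y) = - L y := fun y => rfl
  obtain ⟨y, hy, h⟩ := bu_seq n (fun i y => f i (L y))
    (fun i => (hf i).comp hL.continuousOn hne)
    (fun i y hy => by
      show f i (L (-y)) = - f i (L y)
      rw [hneg, hodd i _ (hne y hy)])
  exact ⟨L y, hne y hy, h⟩

/-- T0b: no nonempty open set of `ℝ³` injects continuously into `ℝ²`. -/
theorem no_inj (U : Set (EuclideanSpace ℝ (Fin 3))) (hU : IsOpen U) (hne : U.Nonempty)
    (f : EuclideanSpace ℝ (Fin 3) → EuclideanSpace ℝ (Fin 2)) (hf : ContinuousOn f U) :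
    ¬ Set.InjOn f U := by
  intro hinj
  obtain ⟨x, hx⟩ := hne
  obtain ⟨r, hr, hrU⟩ := Metric.isOpen_iff.1 hU x hx
  let n : EuclideanSpace ℝ (Fin 3) → EuclideanSpace ℝ (Fin 3) := fun u => (r / 2 * ‖u‖⁻¹) • u
  have hn : ∀ u, u ≠ 0 → ‖n u‖ = r / 2 := by
    intro u hu
    have h0 : ‖u‖ ≠ 0 := norm_ne_zero_iff.2 hu
    simp only [n, norm_smul, Real.norm_eq_abs]
    rw [abs_of_nonneg (by positivity)]
    field_simp
  have hnc : ContinuousOn n {u | u ≠ 0} := by
    have h0 : ContinuousOn (fun u : EuclideanSpace ℝ (Fin 3) => ‖u‖⁻¹) {u | u ≠ 0} :=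
      ContinuousOn.inv₀ (continuous_norm.continuousOn) fun u hu => norm_ne_zero_iff.2 hu
    exact (continuousOn_const.mul h0).smul continuousOn_id
  have hnn : ∀ u, n (-u) = - n u := fun u => by simp [n]
  have hm1 : ∀ u, u ≠ 0 → x + n u ∈ U := fun u hu => hrU (by
    rw [Metric.mem_ball, dist_eq_norm, add_sub_cancel_left, hn u hu]; linarith)
  have hm2 : ∀ u, u ≠ 0 → x - n u ∈ U := fun u hu => hrU (by
    rw [Metric.mem_ball, dist_eq_norm, sub_sub_cancel_left, norm_neg, hn u hu]; linarith)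
  have hc1 : ContinuousOn (fun u => f (x + n u)) {u | u ≠ 0} :=
    hf.comp (continuousOn_const.add hnc) hm1
  have hc2 : ContinuousOn (fun u => f (x - n u)) {u | u ≠ 0} :=
    hf.comp (continuousOn_const.sub hnc) hm2
  obtain ⟨u, hu, h⟩ := bu 2 (fun i u => f (x + n u) i - f (x - n u) i)
    (fun i => by
      have e : Continuous fun z : EuclideanSpace ℝ (Fin 2) => z i :=
        (continuous_apply i).comp (PiLp.continuous_ofLp 2 _)
      exact (e.comp_continuousOn hc1).sub (e.comp_continuousOn hc2))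
    (fun i u hu => by
      show f (x + n (-u)) i - f (x - n (-u)) i = - (f (x + n u) i - f (x - n u) i)
      rw [hnn, sub_neg_eq_add, ← sub_eq_add_neg]
      ring)
  have h1 : f (x + n u) = f (x - n u) := by
    ext i
    exact sub_eq_zero.1 (h i)
  have h2 := hinj (hm1 u hu) (hm2 u hu) h1
  have h3 : n u = 0 := by
    have h4 : (2 : ℝ) • n u = 0 := by
      rw [two_smul]
      have := sub_eq_zero.2 h2
      rwa [add_sub_sub_cancel] at this
    exact (smul_eq_zero.1 h4).resolve_left two_ne_zero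
  have h4 := hn u hu
  rw [h3, norm_zero] at h4
  linarith

open Pool.Agent.Helper55.Circ in
/-- No retraction of the ball onto the sphere. -/
theorem no_retract (n : ℕ)
    (g : EuclideanSpace ℝ (Fin (n + 1)) → EuclideanSpace ℝ (Fin (n + 1)))
    (hg : ContinuousOn g (Metric.closedBall 0 1)) (h1 : ∀ x, ‖x‖ = 1 → g x = x) :
    ∃ x ∈ Metric.closedBall (0 : EuclideanSpace ℝ (Fin (n + 1))) 1, g x = 0 := by
  let L : (ℕ → ℝ) → EuclideanSpace ℝ (Fin (n + 1)) := fun y => WithLp.toLp 2 fun i => y i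
  have hL : Continuous L := by
    refine (PiLp.continuous_toLp 2 _).comp ?_
    exact continuous_pi fun i => continuous_apply _
  have hLapp : ∀ y i, L y i = y i := fun y i => rfl
  have hLneg : ∀ y, L (-y) = - L y := fun y => rfl
  let N : (ℕ → ℝ) → ℝ := fun y => max ‖L y‖ |y (n + 1)|
  have hN : Continuous N := (hL.norm).max (continuous_apply (n + 1)).abs
  have hNneg : ∀ y, N (-y) = N y := fun y => by simp [N, hLneg]
  have hNpos : ∀ y ∈ Dset (n + 1), 0 < N y := by
    rintro y ⟨i, hi, hy⟩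
    by_cases h : i = n + 1
    · subst h
      exact lt_max_of_lt_right (abs_pos.2 hy)
    · refine lt_max_of_lt_left (norm_pos_iff.2 fun h0 => hy ?_)
      have := congrArg (fun z : EuclideanSpace ℝ (Fin (n + 1)) => z ⟨i, by omega⟩) h0
      simpa [hLapp] using this
  let B : (ℕ → ℝ) → EuclideanSpace ℝ (Fin (n + 1)) := fun y => (N y)⁻¹ • L y
  have hB : ContinuousOn B (Dset (n + 1)) :=
    (hN.continuousOn.inv₀ fun y hy => (hNpos y hy).ne').smul hL.continuousOn
  have hBneg : ∀ y, B (-y) = - B y := fun y => by simp [B, hNneg, hLneg]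
  have hBmem : ∀ y ∈ Dset (n + 1), B y ∈ Metric.closedBall (0 : EuclideanSpace ℝ (Fin (n + 1))) 1 := by
    intro y hy
    rw [mem_closedBall_zero_iff]
    simp only [B, norm_smul, norm_inv, Real.norm_eq_abs, abs_of_pos (hNpos y hy)]
    rw [inv_mul_le_iff₀ (hNpos y hy), mul_one]
    exact le_max_left _ _
  have hBnorm : ∀ y ∈ Dset (n + 1), y (n + 1) = 0 → ‖B y‖ = 1 := by
    intro y hy h0
    have h2 := hNpos y hy
    have h3 : N y = ‖L y‖ := by
      simp only [N, h0, abs_zero]
      exact max_eq_left (norm_nonneg _)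
    simp only [B, norm_smul, norm_inv, Real.norm_eq_abs, abs_of_pos h2]
    rw [h3] at h2 ⊢
    exact inv_mul_cancel₀ h2.ne'
  have hDneg : ∀ y : ℕ → ℝ, y ∈ Dset (n + 1) → -y ∈ Dset (n + 1) := by
    rintro y ⟨i, hi, hy⟩
    exact ⟨i, hi, by simpa using hy⟩
  let h : (ℕ → ℝ) → EuclideanSpace ℝ (Fin (n + 1)) := fun y =>
    if 0 ≤ y (n + 1) then g (B y) else - g (B (-y))
  have hzero : ∀ y ∈ Dset (n + 1), y (n + 1) = 0 → g (B y) = B y ∧ - g (B (-y)) = B y := by
    intro y hy h0
    have h2 := hBnorm y hy h0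
    refine ⟨h1 _ h2, ?_⟩
    rw [h1 _ (by rw [hBneg, norm_neg, h2]), hBneg, neg_neg]
  have hgB : ContinuousOn (fun y => g (B y)) (Dset (n + 1)) := hg.comp hB hBmem
  have hcont : ContinuousOn h (Dset (n + 1)) := by
    refine ContinuousOn.if (fun y hy => ?_) (hgB.mono inter_subset_left) ?_
    · obtain ⟨hy1, hy2⟩ := hy
      have h0 : y (n + 1) = 0 :=
        (frontier_le_subset_eq continuous_const (continuous_apply (n + 1)) hy2).symm
      obtain ⟨h2, h3⟩ := hzero y hy1 h0
      rw [h2, h3]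
    · refine ContinuousOn.mono ?_ inter_subset_left
      exact (hgB.comp continuous_neg.continuousOn hDneg).neg
  have hodd : ∀ y ∈ Dset (n + 1), h (-y) = - h y := by
    intro y hy
    rcases lt_trichotomy (y (n + 1)) 0 with h' | h' | h'
    · have h2 : 0 ≤ (-y) (n + 1) := by simp only [Pi.neg_apply]; linarith
      simp only [h, if_pos h2, if_neg (not_le.2 h'), neg_neg]
    · obtain ⟨h2, h3⟩ := hzero y hy h'
      have h5 : 0 ≤ (-y) (n + 1) := by simp [h']
      simp only [h, if_pos h5, if_pos h'.ge, h2]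
      rw [← h3, neg_neg]
    · have h2 : ¬ 0 ≤ (-y) (n + 1) := by simp only [Pi.neg_apply]; linarith
      simp only [h, if_neg h2, if_pos h'.le, neg_neg]
  have happ : ∀ i : Fin (n + 1), Continuous fun z : EuclideanSpace ℝ (Fin (n + 1)) => z i :=
    fun i => (continuous_apply i).comp (PiLp.continuous_ofLp 2 _)
  obtain ⟨y, hy, hh⟩ := bu_seq (n + 1) (fun i y => h y i)
    (fun i => (happ i).comp_continuousOn hcont)
    (fun i y hy => by
      show h (-y) i = - h y i
      rw [hodd y hy]; rfl)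
  have h0 : h y = 0 := by
    ext i
    exact hh i
  by_cases hpos : 0 ≤ y (n + 1)
  · refine ⟨B y, hBmem y hy, ?_⟩
    simpa only [h, if_pos hpos] using h0
  · refine ⟨B (-y), hBmem (-y) (hDneg y hy), ?_⟩
    simp only [h, if_neg hpos] at h0
    exact neg_eq_zero.1 h0

/-- T0a: an open set of `ℝ⁴` is not homeomorphic to an open set of the half space containing a
boundary point. -/
theorem no_half (U : Set (EuclideanSpace ℝ (Fin 4))) (hU : IsOpen U)
    (N : Set (EuclideanSpace ℝ (Fin 4))) (hN : IsOpen N) (q : EuclideanSpace ℝ (Fin 4))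
    (hq : q ∈ N) (hq0 : q 0 = 0) :
    IsEmpty (U ≃ₜ (N ∩ {x | 0 ≤ x 0} : Set (EuclideanSpace ℝ (Fin 4)))) := by
  classical
  refine ⟨fun φ => ?_⟩
  set H : Set (EuclideanSpace ℝ (Fin 4)) := {x | 0 ≤ x 0} with hH
  have hqH : q ∈ N ∩ H := ⟨hq, hq0.ge⟩
  let p : U := φ.symm ⟨q, hqH⟩
  -- extensions of the two maps
  let f : EuclideanSpace ℝ (Fin 4) → EuclideanSpace ℝ (Fin 4) := fun x =>
    if h : x ∈ U then (φ ⟨x, h⟩ : EuclideanSpace ℝ (Fin 4)) else 0
  let ψ : EuclideanSpace ℝ (Fin 4) → EuclideanSpace ℝ (Fin 4) := fun y =>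
    if h : y ∈ N ∩ H then (φ.symm ⟨y, h⟩ : EuclideanSpace ℝ (Fin 4)) else 0
  have hf : ContinuousOn f U := by
    rw [continuousOn_iff_continuous_domRestrict]
    have : U.domRestrict f = fun x : U => (φ x : EuclideanSpace ℝ (Fin 4)) := by
      funext x
      simp only [Set.domRestrict_apply, f]
      rw [dif_pos x.2]
    rw [this]
    exact continuous_subtype_val.comp φ.continuous
  have hψ : ContinuousOn ψ (N ∩ H) := by
    rw [continuousOn_iff_continuous_domRestrict]
    have : (N ∩ H).domRestrict ψ = fun x : (N ∩ H : Set _) => (φ.symm x : EuclideanSpace ℝ (Fin 4)) := by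
      funext x
      simp only [Set.domRestrict_apply, ψ]
      rw [dif_pos x.2]
    rw [this]
    exact continuous_subtype_val.comp φ.symm.continuous
  have hfmem : ∀ x ∈ U, f x ∈ N ∩ H := fun x hx => by
    simp only [f, dif_pos hx]
    exact (φ ⟨x, hx⟩).2
  have hψf : ∀ x ∈ U, ψ (f x) = x := fun x hx => by
    simp only [f, ψ, dif_pos hx]
    rw [dif_pos (φ ⟨x, hx⟩).2]
    simp
  have hfψ : ∀ y ∈ N ∩ H, f (ψ y) = y := fun y hy => by
    simp only [f, ψ, dif_pos hy]
    rw [dif_pos (φ.symm ⟨y, hy⟩).2]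
    simp
  have hψq : ψ q = p := by
    simp only [ψ, dif_pos hqH, p]
  have hfp : f p = q := by rw [← hψq]; exact hfψ q hqH
  -- a small half ball
  obtain ⟨r', hr', hrN⟩ := Metric.isOpen_iff.1 hN q hq
  obtain ⟨r, hr, hrr⟩ : ∃ r, 0 < r ∧ Metric.closedBall q r ⊆ N :=
    ⟨r' / 2, by positivity, fun x hx => hrN (lt_of_le_of_lt (Metric.mem_closedBall.1 hx)
      (by linarith))⟩
  obtain ⟨P, hP⟩ : ∃ P : EuclideanSpace ℝ (Fin 4), P = (p : EuclideanSpace ℝ (Fin 4)) := ⟨_, rfl⟩
  have hPU : P ∈ U := hP ▸ p.2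
  rw [← hP] at hψq hfp
  obtain ⟨e, he, heU⟩ : ∃ e, 0 < e ∧ ∀ x, dist x P ≤ e → x ∈ U ∧ dist (f x) q ≤ r := by
    have hc : ContinuousAt f P := hf.continuousAt (hU.mem_nhds hPU)
    have h1 : ∀ᶠ x in 𝓝 P, x ∈ U := hU.mem_nhds hPU
    have h1' : ∀ᶠ x in 𝓝 P, dist (f x) (f P) < r := Metric.continuousAt_iff'.1 hc r hr
    rw [hfp] at h1'
    obtain ⟨e, he, h3⟩ := Metric.eventually_nhds_iff.1 (h1.and h1')
    refine ⟨e / 2, by positivity, fun x hx => ?_⟩
    have := h3 (lt_of_le_of_lt hx (by linarith))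
    exact ⟨this.1, this.2.le⟩
  let u : EuclideanSpace ℝ (Fin 4) → EuclideanSpace ℝ (Fin 4) := fun x => P + (e * ‖x‖⁻¹) • x
  have hu : ∀ x, x ≠ 0 → dist (u x) P ≤ e := by
    intro x hx
    have h0 : ‖x‖ ≠ 0 := norm_ne_zero_iff.2 hx
    have h2 : 0 < ‖x‖ := norm_pos_iff.2 hx
    rw [dist_eq_norm, add_sub_cancel_left, norm_smul, Real.norm_eq_abs,
      abs_of_nonneg (by positivity)]
    rw [mul_assoc, inv_mul_cancel₀ h0, mul_one]
  let B : EuclideanSpace ℝ (Fin 4) → EuclideanSpace ℝ (Fin 4) := fun x => ‖x‖ • (f (u x) - q)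
  have hBn : ∀ x, ‖B x‖ ≤ ‖x‖ * r := by
    intro x
    by_cases hx : x = 0
    · simp [B, hx]
    · simp only [B, norm_smul, norm_norm]
      refine mul_le_mul_of_nonneg_left ?_ (norm_nonneg _)
      rw [← dist_eq_norm]
      exact (heU _ (hu x hx)).2
  have hB : Continuous B := by
    rw [continuous_iff_continuousAt]
    intro x
    by_cases hx : x = 0
    · subst hx
      have hB0 : B 0 = 0 := by simp [B]
      rw [ContinuousAt, hB0]
      refine squeeze_zero_norm hBn ?_
      have : Continuous fun x : EuclideanSpace ℝ (Fin 4) => ‖x‖ * r := by fun_prop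
      have h2 := this.tendsto 0
      simpa using h2
    · have hc1 : ContinuousAt u x := by
        have h0 : ‖x‖ ≠ 0 := norm_ne_zero_iff.2 hx
        have h1 : ContinuousAt (fun x : EuclideanSpace ℝ (Fin 4) => ‖x‖⁻¹) x :=
          continuous_norm.continuousAt.inv₀ h0
        exact continuousAt_const.add ((continuousAt_const.mul h1).smul continuousAt_id)
      have hc2 : ContinuousAt f (u x) := hf.continuousAt (hU.mem_nhds (heU _ (hu x hx)).1)
      have hc3 : ContinuousAt (fun x => f (u x)) x := ContinuousAt.comp hc2 hc1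
      exact continuous_norm.continuousAt.smul (hc3.sub continuousAt_const)
  let E : EuclideanSpace ℝ (Fin 4) := EuclideanSpace.single 0 1
  have hEn : ‖E‖ = 1 := by simp [E]
  have hE0 : E 0 = 1 := by simp [E]
  let A : EuclideanSpace ℝ (Fin 4) → EuclideanSpace ℝ (Fin 4) := fun x =>
    q + (B x + ((1 - ‖x‖) * r) • E)
  have hA : Continuous A := by
    have h1 : Continuous fun x : EuclideanSpace ℝ (Fin 4) => (1 - ‖x‖) * r := by fun_prop
    exact continuous_const.add (hB.add (h1.smul continuous_const))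
  have hA0 : ∀ x, ‖x‖ ≤ 1 → (1 - ‖x‖) * r ≤ A x 0 := by
    intro x hx
    have h1 : A x 0 = q 0 + (‖x‖ * (f (u x) 0 - q 0) + (1 - ‖x‖) * r * E 0) := rfl
    rw [h1, hq0, hE0, sub_zero, zero_add, mul_one]
    by_cases hx0 : x = 0
    · simp [hx0]
    · have h2 : 0 ≤ f (u x) 0 := (hfmem _ (heU _ (hu x hx0)).1).2
      have h3 : 0 ≤ ‖x‖ * f (u x) 0 := mul_nonneg (norm_nonneg _) h2
      linarith
  have hAmem : ∀ x, ‖x‖ ≤ 1 → A x ∈ N ∩ H := by
    intro x hx
    refine ⟨hrr ?_, ?_⟩
    · rw [Metric.mem_closedBall, dist_eq_norm, add_sub_cancel_left]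
      refine (norm_add_le _ _).trans ?_
      have h1 : ‖((1 - ‖x‖) * r) • E‖ = (1 - ‖x‖) * r := by
        rw [norm_smul, hEn, mul_one, Real.norm_eq_abs,
          abs_of_nonneg (mul_nonneg (by linarith) hr.le)]
      rw [h1]
      have := hBn x
      nlinarith
    · exact le_trans (mul_nonneg (by linarith) hr.le) (hA0 x hx)
  let g : EuclideanSpace ℝ (Fin 4) → EuclideanSpace ℝ (Fin 4) := fun x => e⁻¹ • (ψ (A x) - P)
  have hgc : ContinuousOn g (Metric.closedBall 0 1) := by
    have h1 : ContinuousOn (fun x => ψ (A x)) (Metric.closedBall 0 1) :=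
      hψ.comp hA.continuousOn fun x hx => hAmem x (mem_closedBall_zero_iff.1 hx)
    exact (h1.sub continuousOn_const).const_smul e⁻¹
  have hg1 : ∀ x, ‖x‖ = 1 → g x = x := by
    intro x hx
    have hx0 : x ≠ 0 := by
      rintro rfl
      simp at hx
    have h1 : A x = f (u x) := by
      simp only [A, B, hx, sub_self, zero_mul, zero_smul, add_zero, one_smul]
      rw [add_sub_cancel]
    have h2 : ψ (A x) = u x := by
      rw [h1]
      exact hψf _ (heU _ (hu x hx0)).1
    simp only [g, h2, u, hx, inv_one, mul_one, add_sub_cancel_left, smul_smul]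
    rw [inv_mul_cancel₀ he.ne', one_smul]
  obtain ⟨x, hx, hgx⟩ := no_retract 3 g hgc hg1
  rw [mem_closedBall_zero_iff] at hx
  have h1 : ψ (A x) = P := by
    rcases smul_eq_zero.1 hgx with h | h
    · exact absurd h (inv_ne_zero he.ne')
    · exact sub_eq_zero.1 h
  have h2 : A x = q := by
    rw [← hfψ _ (hAmem x hx), h1, hfp]
  have h3 := hA0 x hx
  rw [h2, hq0] at h3
  have h4 : ‖x‖ = 1 := by
    by_contra hne
    have h5 : 0 < 1 - ‖x‖ := by
      have := lt_of_le_of_ne hx hne
      linarith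
    have := mul_pos h5 hr
    linarith
  rw [hg1 x h4] at hgx
  rw [hgx, norm_zero] at h4
  exact zero_ne_one h4

end Pool.Agent.Helper26.LC
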