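import Mathlib

namespace Pool.Agent.Helper95.AlgConnect

open Polynomial

/-- A homomorphism onto an algebraically closed field extends along an integral extension, with any
given prime over the kernel as its kernel. -/
theorem exists_extend {κ : Type*} [Field κ] [IsAlgClosed κ] {T S : Type*} [CommRing T] [CommRing S]
    [Algebra T S] [Algebra.IsIntegral T S] (θ : T →+* κ) (hθ : Function.Surjective θ)
    (Q : Ideal S) [Q.IsPrime] (hQ : Q.comap (algebraMap T S) = RingHom.ker θ) :
    ∃ ψ : S →+* κ, RingHom.ker ψ = Q ∧ ∀ t, ψ (algebraMap T S t) = θ t := by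
  let f : T →+* S ⧸ Q := (Ideal.Quotient.mk Q).comp (algebraMap T S)
  have hker : RingHom.ker θ ≤ RingHom.ker f := by
    intro t ht
    rw [← hQ] at ht
    exact Ideal.Quotient.eq_zero_iff_mem.mpr ht
  let j : κ →+* S ⧸ Q := RingHom.liftOfSurjective θ hθ ⟨f, hker⟩
  have hj' : j.comp θ = f := RingHom.liftOfSurjective_comp θ hθ ⟨f, hker⟩
  have hj : ∀ t, j (θ t) = f t := fun t => by
    rw [← hj']; rfl
  have hf : f.IsIntegral := by
    apply RingHom.IsIntegral.trans
    · exact fun x => Algebra.IsIntegral.isIntegral x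
    · exact RingHom.isIntegral_of_surjective _ Ideal.Quotient.mk_surjective
  have hint : j.IsIntegral := by
    rw [← hj'] at hf
    exact RingHom.IsIntegral.tower_top _ _ hf
  have hb := IsAlgClosed.ringHom_bijective_of_isIntegral j hint
  let e := RingEquiv.ofBijective j hb
  refine ⟨(e.symm : S ⧸ Q →+* κ).comp (Ideal.Quotient.mk Q), ?_, ?_⟩
  · ext x
    simp [RingHom.mem_ker, Ideal.Quotient.eq_zero_iff_mem]
  · intro t
    have h1 : e (θ t) = f t := hj t
    change e.symm (f t) = θ t
    rw [← h1]; simp

theorem exists_extend' {κ : Type*} [Field κ] [IsAlgClosed κ] {T S : Type*} [CommRing T] [CommRing S]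
    [Algebra T S] [Algebra.IsIntegral T S] (θ : T →+* κ) (hθ : Function.Surjective θ)
    (hinj : Function.Injective (algebraMap T S)) :
    ∃ ψ : S →+* κ, ∀ t, ψ (algebraMap T S t) = θ t := by
  have hp : (RingHom.ker θ).IsPrime := RingHom.ker_isPrime θ
  obtain ⟨Q, -, hQ, hQ'⟩ := Ideal.exists_ideal_over_prime_of_isIntegral (S := S)
    (RingHom.ker θ) ⊥ (by
      rw [← RingHom.ker_eq_comap_bot, (RingHom.injective_iff_ker_eq_bot _).mp hinj]
      exact bot_le)
  obtain ⟨ψ, -, h⟩ := exists_extend θ hθ Q hQ'
  exact ⟨ψ, h⟩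

theorem exists_exp_factor {κ : Type*} [Field κ] (q : ℕ) [ExpChar κ q] (d : ℕ) (hd : 0 < d) :
    ∃ e d' : ℕ, d = q ^ e * d' ∧ (d' : κ) ≠ 0 ∧ e ≤ d := by
  rcases ‹ExpChar κ q› with _ | ⟨hq⟩
  · exact ⟨0, d, by simp, by exact_mod_cast hd.ne', Nat.zero_le _⟩
  · obtain ⟨e, d', h1, h2⟩ := Nat.exists_eq_pow_mul_and_not_dvd hd.ne' q hq.ne_one
    refine ⟨e, d', h2, ?_, ?_⟩
    · intro h
      exact h1 ((CharP.cast_eq_zero_iff κ q d').mp h)
    · have h3 : e < q ^ e := Nat.lt_pow_self hq.one_lt
      have h4 : 0 < d' := Nat.pos_of_ne_zero (by rintro rfl; simp at h1)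
      calc e ≤ q ^ e * 1 := by omega
        _ ≤ q ^ e * d' := Nat.mul_le_mul_left _ h4
        _ = d := h2.symm

theorem curve_lemma {κ : Type*} [Field κ] [IsAlgClosed κ] (q : ℕ) [ExpChar κ q] {S : Type*}
    [CommRing S] [IsDomain S] [Algebra κ[X] S] [Algebra.IsIntegral κ[X] S]
    (hinj : Function.Injective (algebraMap κ[X] S)) (w : S) (φ : κ → κ)
    (hφ : ∀ (s : κ) (ψ : S →+* κ), (∀ f : κ[X], ψ (algebraMap κ[X] S f) = f.eval s) → ψ w = φ s)
    (M : κ[X][X]) (hM : M.Monic) (hMw : aeval w M = 0) :
    ∃ e : ℕ, e ≤ M.natDegree ∧ ∃ P : κ[X], ∀ s, P.eval s = φ s ^ q ^ e := by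
  have hw : IsIntegral κ[X] w := Algebra.IsIntegral.isIntegral w
  have : FaithfulSMul κ[X] S := (faithfulSMul_iff_algebraMap_injective _ _).mpr hinj
  set μ := minpoly κ[X] w with hμ
  have hμm : μ.Monic := minpoly.monic hw
  have hdiv : μ ∣ M := minpoly.isIntegrallyClosed_dvd hw hMw
  have hle : μ.natDegree ≤ M.natDegree := natDegree_le_of_dvd hdiv hM.ne_zero
  have hpos : 0 < μ.natDegree := minpoly.natDegree_pos hw
  obtain ⟨e, d', hd, hd', hed⟩ := exists_exp_factor (κ := κ) q μ.natDegree hpos
  have hd'0 : 0 < d' := Nat.pos_of_ne_zero (by rintro rfl; simp at hd')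
  have hq0 : 0 < q ^ e := Nat.pos_of_ne_zero (by
    intro h; rw [h, zero_mul] at hd; omega)
  refine ⟨e, ?_, C (-(d' : κ)⁻¹) * μ.coeff (q ^ e * (d' - 1)), ?_⟩
  · exact hed.trans hle
  · intro s
    -- roots of the specialised minimal polynomial
    have hroot : ∀ c : κ, (μ.map (evalRingHom s)).IsRoot c → c = φ s := by
      intro c hc
      -- the homomorphism from the adjunction
      let θ₀ : AdjoinRoot μ →+* κ := AdjoinRoot.lift (evalRingHom s) c (by
        rw [IsRoot.def, eval_map] at hc; exact hc)
      let E := minpoly.equivAdjoin hw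
      let θ : Algebra.adjoin κ[X] ({w} : Set S) →+* κ := θ₀.comp (E.symm : _ →+* _)
      have hθC : ∀ f : κ[X], θ (algebraMap _ _ f) = f.eval s := by
        intro f
        have : E.symm (algebraMap κ[X] (Algebra.adjoin κ[X] ({w} : Set S)) f) =
            algebraMap κ[X] (AdjoinRoot μ) f := E.symm.commutes f
        change θ₀ (E.symm (algebraMap κ[X] (Algebra.adjoin κ[X] ({w} : Set S)) f)) = _
        rw [this]
        change θ₀ (AdjoinRoot.of μ f) = _
        rw [AdjoinRoot.lift_of]
        rfl
      have hθw : θ ⟨w, Algebra.subset_adjoin (Set.mem_singleton w)⟩ = c := by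
        have : E (AdjoinRoot.root μ) = ⟨w, Algebra.subset_adjoin (Set.mem_singleton w)⟩ := by
          rw [minpoly.coe_equivAdjoin]
          exact AdjoinRoot.liftAlgHom_root _ _ _ _
        rw [← this]
        change θ₀ (E.symm (E (AdjoinRoot.root μ))) = c
        rw [AlgEquiv.symm_apply_apply]
        exact AdjoinRoot.lift_root _
      have hθs : Function.Surjective θ := by
        intro x
        exact ⟨algebraMap _ _ (C x), by rw [hθC]; simp⟩
      have : Algebra.IsIntegral (Algebra.adjoin κ[X] ({w} : Set S)) S :=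
        Algebra.IsIntegral.tower_top (R := κ[X])
      obtain ⟨ψ, hψ⟩ := exists_extend' (S := S) θ hθs Subtype.val_injective
      have h1 : ψ w = φ s := by
        apply hφ
        intro f
        have := hψ (algebraMap κ[X] _ f)
        rw [hθC] at this
        rw [← this]
        rfl
      have h2 : ψ w = c := by
        have := hψ ⟨w, Algebra.subset_adjoin (Set.mem_singleton w)⟩
        rw [hθw] at this
        rw [← this]
        rfl
      rw [← h1, h2]
    have hms : (μ.map (evalRingHom s)).Monic := hμm.map _
    have hdeg : (μ.map (evalRingHom s)).natDegree = μ.natDegree := hμm.natDegree_map _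
    have hpow : μ.map (evalRingHom s) = (X - C (φ s)) ^ μ.natDegree := by
      have hsp := IsAlgClosed.splits (μ.map (evalRingHom s))
      have hr : (μ.map (evalRingHom s)).roots = Multiset.replicate μ.natDegree (φ s) := by
        rw [Multiset.eq_replicate]
        refine ⟨?_, ?_⟩
        · rw [← hdeg]
          exact (splits_iff_card_roots.mp hsp)
        · intro c hc
          exact hroot c (isRoot_of_mem_roots hc)
      have := hsp.eq_prod_roots_of_monic hms
      rw [this, hr]
      simp
    have hexp : μ.map (evalRingHom s) =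
        expand κ (q ^ e) ((X - C (φ s ^ q ^ e)) ^ d') := by
      rw [hpow, hd, pow_mul, map_pow]
      congr 1
      rw [map_sub, expand_X, expand_C, C_pow]
      have : ExpChar κ[X] q := expChar_of_injective_algebraMap (R := κ) (C_injective) q
      exact sub_pow_expChar_pow _ _ e
    have hco : (μ.coeff (q ^ e * (d' - 1))).eval s = -(φ s ^ q ^ e) * d' := by
      have h1 : (μ.map (evalRingHom s)).coeff (q ^ e * (d' - 1)) =
          (μ.coeff (q ^ e * (d' - 1))).eval s := by
        rw [coeff_map]; rfl
      rw [← h1, hexp, coeff_expand_mul' hq0, sub_eq_add_neg, ← C_neg, coeff_X_add_C_pow]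
      have h2 : d' - (d' - 1) = 1 := by omega
      have h3 : d'.choose (d' - 1) = d' := by
        obtain ⟨k, rfl⟩ := Nat.exists_eq_succ_of_ne_zero hd'0.ne'
        simp
      rw [h2, h3, pow_one]
    rw [eval_mul, eval_C, hco]
    field_simp

theorem deg_bound {κ : Type*} [Field κ] (M : κ[X][X]) (hM : M.Monic) (P : κ[X])
    (hP : M.eval P = 0) (D : ℕ) (hD : ∀ j, (M.coeff j).natDegree ≤ D) : P.natDegree ≤ D := by
  by_contra hlt
  push Not at hlt
  have hN : M.natDegree ≠ 0 := by
    intro h
    have h1 : M = 1 := hM.natDegree_eq_zero.mp h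
    rw [h1] at hP
    simp at hP
  obtain ⟨N, hN'⟩ := Nat.exists_eq_succ_of_ne_zero hN
  rw [eval_eq_sum_range, hN', Finset.sum_range_succ, ← Nat.succ_eq_add_one, ← hN',
    hM.coeff_natDegree, one_mul] at hP
  have h2 : P ^ M.natDegree = -∑ j ∈ Finset.range M.natDegree, M.coeff j * P ^ j := by
    linear_combination hP
  have h3 : (P ^ M.natDegree).natDegree = M.natDegree * P.natDegree := natDegree_pow _ _
  have h4 : (-∑ j ∈ Finset.range M.natDegree, M.coeff j * P ^ j).natDegree ≤
      D + N * P.natDegree := by
    rw [natDegree_neg]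
    apply natDegree_sum_le_of_forall_le
    intro j hj
    refine natDegree_mul_le.trans ?_
    refine add_le_add (hD j) ?_
    rw [natDegree_pow]
    exact Nat.mul_le_mul_right _ (by rw [hN'] at hj; exact Nat.lt_succ_iff.mp (Finset.mem_range.mp hj))
  rw [← h2, h3, hN'] at h4
  have h5 : (N + 1) * P.natDegree = N * P.natDegree + P.natDegree := by ring
  rw [Nat.succ_eq_add_one, h5] at h4
  omega

/-- A function on affine space over an infinite field which is a polynomial of bounded degree on
every coordinate line is a polynomial. -/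
theorem exists_polynomial_of_lines {κ : Type*} [Field κ] [Infinite κ] {n : ℕ} (D : ℕ)
    (f : (Fin n → κ) → κ)
    (hf : ∀ (i : Fin n) (p : Fin n → κ), ∃ P : κ[X], P.natDegree ≤ D ∧
      ∀ s, P.eval s = f (Function.update p i s)) :
    ∃ g : MvPolynomial (Fin n) κ, ∀ p, MvPolynomial.eval p g = f p := by
  classical
  let v : ℕ → κ := Infinite.natEmbedding κ
  have hv : Function.Injective v := (Infinite.natEmbedding κ).injective
  let T : Finset ℕ := Finset.range (D + 1)
  have key : ∀ S : Finset (Fin n), ∀ p : Fin n → κ, ∃ g : MvPolynomial (Fin n) κ,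
      ∀ p' : Fin n → κ, (∀ i ∉ S, p' i = p i) → MvPolynomial.eval p' g = f p' := by
    intro S
    induction S using Finset.induction_on with
    | empty =>
      intro p
      refine ⟨MvPolynomial.C (f p), ?_⟩
      intro p' hp'
      have : p' = p := funext fun i => hp' i (Finset.notMem_empty i)
      rw [this, MvPolynomial.eval_C]
    | insert i S hi ih =>
      intro p
      choose g hg using fun j : ℕ => ih (Function.update p i (v j))
      refine ⟨∑ j ∈ T, MvPolynomial.bind₁ (Function.update MvPolynomial.X i
        (MvPolynomial.C (v j))) (g j) *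
          aeval (MvPolynomial.X i : MvPolynomial (Fin n) κ) (Lagrange.basis T v j), ?_⟩
      intro p' hp'
      obtain ⟨P, hPD, hP⟩ := hf i p'
      have h1 : P = Lagrange.interpolate T v (fun j => P.eval (v j)) := by
        apply Lagrange.eq_interpolate hv.injOn
        rw [Finset.card_range]
        exact lt_of_le_of_lt (degree_le_of_natDegree_le hPD) (by exact_mod_cast Nat.lt_succ_self D)
      have h2 : f p' = P.eval (p' i) := by
        rw [hP, Function.update_eq_self]
      rw [h2, h1, Lagrange.interpolate_apply, eval_finsetSum, map_sum]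
      refine Finset.sum_congr rfl fun j hj => ?_
      rw [map_mul, eval_mul, eval_C]
      congr 1
      · rw [hP, ← hg j (Function.update p' i (v j)), MvPolynomial.eval, MvPolynomial.eval₂Hom_bind₁]
        · congr 2
          ext k
          by_cases hk : k = i
          · subst hk; simp
          · simp [Function.update_of_ne hk]
        · intro k hk
          by_cases hki : k = i
          · subst hki; simp
          · rw [Function.update_of_ne hki, Function.update_of_ne hki]
            exact hp' k (by simp [hki, hk])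
      · rw [aeval_def, Polynomial.hom_eval₂]
        have h3 : (MvPolynomial.eval p').comp (algebraMap κ (MvPolynomial (Fin n) κ)) =
            RingHom.id κ := by
          ext x; simp
        rw [h3, MvPolynomial.eval_X]
        rfl
  obtain ⟨g, hg⟩ := key Finset.univ 0
  exact ⟨g, fun p => hg p (fun i hi => absurd (Finset.mem_univ i) hi)⟩

end Pool.Agent.Helper95.AlgConnect
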