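import Pool.Agent.Helper95.AlgConnectA

namespace Pool.Agent.Helper95.AlgConnect

open Polynomial

/-- the coordinate line through `p` in direction `i` -/
noncomputable def line {κ : Type} [Field κ] {n : ℕ} (i : Fin n) (p : Fin n → κ) :
    MvPolynomial (Fin n) κ →ₐ[κ] κ[X] :=
  MvPolynomial.aeval (Function.update (fun j => C (p j)) i X)

section line
variable {κ : Type} [Field κ] {n : ℕ}

theorem line_eval (i : Fin n) (p : Fin n → κ) (s : κ) (a : MvPolynomial (Fin n) κ) :
    (line i p a).eval s = MvPolynomial.eval (Function.update p i s) a := by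
  have h : (Polynomial.aeval s : κ[X] →ₐ[κ] κ).comp (line i p) =
      MvPolynomial.aeval (Function.update p i s) := by
    apply MvPolynomial.algHom_ext
    intro j
    by_cases hj : j = i
    · subst hj; simp [line]
    · simp [line, Function.update_of_ne hj]
  have := congrArg (fun φ => φ a) h
  simpa [MvPolynomial.aeval_eq_eval, Polynomial.coe_aeval_eq_eval] using this

theorem line_section (i : Fin n) (p : Fin n → κ) (f : κ[X]) :
    line i p (aeval (MvPolynomial.X i : MvPolynomial (Fin n) κ) f) = f := by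
  have h : (line i p).comp (aeval (MvPolynomial.X i : MvPolynomial (Fin n) κ)) =
      AlgHom.id κ κ[X] := by
    ext
    simp [line]
  exact congrArg (fun φ => φ f) h

theorem ker_line_le (i : Fin n) (p : Fin n → κ) (s : κ) :
    RingHom.ker (line i p) ≤ RingHom.ker (MvPolynomial.eval (Function.update p i s)) := by
  intro a ha
  rw [RingHom.mem_ker] at ha ⊢
  rw [← line_eval, ha, eval_zero]

end line

section points

variable {κ : Type} [Field κ] {n : ℕ} {R' : Type} [CommRing R']
  [Algebra κ R'] [Algebra (MvPolynomial (Fin n) κ) R']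

/-- coordinates of the image of a point -/
noncomputable def pt (u : R' →ₐ[κ] κ) : Fin n → κ :=
  fun i => u (algebraMap (MvPolynomial (Fin n) κ) R' (MvPolynomial.X i))

variable [IsScalarTower κ (MvPolynomial (Fin n) κ) R']

theorem pt_eval (u : R' →ₐ[κ] κ) (a : MvPolynomial (Fin n) κ) :
    u (algebraMap (MvPolynomial (Fin n) κ) R' a) = MvPolynomial.eval (pt u) a := by
  have h : u.comp (IsScalarTower.toAlgHom κ (MvPolynomial (Fin n) κ) R') =
      MvPolynomial.aeval (pt u) := by
    apply MvPolynomial.algHom_ext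
    intro j
    simp [pt]
  have := congrArg (fun φ => φ a) h
  simpa [MvPolynomial.aeval_eq_eval] using this

theorem exists_alg (ψ : R' →+* κ) (p : Fin n → κ)
    (h : ∀ a : MvPolynomial (Fin n) κ, ψ (algebraMap _ R' a) = MvPolynomial.eval p a) :
    ∃ u : R' →ₐ[κ] κ, (∀ x, u x = ψ x) ∧ pt u = p := by
  refine ⟨⟨ψ, ?_⟩, fun x => rfl, ?_⟩
  · intro c
    change ψ (algebraMap κ R' c) = c
    rw [IsScalarTower.algebraMap_apply κ (MvPolynomial (Fin n) κ) R', h]
    simp
  · ext i
    change ψ (algebraMap _ R' (MvPolynomial.X i)) = _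
    rw [h]; simp

theorem comap_ker (u : R' →ₐ[κ] κ) :
    (RingHom.ker u).comap (algebraMap (MvPolynomial (Fin n) κ) R') =
      RingHom.ker (MvPolynomial.eval (pt (n := n) u)) := by
  ext a
  rw [Ideal.mem_comap, RingHom.mem_ker, RingHom.mem_ker, pt_eval]

theorem eval_surj (p : Fin n → κ) : Function.Surjective (MvPolynomial.eval p) := fun c =>
  ⟨MvPolynomial.C c, MvPolynomial.eval_C c⟩

theorem lift_line [IsAlgClosed κ] [Algebra.IsIntegral (MvPolynomial (Fin n) κ) R']
    (i : Fin n) (p : Fin n → κ) (𝔮 : Ideal R') [𝔮.IsPrime]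
    (h𝔮 : 𝔮.comap (algebraMap (MvPolynomial (Fin n) κ) R') = RingHom.ker (line i p)) (s : κ) :
    ∃ u : R' →ₐ[κ] κ, 𝔮 ≤ RingHom.ker u ∧ pt u = Function.update p i s := by
  have hp : (RingHom.ker (MvPolynomial.eval (Function.update p i s))).IsPrime :=
    RingHom.ker_isPrime _
  obtain ⟨Q, hQ𝔮, hQ, hQ'⟩ := Ideal.exists_ideal_over_prime_of_isIntegral (S := R')
    (RingHom.ker (MvPolynomial.eval (Function.update p i s))) 𝔮 (by
      rw [h𝔮]; exact ker_line_le i p s)
  obtain ⟨ψ, hψ1, hψ2⟩ := exists_extend _ (eval_surj _) Q hQ'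
  obtain ⟨u, hu, hpt⟩ := exists_alg ψ _ hψ2
  refine ⟨u, ?_, hpt⟩
  intro x hx
  have : x ∈ RingHom.ker ψ := by rw [hψ1]; exact hQ𝔮 hx
  rw [RingHom.mem_ker] at this ⊢
  rw [hu, this]

end points

section group

variable {κ : Type} [Field κ] {n : ℕ} {R' : Type} [CommRing R']
  [Algebra κ R'] [Algebra (MvPolynomial (Fin n) κ) R']
  [IsScalarTower κ (MvPolynomial (Fin n) κ) R']
  {G : Type} [Group G] [MulSemiringAction G R'] [SMulCommClass G (MvPolynomial (Fin n) κ) R']

include n in
theorem smul_const (g : G) (c : κ) : g • algebraMap κ R' c = algebraMap κ R' c := by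
  rw [IsScalarTower.algebraMap_apply κ (MvPolynomial (Fin n) κ) R', smul_algebraMap]

/-- right action on points -/
noncomputable def act (n : ℕ) [Algebra (MvPolynomial (Fin n) κ) R']
    [IsScalarTower κ (MvPolynomial (Fin n) κ) R'] [SMulCommClass G (MvPolynomial (Fin n) κ) R']
    (g : G) (u : R' →ₐ[κ] κ) : R' →ₐ[κ] κ :=
  { (u : R' →+* κ).comp (MulSemiringAction.toRingHom G R' g) with
    commutes' := fun c => by
      change u (g • algebraMap κ R' c) = c
      rw [smul_const (n := n)]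
      exact u.commutes c }

@[simp] theorem act_apply (g : G) (u : R' →ₐ[κ] κ) (x : R') : act n g u x = u (g • x) := rfl

theorem act_mul (g h : G) (u : R' →ₐ[κ] κ) : act n (g * h) u = act n h (act n g u) := by
  ext x
  simp [mul_smul]

theorem act_one (u : R' →ₐ[κ] κ) : act n (1 : G) u = u := by
  ext x; simp

theorem pt_act (g : G) (u : R' →ₐ[κ] κ) : pt (n := n) (act n g u) = pt u := by
  ext i
  simp [pt, smul_algebraMap]

theorem trans_pt (htrans : ∀ P Q : Ideal R', P.IsPrime → Q.IsPrime →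
        P.comap (algebraMap (MvPolynomial (Fin n) κ) R') =
          Q.comap (algebraMap (MvPolynomial (Fin n) κ) R') → ∃ g : G, ∀ x, x ∈ Q ↔ g • x ∈ P)
    (u v : R' →ₐ[κ] κ) (h : pt (n := n) u = pt v) : ∃ g : G, v = act n g u := by
  obtain ⟨g, hg⟩ := htrans (RingHom.ker u) (RingHom.ker v) (RingHom.ker_isPrime u)
    (RingHom.ker_isPrime v) (by rw [comap_ker, comap_ker, h])
  refine ⟨g, ?_⟩
  ext x
  have h1 : x - algebraMap κ R' (v x) ∈ RingHom.ker v := by
    rw [RingHom.mem_ker, map_sub, AlgHom.commutes]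
    simp
  rw [hg, RingHom.mem_ker, smul_sub, smul_const (n := n), map_sub, AlgHom.commutes] at h1
  rw [act_apply]
  simpa using (sub_eq_zero.mp h1).symm

theorem through [Algebra.IsIntegral (MvPolynomial (Fin n) κ) R']
    (hinj : Function.Injective (algebraMap (MvPolynomial (Fin n) κ) R'))
    (htrans : ∀ P Q : Ideal R', P.IsPrime → Q.IsPrime →
        P.comap (algebraMap (MvPolynomial (Fin n) κ) R') =
          Q.comap (algebraMap (MvPolynomial (Fin n) κ) R') → ∃ g : G, ∀ x, x ∈ Q ↔ g • x ∈ P)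
    (u : R' →ₐ[κ] κ) (i : Fin n) :
    ∃ 𝔮 : Ideal R', 𝔮.IsPrime ∧ 𝔮 ≤ RingHom.ker u ∧
      𝔮.comap (algebraMap (MvPolynomial (Fin n) κ) R') = RingHom.ker (line i (pt (n := n) u)) := by
  have hp1 : (RingHom.ker (line i (pt (n := n) u))).IsPrime := RingHom.ker_isPrime _
  have hp2 : (RingHom.ker (MvPolynomial.eval (pt (n := n) u))).IsPrime := RingHom.ker_isPrime _
  obtain ⟨𝔮₀, -, h𝔮₀, h𝔮₀'⟩ := Ideal.exists_ideal_over_prime_of_isIntegral (S := R')
    (RingHom.ker (line i (pt (n := n) u))) ⊥ (by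
      rw [← RingHom.ker_eq_comap_bot, (RingHom.injective_iff_ker_eq_bot _).mp hinj]
      exact bot_le)
  obtain ⟨Q, hQ0, hQ, hQ'⟩ := Ideal.exists_ideal_over_prime_of_isIntegral (S := R')
    (RingHom.ker (MvPolynomial.eval (pt (n := n) u))) 𝔮₀ (by
      rw [h𝔮₀']
      have := ker_line_le i (pt (n := n) u) (pt (n := n) u i)
      rwa [Function.update_eq_self] at this)
  obtain ⟨g, hg⟩ := htrans (RingHom.ker u) Q (RingHom.ker_isPrime u) hQ (by
    rw [comap_ker, hQ'])
  refine ⟨𝔮₀.comap (MulSemiringAction.toRingHom G R' g⁻¹), Ideal.comap_isPrime _ _, ?_, ?_⟩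
  · intro x hx
    have h1 : g⁻¹ • x ∈ 𝔮₀ := hx
    have h2 := (hg _).mp (hQ0 h1)
    simpa using h2
  · rw [← h𝔮₀']
    ext a
    rw [Ideal.mem_comap, Ideal.mem_comap, Ideal.mem_comap]
    change g⁻¹ • algebraMap _ R' a ∈ 𝔮₀ ↔ _
    rw [smul_algebraMap]

end group

end Pool.Agent.Helper95.AlgConnect
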