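import Pool.Agent.Helper95.AlgConnectB

namespace Pool.Agent.Helper95.AlgConnect

open Polynomial

section main

variable {κ : Type} [Field κ] {n : ℕ} {R' : Type} [CommRing R']
  [Algebra κ R'] [Algebra (MvPolynomial (Fin n) κ) R']
  [IsScalarTower κ (MvPolynomial (Fin n) κ) R']

/-- The value function on a coordinate line is a polynomial after a power of Frobenius. -/
theorem line_poly [IsAlgClosed κ] (q : ℕ) [ExpChar κ q]
    [Algebra.IsIntegral (MvPolynomial (Fin n) κ) R']
    (w : R') (U : (R' →ₐ[κ] κ) → Prop) (φ : (Fin n → κ) → κ)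
    (hφ : ∀ u, U u → u w = φ (pt u))
    (M₀ : (MvPolynomial (Fin n) κ)[X]) (hM₀ : M₀.Monic)
    (hM₀w : M₀.eval₂ (algebraMap (MvPolynomial (Fin n) κ) R') w = 0)
    (D : ℕ) (hD : ∀ j, (M₀.coeff j).totalDegree ≤ D)
    (i : Fin n) (p : Fin n → κ) (𝔮 : Ideal R') [𝔮.IsPrime]
    (h𝔮 : 𝔮.comap (algebraMap (MvPolynomial (Fin n) κ) R') = RingHom.ker (line i p))
    (hU : ∀ u : R' →ₐ[κ] κ, 𝔮 ≤ RingHom.ker u → U u) :
    ∃ P : κ[X], P.natDegree ≤ q ^ M₀.natDegree * D ∧
      ∀ s, P.eval s = φ (Function.update p i s) ^ q ^ M₀.natDegree := by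
  -- the structure of a `κ[X]`-algebra on the quotient
  let τ₀ : κ[X] →+* MvPolynomial (Fin n) κ :=
    (aeval (MvPolynomial.X i : MvPolynomial (Fin n) κ) : κ[X] →ₐ[κ] MvPolynomial (Fin n) κ)
  let τ : κ[X] →+* R' ⧸ 𝔮 :=
    (Ideal.Quotient.mk 𝔮).comp ((algebraMap (MvPolynomial (Fin n) κ) R').comp τ₀)
  let alg : Algebra κ[X] (R' ⧸ 𝔮) := τ.toAlgebra
  have hsec : ∀ f, line i p (τ₀ f) = f := line_section i p
  have hτ : ∀ a : MvPolynomial (Fin n) κ,
      Ideal.Quotient.mk 𝔮 (algebraMap _ R' a) = τ (line i p a) := by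
    intro a
    change _ = Ideal.Quotient.mk 𝔮 (algebraMap _ R' (τ₀ (line i p a)))
    rw [Ideal.Quotient.eq, ← map_sub]
    have : a - τ₀ (line i p a) ∈ RingHom.ker (line i p) := by
      rw [RingHom.mem_ker, map_sub, hsec, sub_self]
    rw [← h𝔮] at this
    exact this
  have hinjτ : Function.Injective (algebraMap κ[X] (R' ⧸ 𝔮)) := by
    rw [injective_iff_map_eq_zero]
    intro f hf
    have h1 : algebraMap _ R' (τ₀ f) ∈ 𝔮 := Ideal.Quotient.eq_zero_iff_mem.mp hf
    have h2 : τ₀ f ∈ RingHom.ker (line i p) := by rw [← h𝔮]; exact h1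
    rw [RingHom.mem_ker, hsec] at h2
    exact h2
  have hcomp : τ.comp (line i p : MvPolynomial (Fin n) κ →+* κ[X]) =
      (Ideal.Quotient.mk 𝔮).comp (algebraMap _ R') := RingHom.ext fun a => (hτ a).symm
  have hroot : ∀ (N : (MvPolynomial (Fin n) κ)[X]) (x : R'), N.eval₂ (algebraMap _ R') x = 0 →
      (N.map (line i p : MvPolynomial (Fin n) κ →+* κ[X])).eval₂ τ (Ideal.Quotient.mk 𝔮 x) = 0 := by
    intro N x hN
    rw [eval₂_map, hcomp, ← hom_eval₂, hN, map_zero]
  have hint : Algebra.IsIntegral κ[X] (R' ⧸ 𝔮) := by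
    constructor
    intro y
    obtain ⟨x, rfl⟩ := Ideal.Quotient.mk_surjective y
    obtain ⟨N, hN, hN'⟩ := Algebra.IsIntegral.isIntegral (R := MvPolynomial (Fin n) κ) x
    exact ⟨N.map (line i p : MvPolynomial (Fin n) κ →+* κ[X]), hN.map _, hroot N x hN'⟩
  have hpoint : ∀ (s : κ) (ψ : R' ⧸ 𝔮 →+* κ),
      (∀ f : κ[X], ψ (algebraMap κ[X] (R' ⧸ 𝔮) f) = f.eval s) →
      ∃ u : R' →ₐ[κ] κ, (∀ x, u x = ψ (Ideal.Quotient.mk 𝔮 x)) ∧ U u ∧
        pt u = Function.update p i s := by
    intro s ψ hψ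
    obtain ⟨u, hu, hpt⟩ := exists_alg (ψ.comp (Ideal.Quotient.mk 𝔮)) (Function.update p i s)
      (by
        intro a
        change ψ (Ideal.Quotient.mk 𝔮 (algebraMap _ R' a)) = _
        rw [hτ, ← line_eval]
        exact hψ _)
    refine ⟨u, hu, ?_, hpt⟩
    apply hU
    intro x hx
    rw [RingHom.mem_ker, hu]
    change ψ (Ideal.Quotient.mk 𝔮 x) = 0
    rw [Ideal.Quotient.eq_zero_iff_mem.mpr hx, map_zero]
  obtain ⟨e, he, P, hP⟩ := curve_lemma q hinjτ (Ideal.Quotient.mk 𝔮 w)
    (fun s => φ (Function.update p i s))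
    (by
      intro s ψ hψ
      obtain ⟨u, hu, hUu, hpt⟩ := hpoint s ψ hψ
      rw [← hu, hφ u hUu, hpt])
    (M₀.map (line i p : MvPolynomial (Fin n) κ →+* κ[X])) (hM₀.map _) (hroot M₀ w hM₀w)
  rw [hM₀.natDegree_map] at he
  have hPN : ∀ s, (P ^ q ^ (M₀.natDegree - e)).eval s =
      φ (Function.update p i s) ^ q ^ M₀.natDegree := by
    intro s
    rw [eval_pow, hP, ← pow_mul, ← pow_add]
    congr 2
    omega
  refine ⟨P ^ q ^ (M₀.natDegree - e), ?_, hPN⟩
  have hexp : ExpChar κ[X] q := expChar_of_injective_algebraMap (R := κ) (C_injective) q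
  apply deg_bound ((M₀.map (line i p : MvPolynomial (Fin n) κ →+* κ[X])).map
    (iterateFrobenius κ[X] q M₀.natDegree)) ((hM₀.map _).map _)
  · apply Polynomial.funext
    intro s
    rw [Polynomial.eval_map, eval₂_map, eval_zero]
    change (evalRingHom s) (eval₂ _ _ _) = 0
    rw [hom_eval₂]
    obtain ⟨u₀, hu₀, hpt₀⟩ := lift_line i p 𝔮 h𝔮 s
    have h1 : eval₂ ((evalRingHom s).comp (line i p : MvPolynomial (Fin n) κ →+* κ[X]))
        (φ (Function.update p i s)) M₀ = 0 := by
      have h2 : (evalRingHom s).comp (line i p : MvPolynomial (Fin n) κ →+* κ[X]) =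
          (u₀ : R' →+* κ).comp (algebraMap _ R') := by
        apply RingHom.ext
        intro a
        change (line i p a).eval s = u₀ (algebraMap _ R' a)
        rw [line_eval, pt_eval, hpt₀]
      rw [h2, ← hpt₀, ← hφ u₀ (hU u₀ hu₀)]
      change eval₂ _ ((u₀ : R' →+* κ) w) M₀ = 0
      rw [← hom_eval₂, hM₀w, map_zero]
    have h3 := congrArg (iterateFrobenius κ q M₀.natDegree) h1
    rw [map_zero, hom_eval₂] at h3
    rw [← h3]
    have h4 : (evalRingHom s) (P ^ q ^ (M₀.natDegree - e)) =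
        (iterateFrobenius κ q M₀.natDegree) (φ (Function.update p i s)) := by
      rw [iterateFrobenius_def]
      exact hPN s
    rw [h4]
    congr 1
    apply RingHom.ext
    intro a
    simp [iterateFrobenius_def]
  · intro j
    rw [coeff_map, coeff_map, iterateFrobenius_def, natDegree_pow]
    apply Nat.mul_le_mul_left
    have := MvPolynomial.aeval_natDegree_le (M₀.coeff j) (hD j)
      (Function.update (fun j => C (p j)) i X) (n := 1) (by
        intro k
        by_cases hk : k = i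
        · subst hk; simp
        · simp [Function.update_of_ne hk])
    rw [mul_one] at this
    exact this

variable [IsDomain R'] {G : Type} [Group G] [Finite G] [MulSemiringAction G R']
  [SMulCommClass G (MvPolynomial (Fin n) κ) R']

theorem all_related [IsAlgClosed κ]
    [Algebra.IsIntegral (MvPolynomial (Fin n) κ) R']
    (hinj : Function.Injective (algebraMap (MvPolynomial (Fin n) κ) R'))
    (htrans : ∀ P Q : Ideal R', P.IsPrime → Q.IsPrime →
        P.comap (algebraMap (MvPolynomial (Fin n) κ) R') =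
          Q.comap (algebraMap (MvPolynomial (Fin n) κ) R') → ∃ g : G, ∀ x, x ∈ Q ↔ g • x ∈ P)
    (hinv : ∀ w : R', (∀ g : G, g • w = w) →
        ∃ (e : ℕ) (a : MvPolynomial (Fin n) κ),
          algebraMap (MvPolynomial (Fin n) κ) R' a = w ^ (ringExpChar (MvPolynomial (Fin n) κ) ^ e))
    (hgal : ∀ H : Subgroup G, (∀ w : R', (∀ h ∈ H, h • w = w) → ∀ g : G, g • w = w) → H = ⊤)
    (rel : (R' →ₐ[κ] κ) → (R' →ₐ[κ] κ) → Prop) (hrel : Equivalence rel)
    (hG : ∀ (g : G) u v, rel u v → rel (act n g u) (act n g v))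
    (hline : ∀ (i : Fin n) (p : Fin n → κ) (𝔮 : Ideal R'), 𝔮.IsPrime →
      𝔮.comap (algebraMap (MvPolynomial (Fin n) κ) R') = RingHom.ker (line i p) →
      ∀ u v : R' →ₐ[κ] κ, 𝔮 ≤ RingHom.ker u → 𝔮 ≤ RingHom.ker v → rel u v)
    (u₀ : R' →ₐ[κ] κ) : ∀ u, rel u u₀ := by
  classical
  have := Fintype.ofFinite G
  set q := ringExpChar (MvPolynomial (Fin n) κ) with hq
  have hqA : ExpChar (MvPolynomial (Fin n) κ) q := inferInstance
  have hqκ : ExpChar κ q := by
    obtain ⟨q', hq'⟩ := ExpChar.exists κ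
    have h1 : ExpChar (MvPolynomial (Fin n) κ) q' :=
      expChar_of_injective_algebraMap (R := κ) (MvPolynomial.C_injective _ _) q'
    have h2 : q = q' := ExpChar.eq hqA h1
    rw [h2]; exact hq'
  have hqR : ExpChar R' q := expChar_of_injective_algebraMap hinj q
  -- every point of affine space is the image of a point of the class
  have hZ : ∀ p : Fin n → κ, ∃ u : R' →ₐ[κ] κ, rel u u₀ ∧ pt u = p := by
    intro p
    have key : ∀ S : Finset (Fin n), ∃ u : R' →ₐ[κ] κ, rel u u₀ ∧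
        pt u = fun i => if i ∈ S then p i else pt (n := n) u₀ i := by
      intro S
      induction S using Finset.induction_on with
      | empty => exact ⟨u₀, hrel.refl _, by simp⟩
      | insert i S hi ih =>
        obtain ⟨u, hu, hpt⟩ := ih
        obtain ⟨𝔮, h𝔮p, h𝔮u, h𝔮⟩ := through hinj htrans u i
        obtain ⟨v, hv, hptv⟩ := lift_line i _ 𝔮 h𝔮 (p i)
        refine ⟨v, hrel.trans (hline i _ 𝔮 h𝔮p h𝔮 v u hv h𝔮u) hu, ?_⟩
        rw [hptv, hpt]
        ext j
        by_cases hj : j = i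
        · subst hj; simp
        · simp [hj]
    obtain ⟨u, hu, hpt⟩ := key Finset.univ
    exact ⟨u, hu, by rw [hpt]; simp⟩
  choose uU hU hpt using hZ
  -- the stabiliser
  have hstab : ∀ (g : G) (u : R' →ₐ[κ] κ), rel u u₀ → (rel (act n g u) u₀ ↔ rel (act n g u₀) u₀) := by
    intro g u hu
    have h1 := hG g u u₀ hu
    exact ⟨fun h => hrel.trans (hrel.symm h1) h, fun h => hrel.trans h1 h⟩
  let H : Subgroup G :=
    { carrier := {g | rel (act n g u₀) u₀}
      mul_mem' := by
        intro a b ha hb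
        change rel (act n (a * b) u₀) u₀
        rw [act_mul]
        exact (hstab b _ ha).mpr hb
      one_mem' := by
        change rel (act n 1 u₀) u₀
        rw [act_one]; exact hrel.refl _
      inv_mem' := by
        intro a ha
        change rel (act n a⁻¹ u₀) u₀
        have h1 := hG a⁻¹ _ _ ha
        rw [← act_mul, mul_inv_cancel, act_one] at h1
        exact hrel.symm h1 }
  have hHmem : ∀ g : G, g ∈ H ↔ rel (act n g u₀) u₀ := fun g => Iff.rfl
  have hmove : ∀ u : R' →ₐ[κ] κ, ∃ g : G, u = act n g (uU (pt (n := n) u)) := by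
    intro u
    exact trans_pt htrans _ u (hpt _)
  -- invariants
  have hHtop : H = ⊤ := by
    apply hgal
    intro w hw
    let φ : (Fin n → κ) → κ := fun p => uU p w
    have hφ : ∀ u : R' →ₐ[κ] κ, rel u u₀ → u w = φ (pt u) := by
      intro u hu
      obtain ⟨g, hg⟩ := hmove u
      have h1 : g ∈ H := by
        rw [hHmem, ← hstab g (uU (pt u)) (hU _), ← hg]
        exact hu
      conv_lhs => rw [hg]
      rw [act_apply, hw g h1]
    obtain ⟨M₀, hM₀, hM₀w⟩ := Algebra.IsIntegral.isIntegral (R := MvPolynomial (Fin n) κ) w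
    let D : ℕ := M₀.support.sup fun j => (M₀.coeff j).totalDegree
    have hD : ∀ j, (M₀.coeff j).totalDegree ≤ D := by
      intro j
      by_cases hj : j ∈ M₀.support
      · exact Finset.le_sup (f := fun j => (M₀.coeff j).totalDegree) hj
      · rw [notMem_support_iff.mp hj]; simp
    obtain ⟨g, hg⟩ := exists_polynomial_of_lines (κ := κ) (n := n) (q ^ M₀.natDegree * D)
      (fun p => φ p ^ q ^ M₀.natDegree) (by
        intro i p
        obtain ⟨𝔮, h𝔮p, h𝔮u, h𝔮⟩ := through hinj htrans (uU p) i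
        rw [hpt] at h𝔮
        exact line_poly q w (fun u => rel u u₀) φ hφ M₀ hM₀ hM₀w D hD i p 𝔮 h𝔮
          (fun u hu => hrel.trans (hline i p 𝔮 h𝔮p h𝔮 u (uU p) hu h𝔮u) (hU p)))
    set z : R' := w ^ q ^ M₀.natDegree - algebraMap _ R' g with hz
    have hzU : ∀ p, uU p z = 0 := by
      intro p
      rw [hz, map_sub, map_pow, pt_eval, hpt, hg]
      exact sub_self _
    let ν : R' := ∏ γ : G, γ • z
    have hν : ∀ γ : G, γ • ν = ν := by
      intro γ
      change γ • (∏ γ' : G, γ' • z) = _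
      rw [Finset.smul_prod']
      simp_rw [← mul_smul]
      exact Fintype.prod_equiv (Equiv.mulLeft γ) _ _ (fun x => rfl)
    obtain ⟨e, a, ha⟩ := hinv ν hν
    have hqe : q ^ e ≠ 0 := pow_ne_zero _ (expChar_pos κ q).ne'
    have ha0 : a = 0 := by
      apply MvPolynomial.funext
      intro p
      have h1 : uU p (algebraMap _ R' a) = MvPolynomial.eval p a := by
        rw [pt_eval, hpt]
      have h2 : uU p ν = 0 := by
        change uU p (∏ γ : G, γ • z) = 0
        rw [map_prod]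
        apply Finset.prod_eq_zero (Finset.mem_univ (1 : G))
        rw [one_smul, hzU]
      rw [← h1, ha, map_zero, map_pow, h2, zero_pow hqe]
    rw [ha0, map_zero] at ha
    have hν0 : ν = 0 := pow_eq_zero_iff hqe |>.mp ha.symm
    obtain ⟨γ, -, hγ⟩ := Finset.prod_eq_zero_iff.mp hν0
    have hz0 : z = 0 := (smul_eq_zero_iff_eq γ).mp hγ
    have hwg : w ^ q ^ M₀.natDegree = algebraMap _ R' g := sub_eq_zero.mp hz0
    intro γ'
    apply iterateFrobenius_inj R' q M₀.natDegree
    rw [iterateFrobenius_def, iterateFrobenius_def, ← smul_pow', hwg, smul_algebraMap]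
  intro u
  obtain ⟨g, hg⟩ := hmove u
  rw [hg, hstab g _ (hU _), ← hHmem, hHtop]
  exact Subgroup.mem_top g

end main

end Pool.Agent.Helper95.AlgConnect
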