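import Mathlib

/-!
# Bounded functional calculus: the continuous part
-/

open scoped InnerProductSpace Topology BoundedContinuousFunction
open ContinuousLinearMap Filter

namespace Pool.Agent.Helper95.TTC

/-- the real interval `[0, 2]` inside `ℂ` -/
def sS : Set ℂ := Complex.ofReal '' Set.Icc 0 2

instance : CompactSpace sS :=
  isCompact_iff_compactSpace.mp (isCompact_Icc.image Complex.continuous_ofReal)

lemma sS_cases (z : sS) : ∃ r : ℝ, 0 ≤ r ∧ r ≤ 2 ∧ (z : ℂ) = r := by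
  obtain ⟨z, r, hr, rfl⟩ := z
  exact ⟨r, hr.1, hr.2, rfl⟩

variable {H : Type*} [NormedAddCommGroup H] [InnerProductSpace ℂ H] [CompleteSpace H]

lemma nonneg_of_re {T : H →L[ℂ] H} (hs : star T = T) (h0 : ∀ v : H, 0 ≤ (⟪v, T v⟫_ℂ).re) :
    0 ≤ T := by
  rw [ContinuousLinearMap.nonneg_iff_isPositive, ContinuousLinearMap.isPositive_def]
  refine ⟨(ContinuousLinearMap.isSelfAdjoint_iff_isSymmetric).mp hs, ?_⟩
  intro x
  have h := h0 x
  have h' : ⟪T x, x⟫_ℂ = (starRingEnd ℂ) ⟪x, T x⟫_ℂ := (inner_conj_symm _ _).symm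
  change 0 ≤ (⟪T x, x⟫_ℂ).re
  rw [h', Complex.conj_re]
  exact h

theorem spectrum_subset (R : H →L[ℂ] H) (hs : star R = R) (h0 : ∀ v : H, 0 ≤ (⟪v, R v⟫_ℂ).re)
    (h2 : ∀ v : H, (⟪v, R v⟫_ℂ).re ≤ 2 * ‖v‖ ^ 2) : spectrum ℂ R ⊆ sS := by
  intro z hz
  have hR : IsSelfAdjoint R := hs
  have hzre : z = z.re := hR.mem_spectrum_eq_re hz
  have hR0 : 0 ≤ R := nonneg_of_re hs h0
  have hR2 : 0 ≤ (2 : ℂ) • (1 : H →L[ℂ] H) - R := by
    apply nonneg_of_re
    · rw [star_sub, star_smul, hs, star_one]; simp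
    · intro v
      have h1 := h2 v
      rw [sub_apply, smul_apply, one_apply_eq_self, inner_sub_right, inner_smul_right,
        inner_self_eq_norm_sq_to_K, Complex.sub_re]
      have : ((2 : ℂ) * ((‖v‖ : ℂ)) ^ 2).re = 2 * ‖v‖ ^ 2 := by norm_cast
      change 0 ≤ ((2 : ℂ) * ((‖v‖ : ℂ)) ^ 2).re - _
      rw [this]; linarith
  have hz' : z.re ∈ spectrum ℝ R := by
    rw [← spectrum.algebraMap_mem_iff ℂ]
    change ((z.re : ℝ) : ℂ) ∈ _
    rw [← hzre]; exact hz
  have h3 : 0 ≤ z.re := spectrum_nonneg_of_nonneg hR0 hz'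
  have h4 : 0 ≤ 2 - z.re := by
    have : 2 - z.re ∈ spectrum ℝ ((2 : ℂ) • (1 : H →L[ℂ] H) - R) := by
      have h5 : ((2 : ℂ) • (1 : H →L[ℂ] H) - R) = algebraMap ℝ (H →L[ℂ] H) 2 - R := by
        congr 1
      rw [h5, ← spectrum.singleton_sub_eq]
      exact ⟨2, rfl, z.re, hz', rfl⟩
    exact spectrum_nonneg_of_nonneg hR2 this
  exact ⟨z.re, ⟨h3, by linarith⟩, hzre.symm⟩

/-- the continuous functional calculus on `[0, 2]` -/
noncomputable def Phi (R : H →L[ℂ] H) (hR : IsStarNormal R) (hsp : spectrum ℂ R ⊆ sS) :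
    C(sS, ℂ) →⋆ₐ[ℂ] (H →L[ℂ] H) :=
  (cfcHom hR : C(spectrum ℂ R, ℂ) →⋆ₐ[ℂ] (H →L[ℂ] H)).comp
    (ContinuousMap.compStarAlgHom' ℂ ℂ ⟨Set.inclusion hsp, continuous_inclusion hsp⟩)

/-- the coordinate function -/
def zS : C(sS, ℂ) := ⟨Subtype.val, continuous_subtype_val⟩

section Phi

variable (R : H →L[ℂ] H) (hR : IsStarNormal R) (hsp : spectrum ℂ R ⊆ sS)

theorem Phi_z : Phi R hR hsp zS = R := cfcHom_id hR

theorem Phi_comm (hs : star R = R) (X : H →L[ℂ] H) (hX : X * R = R * X) (f : C(sS, ℂ)) :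
    X * Phi R hR hsp f = Phi R hR hsp f * X := by
  have h1 : Commute R X := hX.symm
  have h2 : Commute (star R) X := by rw [hs]; exact h1
  exact (Commute.cfcHom hR h1 h2 _).eq.symm

theorem Phi_norm (f : C(sS, ℂ)) : ‖Phi R hR hsp f‖ ≤ ‖f‖ :=
  NonUnitalStarAlgHom.norm_apply_le (Phi R hR hsp) f

theorem Phi_cont : Continuous (Phi R hR hsp) := by
  apply AddMonoidHomClass.continuous_of_bound (Phi R hR hsp) 1
  intro f
  rw [one_mul]
  exact Phi_norm R hR hsp f

/-- reflection `z ↦ 2 - z` -/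
noncomputable def refl : C(sS, sS) where
  toFun z := ⟨2 - z, by
    obtain ⟨r, h0, h2, h⟩ := sS_cases z
    exact ⟨2 - r, ⟨by linarith, by linarith⟩, by rw [h]; push_cast; ring⟩⟩
  continuous_toFun := by fun_prop

/-- the partner of a function -/
noncomputable def par (f : C(sS, ℂ)) : C(sS, ℂ) := star (f.comp refl)

lemma par_apply (f : C(sS, ℂ)) (z : sS) : par f z = star (f (refl z)) := rfl

lemma par_add (f g : C(sS, ℂ)) : par (f + g) = par f + par g := by
  ext z; simp [par_apply]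

lemma par_mul (f g : C(sS, ℂ)) : par (f * g) = par f * par g := by
  ext z; simp [par_apply]

lemma par_cont : Continuous par := by
  unfold par
  fun_prop

theorem Phi_D (D : H →L[ℝ] H) (hD : ∀ (c : ℂ) (v : H), D (c • v) = (starRingEnd ℂ) c • D v)
    (hDR : ∀ v : H, D (R v) = (2 : ℂ) • D v - R (D v)) (f : C(sS, ℂ)) :
    ∀ v, D (Phi R hR hsp f v) = Phi R hR hsp (par f) (D v) := by
  have hid : ∀ v, D (Phi R hR hsp zS v) = Phi R hR hsp (par zS) (D v) := by
    intro v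
    have : par zS = (2 : ℂ) • (1 : C(sS, ℂ)) - zS := by
      ext z
      obtain ⟨r, h0, h2, h⟩ := sS_cases z
      simp [par_apply, zS, refl, h]
    rw [this, map_sub, map_smul, map_one, Phi_z, hDR]
    simp
  induction f using ContinuousMap.induction_on_of_compact with
  | const r =>
    intro v
    have h1 : (ContinuousMap.const sS r : C(sS, ℂ)) = r • (1 : C(sS, ℂ)) := by ext; simp
    have h2 : par (ContinuousMap.const sS r : C(sS, ℂ)) = (starRingEnd ℂ r) • (1 : C(sS, ℂ)) := by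
      ext; simp [par_apply]
    rw [h2, h1, map_smul, map_smul, map_one]
    simp [hD]
  | id => exact hid
  | star_id =>
    have : star (ContinuousMap.restrict sS (ContinuousMap.id ℂ)) = zS := by
      ext z
      obtain ⟨r, h0, h2, h⟩ := sS_cases z
      simp [zS, h]
    rw [this]
    exact hid
  | add f g hf hg =>
    intro v
    rw [par_add, map_add, map_add, add_apply, add_apply, map_add, hf, hg]
  | mul f g hf hg =>
    intro v
    rw [par_mul, map_mul, map_mul]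
    change D (Phi R hR hsp f (Phi R hR hsp g v)) = _
    rw [hf, hg]
    rfl
  | frequently f h =>
    have hcl : IsClosed {g : C(sS, ℂ) | ∀ v, D (Phi R hR hsp g v) = Phi R hR hsp (par g) (D v)} := by
      simp only [Set.ofPred_forall]
      refine isClosed_iInter fun v => isClosed_eq ?_ ?_
      · exact D.continuous.comp ((ContinuousLinearMap.apply ℂ H v).continuous.comp
          (Phi_cont R hR hsp))
      · exact (ContinuousLinearMap.apply ℂ H (D v)).continuous.comp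
          ((Phi_cont R hR hsp).comp par_cont)
    exact hcl.closure_subset (mem_closure_iff_frequently.mpr h)

/-- Norm comparison. -/
theorem Phi_le (f g : C(sS, ℂ)) (C : ℝ) (hC : 0 ≤ C) (hfg : ∀ z, ‖f z‖ ≤ C * ‖g z‖) (v : H) :
    ‖Phi R hR hsp f v‖ ≤ C * ‖Phi R hR hsp g v‖ := by
  let h : C(sS, ℂ) := ⟨fun z => ((Real.sqrt (C ^ 2 * ‖g z‖ ^ 2 - ‖f z‖ ^ 2) : ℝ) : ℂ), by fun_prop⟩
  have hsum : star f * f + star h * h = ((C : ℂ) ^ 2) • (star g * g) := by
    ext z
    have hn : ∀ w : ℂ, star w * w = ((‖w‖ ^ 2 : ℝ) : ℂ) := by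
      intro w
      rw [Complex.star_def, Complex.conj_mul']
      push_cast; rfl
    have h1 : 0 ≤ C ^ 2 * ‖g z‖ ^ 2 - ‖f z‖ ^ 2 := by
      have := hfg z
      have h3 := norm_nonneg (f z)
      nlinarith [mul_nonneg hC (norm_nonneg (g z))]
    have h2 : ‖h z‖ ^ 2 = C ^ 2 * ‖g z‖ ^ 2 - ‖f z‖ ^ 2 := by
      change ‖((Real.sqrt (C ^ 2 * ‖g z‖ ^ 2 - ‖f z‖ ^ 2) : ℝ) : ℂ)‖ ^ 2 = _
      rw [Complex.norm_real, Real.norm_of_nonneg (Real.sqrt_nonneg _), Real.sq_sqrt h1]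
    simp only [ContinuousMap.add_apply, ContinuousMap.mul_apply, ContinuousMap.star_apply,
      ContinuousMap.smul_apply, hn, h2, smul_eq_mul]
    push_cast
    ring
  have key : ‖Phi R hR hsp f v‖ ^ 2 + ‖Phi R hR hsp h v‖ ^ 2 = C ^ 2 * ‖Phi R hR hsp g v‖ ^ 2 := by
    have hin : ∀ k : C(sS, ℂ), ⟪v, Phi R hR hsp (star k * k) v⟫_ℂ =
        ((‖Phi R hR hsp k v‖ ^ 2 : ℝ) : ℂ) := by
      intro k
      rw [map_mul, map_star]
      change ⟪v, (star (Phi R hR hsp k)) (Phi R hR hsp k v)⟫_ℂ = _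
      rw [ContinuousLinearMap.star_eq_adjoint, ContinuousLinearMap.adjoint_inner_right,
        inner_self_eq_norm_sq_to_K]
      push_cast; rfl
    have h1 := congrArg (fun k => ⟪v, Phi R hR hsp k v⟫_ℂ) hsum
    simp only [map_add, map_smul, add_apply, smul_apply, inner_add_right, inner_smul_right] at h1
    rw [hin, hin, hin] at h1
    exact_mod_cast h1
  have h5 : ‖Phi R hR hsp f v‖ ^ 2 ≤ (C * ‖Phi R hR hsp g v‖) ^ 2 := by
    rw [mul_pow, ← key]
    nlinarith [sq_nonneg ‖Phi R hR hsp h v‖]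
  exact abs_le_of_sq_le_sq' h5 (by positivity) |>.2

end Phi

end Pool.Agent.Helper95.TTC
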