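import Mathlib

/-!
# Paths in regular resolution refutations

A regular refutation is followed from the empty clause to an initial clause along the premises
falsified by a total assignment.
-/

set_option autoImplicit false

namespace Pool.Agent.Helper95.Urq

/-- the clause `D` is falsified by the assignment `α` -/
def Fals {E : Type} (α : E → Bool) (D : Finset (E × Bool)) : Prop :=
  ∀ e c, (e, c) ∈ D → α e = !c

/-- the variables of a clause -/
def vars {E : Type} [DecidableEq E] (D : Finset (E × Bool)) : Finset E := D.image Prod.fst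

theorem mem_vars {E : Type} [DecidableEq E] {D : Finset (E × Bool)} {e : E} :
    e ∈ vars D ↔ ∃ c, (e, c) ∈ D := by
  unfold vars
  simp

/-- A regular refutation, as a sequence of clauses. -/
structure Ref (E : Type) [DecidableEq E] where
  n : ℕ
  D : Fin n → Finset (E × Bool)
  b : Fin n → Bool
  p : Fin n → Fin n
  q : Fin n → Fin n
  y : Fin n → E
  step : ∀ i, b i = false → p i < i ∧ q i < i ∧ (y i, true) ∈ D (p i) ∧
    (y i, false) ∈ D (q i) ∧ D i = (D (p i)).erase (y i, true) ∪ (D (q i)).erase (y i, false)
  r : Fin n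
  root : D r = ∅
  reg : ∀ i j : Fin n, b i = false → b j = false →
    Relation.TransGen (fun u w : Fin n => b w = false ∧ (u = p w ∨ u = q w)) j i → y j ≠ y i

namespace Ref

variable {E : Type} [DecidableEq E] (R : Ref E)

/-- the premise falsified by `α` -/
def nxt (α : E → Bool) (i : Fin R.n) : Fin R.n :=
  if R.b i = true then i else if α (R.y i) = true then R.q i else R.p i

/-- the path followed by `α` -/
def node (α : E → Bool) : ℕ → Fin R.n
  | 0 => R.r
  | k + 1 => R.nxt α (node α k)

/-- the variables resolved upon in the first `k` steps of the path of `α` -/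
def hist (α : E → Bool) : ℕ → Finset E
  | 0 => ∅
  | k + 1 => if R.b (R.node α k) = true then hist α k else insert (R.y (R.node α k)) (hist α k)

theorem node_succ (α : E → Bool) (k : ℕ) : R.node α (k + 1) = R.nxt α (R.node α k) := rfl

theorem hist_zero (α : E → Bool) : R.hist α 0 = ∅ := rfl

theorem hist_succ_of_true (α : E → Bool) (k : ℕ) (h : R.b (R.node α k) = true) :
    R.hist α (k + 1) = R.hist α k := by
  simp [hist, h]

theorem hist_succ_of_false (α : E → Bool) (k : ℕ) (h : R.b (R.node α k) = false) :
    R.hist α (k + 1) = insert (R.y (R.node α k)) (R.hist α k) := by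
  simp [hist, h]

theorem hist_subset_succ (α : E → Bool) (k : ℕ) : R.hist α k ⊆ R.hist α (k + 1) := by
  cases h : R.b (R.node α k)
  · rw [R.hist_succ_of_false α k h]; exact Finset.subset_insert _ _
  · rw [R.hist_succ_of_true α k h]

theorem hist_mono (α : E → Bool) {k l : ℕ} (h : k ≤ l) : R.hist α k ⊆ R.hist α l := by
  induction h with
  | refl => exact subset_rfl
  | step _ ih => exact ih.trans (R.hist_subset_succ α _)

theorem nxt_of_true (α : E → Bool) (i : Fin R.n) (h : R.b i = true) : R.nxt α i = i := by
  simp [nxt, h]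

theorem node_stay (α : E → Bool) {k l : ℕ} (hkl : k ≤ l) (h : R.b (R.node α k) = true) :
    R.node α l = R.node α k := by
  induction hkl with
  | refl => rfl
  | step _ ih => rw [R.node_succ, ih, R.nxt_of_true α _ h]

theorem b_false_of_le (α : E → Bool) {k l : ℕ} (hkl : k ≤ l) (h : R.b (R.node α l) = false) :
    R.b (R.node α k) = false := by
  by_contra hc
  have hc' : R.b (R.node α k) = true := by simpa using hc
  rw [R.node_stay α hkl hc', hc'] at h
  exact absurd h (by simp)

theorem nxt_cases (α : E → Bool) (i : Fin R.n) (h : R.b i = false) :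
    (α (R.y i) = true ∧ R.nxt α i = R.q i) ∨ (α (R.y i) = false ∧ R.nxt α i = R.p i) := by
  cases h2 : α (R.y i)
  · right; simp [nxt, h, h2]
  · left; simp [nxt, h, h2]

theorem nxt_lt (α : E → Bool) (i : Fin R.n) (h : R.b i = false) : R.nxt α i < i := by
  obtain ⟨h1, h2, -⟩ := R.step i h
  rcases R.nxt_cases α i h with ⟨-, h3⟩ | ⟨-, h3⟩ <;> rw [h3] <;> assumption

theorem fals_nxt (α : E → Bool) (i : Fin R.n) (h : Fals α (R.D i)) :
    Fals α (R.D (R.nxt α i)) := by
  cases hb : R.b i
  · obtain ⟨-, -, -, -, h5⟩ := R.step i hb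
    rcases R.nxt_cases α i hb with ⟨h2, h3⟩ | ⟨h2, h3⟩
    · rw [h3]
      intro e c hc
      by_cases he : (e, c) = (R.y i, false)
      · rw [Prod.mk.injEq] at he
        rw [he.1, he.2, h2]; rfl
      · exact h e c (by rw [h5]; exact Finset.mem_union_right _ (Finset.mem_erase.mpr ⟨he, hc⟩))
    · rw [h3]
      intro e c hc
      by_cases he : (e, c) = (R.y i, true)
      · rw [Prod.mk.injEq] at he
        rw [he.1, he.2, h2]; rfl
      · exact h e c (by rw [h5]; exact Finset.mem_union_left _ (Finset.mem_erase.mpr ⟨he, hc⟩))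
  · rw [R.nxt_of_true α i hb]; exact h

theorem fals_node (α : E → Bool) (k : ℕ) : Fals α (R.D (R.node α k)) := by
  induction k with
  | zero => intro e c h; simp only [node, R.root] at h; exact absurd h (Finset.notMem_empty _)
  | succ k ih => exact R.fals_nxt α _ ih

theorem vars_nxt (α : E → Bool) (i : Fin R.n) (h : R.b i = false) :
    vars (R.D (R.nxt α i)) ⊆ insert (R.y i) (vars (R.D i)) := by
  obtain ⟨-, -, -, -, h5⟩ := R.step i h
  intro e he
  obtain ⟨c, hc⟩ := mem_vars.mp he
  rw [Finset.mem_insert, mem_vars]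
  by_cases hy : e = R.y i
  · exact Or.inl hy
  · right
    refine ⟨c, ?_⟩
    rw [h5]
    rcases R.nxt_cases α i h with ⟨-, h3⟩ | ⟨-, h3⟩
    · rw [h3] at hc
      refine Finset.mem_union_right _ (Finset.mem_erase.mpr ⟨?_, hc⟩)
      intro h4; rw [Prod.mk.injEq] at h4; exact hy h4.1
    · rw [h3] at hc
      refine Finset.mem_union_left _ (Finset.mem_erase.mpr ⟨?_, hc⟩)
      intro h4; rw [Prod.mk.injEq] at h4; exact hy h4.1

theorem vars_node (α : E → Bool) (k : ℕ) : vars (R.D (R.node α k)) ⊆ R.hist α k := by
  induction k with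
  | zero => intro e he; simp only [node, R.root] at he; simp [vars] at he
  | succ k ih =>
    cases h : R.b (R.node α k)
    · rw [R.hist_succ_of_false α k h, R.node_succ]
      exact (R.vars_nxt α _ h).trans (Finset.insert_subset_insert _ ih)
    · rw [R.hist_succ_of_true α k h, R.node_succ, R.nxt_of_true α _ h]
      exact ih

/-- the path only depends on the values at the variables resolved upon -/
theorem agree (α β : E → Bool) (k : ℕ) (h : ∀ e ∈ R.hist α k, α e = β e) :
    R.node β k = R.node α k ∧ R.hist β k = R.hist α k := by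
  induction k with
  | zero => exact ⟨rfl, rfl⟩
  | succ k ih =>
    obtain ⟨h1, h2⟩ := ih fun e he => h e (R.hist_subset_succ α k he)
    cases hb : R.b (R.node α k)
    · have hy : α (R.y (R.node α k)) = β (R.y (R.node α k)) := by
        apply h
        rw [R.hist_succ_of_false α k hb]
        exact Finset.mem_insert_self _ _
      refine ⟨?_, ?_⟩
      · rw [R.node_succ, R.node_succ, h1]
        simp [nxt, hy]
      · rw [R.hist_succ_of_false α k hb, R.hist_succ_of_false β k (by rw [h1]; exact hb), h1, h2]
    · refine ⟨?_, ?_⟩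
      · rw [R.node_succ, R.node_succ, h1, R.nxt_of_true α _ hb, R.nxt_of_true β _ hb]
      · rw [R.hist_succ_of_true α k hb, R.hist_succ_of_true β k (by rw [h1]; exact hb), h2]

theorem terminates (α : E → Bool) : ∃ k, R.b (R.node α k) = true := by
  by_contra hc
  push Not at hc
  have hc' : ∀ k, R.b (R.node α k) = false := fun k => by simpa using hc k
  have hb : ∀ k, (R.node α k : ℕ) + k ≤ R.r := by
    intro k
    induction k with
    | zero => exact le_rfl
    | succ k ih =>
      have h1 : (R.node α (k + 1) : ℕ) < R.node α k := R.nxt_lt α _ (hc' k)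
      omega
  have := hb (R.r + 1)
  omega

theorem mem_hist {α : E → Bool} {k : ℕ} {e : E} :
    e ∈ R.hist α k ↔ ∃ j < k, R.b (R.node α j) = false ∧ R.y (R.node α j) = e := by
  induction k with
  | zero => simp [hist]
  | succ k ih =>
    constructor
    · intro h
      cases hb : R.b (R.node α k)
      · rw [R.hist_succ_of_false α k hb, Finset.mem_insert] at h
        rcases h with h | h
        · exact ⟨k, Nat.lt_succ_self k, hb, h.symm⟩
        · obtain ⟨j, hj, h1⟩ := ih.mp h
          exact ⟨j, Nat.lt_succ_of_lt hj, h1⟩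
      · rw [R.hist_succ_of_true α k hb] at h
        obtain ⟨j, hj, h1⟩ := ih.mp h
        exact ⟨j, Nat.lt_succ_of_lt hj, h1⟩
    · rintro ⟨j, hj, h1, h2⟩
      rcases Nat.lt_succ_iff_lt_or_eq.mp hj with hj | hj
      · exact R.hist_subset_succ α k (ih.mpr ⟨j, hj, h1, h2⟩)
      · subst hj
        rw [R.hist_succ_of_false α j h1, h2]
        exact Finset.mem_insert_self _ _

theorem trans (α : E → Bool) {j k : ℕ} (hjk : j < k) (h : R.b (R.node α k) = false) :
    Relation.TransGen (fun u w : Fin R.n => R.b w = false ∧ (u = R.p w ∨ u = R.q w))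
      (R.node α k) (R.node α j) := by
  induction hjk with
  | refl =>
    have hb := R.b_false_of_le α (Nat.le_succ j) h
    refine Relation.TransGen.single ⟨hb, ?_⟩
    rw [R.node_succ]
    rcases R.nxt_cases α _ hb with ⟨-, h3⟩ | ⟨-, h3⟩
    · right; exact h3
    · left; exact h3
  | step hlt ih =>
    rename_i l
    have hb := R.b_false_of_le α (Nat.le_succ l) h
    refine Relation.TransGen.head ⟨hb, ?_⟩ (ih hb)
    rw [R.node_succ]
    rcases R.nxt_cases α _ hb with ⟨-, h3⟩ | ⟨-, h3⟩
    · right; exact h3
    · left; exact h3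

theorem y_ne (α : E → Bool) {j k : ℕ} (hjk : j < k) (h : R.b (R.node α k) = false) :
    R.y (R.node α k) ≠ R.y (R.node α j) :=
  R.reg _ _ (R.b_false_of_le α hjk.le h) h (R.trans α hjk h)

/-- a variable of a later clause occurs now or is resolved upon in between -/
theorem vars_later (α : E → Bool) {k l : ℕ} (hkl : k ≤ l) {e : E}
    (he : e ∈ vars (R.D (R.node α l))) :
    e ∈ vars (R.D (R.node α k)) ∨
      ∃ j, k ≤ j ∧ j < l ∧ R.b (R.node α j) = false ∧ R.y (R.node α j) = e := by
  induction hkl with
  | refl => exact Or.inl he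
  | step hle ih =>
    rename_i l
    cases hb : R.b (R.node α l)
    · have h1 := R.vars_nxt α _ hb (by rw [← R.node_succ]; exact he)
      rcases Finset.mem_insert.mp h1 with h1 | h1
      · exact Or.inr ⟨l, hle, Nat.lt_succ_self l, hb, h1.symm⟩
      · rcases ih h1 with h2 | ⟨j, h2, h3, h4⟩
        · exact Or.inl h2
        · exact Or.inr ⟨j, h2, Nat.lt_succ_of_lt h3, h4⟩
    · rw [R.node_succ, R.nxt_of_true α _ hb] at he
      rcases ih he with h2 | ⟨j, h2, h3, h4⟩
      · exact Or.inl h2
      · exact Or.inr ⟨j, h2, Nat.lt_succ_of_lt h3, h4⟩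

/-- The key property of regular refutations: if `e` was resolved upon and some assignment that
follows the same path so far ends in an initial clause containing `e`, then `e` occurs in the
current clause. -/
theorem key (α β : E → Bool) (k : ℕ) (hab : ∀ e ∈ R.hist α k, α e = β e) {e : E}
    (he : e ∈ R.hist α k)
    (hend : ∀ l, R.b (R.node β l) = true → e ∈ vars (R.D (R.node β l))) :
    e ∈ vars (R.D (R.node α k)) := by
  obtain ⟨h1, h2⟩ := R.agree α β k hab
  obtain ⟨l, hl⟩ := R.terminates β
  rw [← h1]
  by_cases hlk : l ≤ k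
  · have := R.node_stay β hlk hl
    rw [this]
    exact hend l hl
  · push Not at hlk
    rcases R.vars_later β hlk.le (hend l hl) with h3 | ⟨j, h3, h4, h5, h6⟩
    · exact h3
    · exfalso
      rw [← h2] at he
      obtain ⟨i, hi, hi1, hi2⟩ := R.mem_hist.mp he
      exact R.y_ne β (lt_of_lt_of_le hi h3) h5 (h6.trans hi2.symm)

end Ref

end Pool.Agent.Helper95.Urq
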