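import Mathlib
import Pool.Agent.Helper95.UrqPath

/-!
# Tseitin initial clauses and the fat triangle graph
-/

set_option autoImplicit false

namespace Pool.Agent.Helper95.Urq

open Finset

section general

variable {V : Type} [Fintype V] [DecidableEq V] (G : SimpleGraph V) [DecidableRel G.Adj]
  (l : V → ZMod 2)

/-- initial clauses of the Tseitin formula -/
def IsAx (C : Finset (Sym2 V × Bool)) : Prop :=
  ∃ v : V, ∃ S ⊆ G.incidenceFinset v, (S.card : ZMod 2) ≠ l v ∧
    C = S.image (fun e => (e, false)) ∪ (G.incidenceFinset v \ S).image (fun e => (e, true))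

/-- parity of an assignment at a vertex -/
def par (v : V) (α : Sym2 V → Bool) : ZMod 2 :=
  (((G.incidenceFinset v).filter (fun e => α e = true)).card : ZMod 2)

theorem ax_fals {C : Finset (Sym2 V × Bool)} (h : IsAx G l C) {α : Sym2 V → Bool}
    (hf : Fals α C) : ∃ v, par G v α ≠ l v ∧ vars C = G.incidenceFinset v := by
  obtain ⟨v, S, hS, h1, rfl⟩ := h
  refine ⟨v, ?_, ?_⟩
  · have : (G.incidenceFinset v).filter (fun e => α e = true) = S := by
      ext e
      rw [mem_filter]
      constructor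
      · rintro ⟨h2, h3⟩
        by_contra h4
        have := hf e true (mem_union_right _ (mem_image.mpr ⟨e, mem_sdiff.mpr ⟨h2, h4⟩, rfl⟩))
        rw [h3] at this
        exact absurd this (by simp)
      · intro h2
        refine ⟨hS h2, ?_⟩
        have := hf e false (mem_union_left _ (mem_image.mpr ⟨e, h2, rfl⟩))
        simpa using this
    unfold par
    rw [this]
    exact h1
  · ext e
    rw [mem_vars]
    constructor
    · rintro ⟨c, hc⟩
      rcases mem_union.mp hc with hc | hc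
      · obtain ⟨e', h2, h3⟩ := mem_image.mp hc
        rw [Prod.mk.injEq] at h3
        rw [← h3.1]; exact hS h2
      · obtain ⟨e', h2, h3⟩ := mem_image.mp hc
        rw [Prod.mk.injEq] at h3
        rw [← h3.1]; exact (mem_sdiff.mp h2).1
    · intro h2
      by_cases h3 : e ∈ S
      · exact ⟨false, mem_union_left _ (mem_image.mpr ⟨e, h3, rfl⟩)⟩
      · exact ⟨true, mem_union_right _ (mem_image.mpr ⟨e, mem_sdiff.mpr ⟨h2, h3⟩, rfl⟩)⟩

theorem isAx_of {v : V} {α : Sym2 V → Bool} (h : par G v α ≠ l v) :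
    IsAx G l ((G.incidenceFinset v).image (fun e => (e, !α e))) := by
  refine ⟨v, (G.incidenceFinset v).filter (fun e => α e = true), filter_subset _ _, h, ?_⟩
  ext ⟨e, c⟩
  simp only [mem_image, mem_union, mem_filter, mem_sdiff, Prod.mk.injEq]
  constructor
  · rintro ⟨e', h1, rfl, rfl⟩
    cases h2 : α e'
    · right; exact ⟨e', ⟨h1, by simp [h2]⟩, rfl, rfl⟩
    · left; exact ⟨e', ⟨h1, h2⟩, rfl, rfl⟩
  · rintro (⟨e', ⟨h1, h2⟩, rfl, rfl⟩ | ⟨e', ⟨h1, h2⟩, rfl, rfl⟩)
    · exact ⟨e', h1, rfl, by simp [h2]⟩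
    · refine ⟨e', h1, rfl, ?_⟩
      have : α e' = false := by
        by_contra h3
        exact h2 ⟨h1, by simpa using h3⟩
      simp [this]

end general

/-- vertices: three hubs and `m` middle vertices for each pair of hubs -/
abbrev Vx (m : ℕ) : Type := Fin 3 ⊕ (Fin 3 × Fin m)

/-- adjacency: the hub `h` is joined to the middle vertex `(κ, i)` when `h ≠ κ` -/
def adj (m : ℕ) : Vx m → Vx m → Prop
  | Sum.inl h, Sum.inr c => h ≠ c.1
  | Sum.inr c, Sum.inl h => h ≠ c.1
  | _, _ => False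

/-- the fat triangle graph: three hubs, each pair of which is joined by `m` paths of
length two -/
def Gr (m : ℕ) : SimpleGraph (Vx m) where
  Adj := adj m
  symm := ⟨by
    intro u v h
    rcases u with u | u <;> rcases v with v | v <;> simp_all [adj]⟩
  loopless := ⟨by
    intro u h
    rcases u with u | u <;> simp_all [adj]⟩

noncomputable instance (m : ℕ) : DecidableRel (Gr m).Adj := Classical.decRel _

/-- the labels: one at the hubs, zero at the middle vertices -/
def lab (m : ℕ) : Vx m → ZMod 2 := Sum.elim (fun _ => 1) (fun _ => 0)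

theorem lab_odd (m : ℕ) : ∑ v, lab m v = 1 := by
  rw [Fintype.sum_sum_type]
  simp [lab]
  decide

variable {m : ℕ}

/-- the edge between the hub `h` and the middle vertex `(κ, i)` -/
def ed (h κ : Fin 3) (i : Fin m) : Sym2 (Vx m) := s(Sum.inl h, Sum.inr (κ, i))

theorem ed_inj {h κ h' κ' : Fin 3} {i i' : Fin m} :
    ed h κ i = ed h' κ' i' ↔ h = h' ∧ κ = κ' ∧ i = i' := by
  unfold ed
  rw [Sym2.eq_iff]
  simp

theorem inc_hub (h : Fin 3) : (Gr m).incidenceFinset (Sum.inl h) =
    ((univ : Finset (Fin 3 × Fin m)).filter (fun c => c.1 ≠ h)).image (fun c => ed h c.1 c.2) := by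
  ext e
  rw [SimpleGraph.mem_incidenceFinset, SimpleGraph.incidenceSet, Set.mem_setOf_eq]
  constructor
  · rintro ⟨h1, h2⟩
    obtain ⟨w, rfl⟩ := Sym2.mem_iff_exists.mp h2
    rw [SimpleGraph.mem_edgeSet] at h1
    rcases w with w | ⟨κ, i⟩
    · exact absurd h1 (by simp [Gr, adj])
    · have h3 : h ≠ κ := h1
      exact mem_image.mpr ⟨(κ, i), by simp [h3.symm], rfl⟩
  · intro h1
    obtain ⟨⟨κ, i⟩, h2, rfl⟩ := mem_image.mp h1
    have h3 : κ ≠ h := by simpa using h2
    refine ⟨?_, ?_⟩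
    · rw [ed, SimpleGraph.mem_edgeSet]
      exact h3.symm
    · simp [ed]

theorem inc_mid (c : Fin 3 × Fin m) : (Gr m).incidenceFinset (Sum.inr c) =
    ((univ : Finset (Fin 3)).filter (fun h => h ≠ c.1)).image (fun h => ed h c.1 c.2) := by
  ext e
  rw [SimpleGraph.mem_incidenceFinset, SimpleGraph.incidenceSet, Set.mem_setOf_eq]
  constructor
  · rintro ⟨h1, h2⟩
    obtain ⟨w, rfl⟩ := Sym2.mem_iff_exists.mp h2
    rw [SimpleGraph.mem_edgeSet] at h1
    rcases w with w | w
    · have h3 : w ≠ c.1 := h1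
      refine mem_image.mpr ⟨w, by simp [h3], ?_⟩
      unfold ed
      rw [Sym2.eq_swap]
    · exact absurd h1 (by simp [Gr, adj])
  · intro h1
    obtain ⟨h, h2, rfl⟩ := mem_image.mp h1
    have h3 : h ≠ c.1 := by simpa using h2
    refine ⟨?_, ?_⟩
    · rw [ed, SimpleGraph.mem_edgeSet]
      exact h3
    · simp [ed]

/-- zero or one -/
def z2 (c : Bool) : ZMod 2 := if c = true then 1 else 0

theorem par_hub (h : Fin 3) (α : Sym2 (Vx m) → Bool) :
    par (Gr m) (Sum.inl h) α =
      ∑ κ ∈ univ.filter (fun κ : Fin 3 => κ ≠ h), ∑ i : Fin m, z2 (α (ed h κ i)) := by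
  unfold par
  rw [inc_hub, card_eq_sum_ones, sum_filter, Nat.cast_sum, sum_image]
  · simp only [Nat.cast_ite, Nat.cast_one, Nat.cast_zero]
    rw [sum_filter, ← univ_product_univ, sum_product, sum_filter]
    refine sum_congr rfl fun κ _ => ?_
    by_cases hκ : κ ≠ h
    · simp [hκ, z2]
    · simp [hκ]
  · rintro ⟨a, b⟩ _ ⟨a', b'⟩ _ hab
    obtain ⟨-, h1, h2⟩ := ed_inj.mp hab
    exact Prod.ext h1 h2

theorem par_mid (c : Fin 3 × Fin m) (α : Sym2 (Vx m) → Bool) :
    par (Gr m) (Sum.inr c) α =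
      ∑ h ∈ univ.filter (fun h : Fin 3 => h ≠ c.1), z2 (α (ed h c.1 c.2)) := by
  unfold par
  rw [inc_mid, card_eq_sum_ones, sum_filter, Nat.cast_sum, sum_image]
  · simp only [Nat.cast_ite, Nat.cast_one, Nat.cast_zero, z2]
  · intro a _ a' _ hab
    exact (ed_inj.mp hab).1

end Pool.Agent.Helper95.Urq
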