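import Mathlib
import Pool.Agent.Helper95.UrqGraph

/-!
# Lower bound for regular refutations of the fat triangle
-/

set_option autoImplicit false

namespace Pool.Agent.Helper95.Urq

open Finset

variable {m : ℕ}

open Classical in
/-- the assignment of the edges given by the values `f h κ i` at the edges `ed h κ i` -/
noncomputable def asg (f : Fin 3 → Fin 3 → Fin m → Bool) : Sym2 (Vx m) → Bool :=
  fun e => decide (∃ h κ i, h ≠ κ ∧ e = ed h κ i ∧ f h κ i = true)

theorem asg_ed (f : Fin 3 → Fin 3 → Fin m → Bool) {h κ : Fin 3} (i : Fin m) (hk : h ≠ κ) :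
    asg f (ed h κ i) = f h κ i := by
  unfold asg
  cases hf : f h κ i
  · simp only [decide_eq_false_iff_not]
    rintro ⟨h', κ', i', -, h1, h2⟩
    obtain ⟨rfl, rfl, rfl⟩ := ed_inj.mp h1
    rw [hf] at h2
    exact absurd h2 (by simp)
  · simp only [decide_eq_true_eq]
    exact ⟨h, κ, i, hk, rfl, hf⟩

theorem asg_congr {f g : Fin 3 → Fin 3 → Fin m → Bool} {S : Finset (Sym2 (Vx m))}
    (hfg : ∀ h κ i, h ≠ κ → ed h κ i ∈ S → f h κ i = g h κ i) :
    ∀ e ∈ S, asg f e = asg g e := by
  intro e he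
  unfold asg
  congr 1
  apply propext
  constructor
  · rintro ⟨h, κ, i, h1, rfl, h2⟩
    exact ⟨h, κ, i, h1, rfl, by rw [← hfg h κ i h1 he]; exact h2⟩
  · rintro ⟨h, κ, i, h1, rfl, h2⟩
    exact ⟨h, κ, i, h1, rfl, by rw [hfg h κ i h1 he]; exact h2⟩

/-- assignment of the edges where both edges of each path of length two have the same value -/
noncomputable def aw (ω : Fin 3 × Fin m → Bool) : Sym2 (Vx m) → Bool :=
  asg fun _ κ i => ω (κ, i)

/-- parity of the values of a class -/
def cp (ω : Fin 3 × Fin m → Bool) (κ : Fin 3) : ZMod 2 := ∑ i, z2 (ω (κ, i))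

/-- the hub `h` is satisfied -/
def sat (h : Fin 3) (ω : Fin 3 × Fin m → Bool) : Prop :=
  ∑ κ ∈ univ.filter (fun κ : Fin 3 => κ ≠ h), cp ω κ = 1

theorem sum_two (F : Fin 3 → ZMod 2) {g a b : Fin 3} (h1 : a ≠ g) (h2 : b ≠ g) (h3 : a ≠ b) :
    ∑ κ ∈ univ.filter (fun κ : Fin 3 => κ ≠ g), F κ = F a + F b := by
  have : univ.filter (fun κ : Fin 3 => κ ≠ g) = {a, b} := by
    revert g a b
    decide
  rw [this, sum_pair h3]

theorem third (g : Fin 3) : ∃ a b : Fin 3, a ≠ g ∧ b ≠ g ∧ a ≠ b := by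
  revert g; decide

theorem other : ∀ h κ : Fin 3, ∃ h', h' ≠ κ ∧ h' ≠ h := by decide

theorem three : ∀ g h h' κ : Fin 3, h ≠ κ → h' ≠ κ → h' ≠ h → g = h ∨ g = h' ∨ g = κ := by
  decide

theorem z2_not (c : Bool) : z2 (!c) = z2 c + 1 := by
  cases c <;> decide

theorem sum_flip (g : Fin m → Bool) (i0 : Fin m) :
    ∑ i, z2 (Function.update g i0 (!g i0) i) = ∑ i, z2 (g i) + 1 := by
  classical
  rw [← add_sum_erase univ (fun i => z2 (Function.update g i0 (!g i0) i)) (mem_univ i0),
    ← add_sum_erase univ (fun i => z2 (g i)) (mem_univ i0)]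
  have : ∑ i ∈ univ.erase i0, z2 (Function.update g i0 (!g i0) i) =
      ∑ i ∈ univ.erase i0, z2 (g i) := by
    refine sum_congr rfl fun i hi => ?_
    rw [Function.update_of_ne (mem_erase.mp hi).1]
  rw [this, Function.update_self, z2_not]
  ring

theorem two_ne {a b : ZMod 2} (h : a ≠ b) : a = b + 1 := by
  revert a b; decide

/-- parities of classes can be changed at untouched coordinates -/
theorem exists_parity (ω : Fin 3 × Fin m → Bool) (T : Finset (Fin 3 × Fin m))
    (P' : Fin 3 → ZMod 2) (hP : ∀ κ, (∀ i, (κ, i) ∈ T) → P' κ = cp ω κ) :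
    ∃ ω' : Fin 3 × Fin m → Bool, (∀ c ∈ T, ω' c = ω c) ∧ ∀ κ, cp ω' κ = P' κ := by
  classical
  have key : ∀ κ, ∃ g : Fin m → Bool, (∀ i, (κ, i) ∈ T → g i = ω (κ, i)) ∧
      ∑ i, z2 (g i) = P' κ := by
    intro κ
    by_cases h1 : P' κ = cp ω κ
    · exact ⟨fun i => ω (κ, i), fun _ _ => rfl, h1.symm⟩
    · have h2 : ¬ ∀ i, (κ, i) ∈ T := fun h => h1 (hP κ h)
      push Not at h2
      obtain ⟨i0, h2⟩ := h2
      refine ⟨Function.update (fun i => ω (κ, i)) i0 (!ω (κ, i0)), ?_, ?_⟩
      · intro i hi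
        rw [Function.update_of_ne]
        rintro rfl
        exact h2 hi
      · rw [sum_flip (fun i => ω (κ, i)) i0, two_ne h1]
        rfl
  choose g hg using key
  exact ⟨fun c => g c.1 c.2, fun c hc => (hg c.1).1 c.2 hc, fun κ => (hg κ).2⟩

theorem pick1 : ∀ (full : Fin 3 → Bool) (P : Fin 3 → ZMod 2) (h : Fin 3),
    (∃ κ, full κ = false) →
    (∀ h', (∀ κ, κ ≠ h' → full κ = true) →
      ∑ κ ∈ univ.filter (fun κ : Fin 3 => κ ≠ h'), P κ = 1) →
    (∃ κ, κ ≠ h ∧ full κ = false) →
    ∃ P' : Fin 3 → ZMod 2, (∀ κ, full κ = true → P' κ = P κ) ∧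
      ∀ g, g ≠ h → ∑ κ ∈ univ.filter (fun κ : Fin 3 => κ ≠ g), P' κ = 1 := by
  decide +kernel

variable (R : Ref (Sym2 (Vx m)))

open Classical in
/-- coordinates touched in the first `k` steps -/
noncomputable def tch (ω : Fin 3 × Fin m → Bool) (k : ℕ) : Finset (Fin 3 × Fin m) :=
  univ.filter fun c => ∃ h, h ≠ c.1 ∧ ed h c.1 c.2 ∈ R.hist (aw ω) k

theorem mem_tch {ω : Fin 3 × Fin m → Bool} {k : ℕ} {c : Fin 3 × Fin m} :
    c ∈ tch R ω k ↔ ∃ h, h ≠ c.1 ∧ ed h c.1 c.2 ∈ R.hist (aw ω) k := by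
  unfold tch; simp

/-- all coordinates at the hub `h` belong to `T` -/
def comp (T : Finset (Fin 3 × Fin m)) (h : Fin 3) : Prop := ∀ c : Fin 3 × Fin m, c.1 ≠ h → c ∈ T

theorem comp_two {T : Finset (Fin 3 × Fin m)} {h h' : Fin 3} (h1 : comp T h) (h2 : comp T h')
    (hne : h ≠ h') : T = univ := by
  ext c
  simp only [mem_univ, iff_true]
  by_cases hc : c.1 = h
  · exact h2 c (by rw [hc]; exact hne)
  · exact h1 c hc

theorem par_aw_hub (ω : Fin 3 × Fin m → Bool) (h : Fin 3) :
    par (Gr m) (Sum.inl h) (aw ω) = ∑ κ ∈ univ.filter (fun κ : Fin 3 => κ ≠ h), cp ω κ := by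
  rw [par_hub]
  refine sum_congr rfl fun κ hκ => ?_
  unfold cp
  refine sum_congr rfl fun i _ => ?_
  unfold aw
  rw [asg_ed _ i (mem_filter.mp hκ).2.symm]

theorem par_aw_mid (ω : Fin 3 × Fin m → Bool) (c : Fin 3 × Fin m) :
    par (Gr m) (Sum.inr c) (aw ω) = 0 := by
  rw [par_mid]
  obtain ⟨a, b, h1, h2, h3⟩ := third c.1
  rw [sum_two _ h1 h2 h3]
  unfold aw
  rw [asg_ed _ _ h1, asg_ed _ _ h2]
  have : ∀ z : ZMod 2, z + z = 0 := by decide
  exact this _

variable (hax : ∀ i, R.b i = true → IsAx (Gr m) (lab m) (R.D i))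

include hax in
/-- the path of an assignment with a single violated vertex ends at this vertex -/
theorem end_vars {β : Sym2 (Vx m) → Bool} {v0 : Vx m}
    (hβ : ∀ v, par (Gr m) v β ≠ lab m v → v = v0) {e : Sym2 (Vx m)}
    (he : e ∈ (Gr m).incidenceFinset v0) (l : ℕ) (hl : R.b (R.node β l) = true) :
    e ∈ vars (R.D (R.node β l)) := by
  obtain ⟨v, h1, h2⟩ := ax_fals (Gr m) (lab m) (hax _ hl) (R.fals_node β l)
  rw [h2, hβ v h1]
  exact he

theorem ed_mem_hub {h κ : Fin 3} {i : Fin m} (hk : h ≠ κ) :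
    ed h κ i ∈ (Gr m).incidenceFinset (Sum.inl h) := by
  rw [inc_hub]
  exact mem_image.mpr ⟨(κ, i), by simp [hk.symm], rfl⟩

theorem ed_mem_mid {h κ : Fin 3} {i : Fin m} (hk : h ≠ κ) :
    ed h κ i ∈ (Gr m).incidenceFinset (Sum.inr (κ, i)) := by
  rw [inc_mid]
  exact mem_image.mpr ⟨h, by simp [hk], rfl⟩

include hax in
/-- touched coordinates are remembered as long as not everything has been touched -/
theorem remember (ω : Fin 3 × Fin m → Bool) (k : ℕ) (hT : tch R ω k ≠ univ)
    (hW : ∀ h, comp (tch R ω k) h → sat h ω) {c : Fin 3 × Fin m} (hc : c ∈ tch R ω k) :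
    ∃ h, h ≠ c.1 ∧ ed h c.1 c.2 ∈ vars (R.D (R.node (aw ω) k)) := by
  classical
  obtain ⟨κ, i⟩ := c
  by_cases hA : ∃ h, h ≠ κ ∧ ed h κ i ∈ R.hist (aw ω) k ∧ ¬ comp (tch R ω k) h
  · obtain ⟨h, h1, h2, h3⟩ := hA
    refine ⟨h, h1, ?_⟩
    -- parities
    obtain ⟨P', hP1, hP2⟩ := pick1 (fun κ => decide (∀ i, (κ, i) ∈ tch R ω k)) (cp ω) h (by
        by_contra hcon
        push Not at hcon
        apply hT
        ext ⟨κ', i'⟩
        simp only [mem_univ, iff_true]
        have := hcon κ'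
        simp only [ne_eq, Bool.not_eq_false, decide_eq_true_eq] at this
        exact this i')
      (by
        intro h' hh'
        apply hW h'
        intro c hc
        have := hh' c.1 hc
        simp only [decide_eq_true_eq] at this
        exact this c.2)
      (by
        unfold comp at h3
        push Not at h3
        obtain ⟨c, hc1, hc2⟩ := h3
        refine ⟨c.1, hc1, ?_⟩
        simp only [decide_eq_false_iff_not]
        intro hcon
        exact hc2 (hcon c.2))
    obtain ⟨ω', hω1, hω2⟩ := exists_parity ω (tch R ω k) P' (by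
      intro κ' hκ'
      apply hP1
      simpa using hκ')
    refine R.key (aw ω) (aw ω') k ?_ h2 ?_
    · unfold aw
      apply asg_congr
      intro h' κ' i' hh' hmem
      exact (hω1 (κ', i') ((mem_tch R).mpr ⟨h', hh', hmem⟩)).symm
    · intro l hl
      refine end_vars R hax (v0 := Sum.inl h) ?_ (ed_mem_hub h1) l hl
      intro v hv
      rcases v with g | c
      · by_contra hne
        apply hv
        rw [par_aw_hub]
        have hg : g ≠ h := fun hh => hne (by rw [hh])
        have := hP2 g hg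
        rw [sum_congr rfl fun κ _ => hω2 κ, this]
        rfl
      · exact absurd (par_aw_mid ω' c) hv
  · push Not at hA
    obtain ⟨h, h1, h2⟩ := (mem_tch R).mp hc
    simp only at h1 h2
    have h3 : comp (tch R ω k) h := hA h h1 h2
    refine ⟨h, h1, ?_⟩
    -- the other hub
    obtain ⟨h', h4, h5⟩ := other h κ
    have h6 : ed h' κ i ∉ R.hist (aw ω) k := by
      intro hmem
      exact hT (comp_two (hA h' h4 hmem) h3 h5)
    obtain ⟨ω', hω1, hω2⟩ := exists_parity ω (tch R ω k)
      (fun κ' => if κ' = h then cp ω κ else cp ω κ') (by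
        intro κ' hκ'
        by_cases hk : κ' = h
        · exfalso
          apply hT
          ext c
          simp only [mem_univ, iff_true]
          by_cases hc1 : c.1 = h
          · have := hκ' c.2
            rw [hk, ← hc1] at this
            exact this
          · exact h3 c hc1
        · simp [hk])
    have hsat := hW h h3
    unfold sat at hsat
    rw [sum_two _ h5 h1.symm h4] at hsat
    set f : Fin 3 → Fin 3 → Fin m → Bool := fun g κ' i' =>
      if g = h' ∧ κ' = κ ∧ i' = i then !ω' (κ', i') else ω' (κ', i') with hf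
    have hcp1 : ∀ g κ', (g ≠ h' ∨ κ' ≠ κ) → ∑ i', z2 (f g κ' i') = cp ω' κ' := by
      intro g κ' hg
      refine sum_congr rfl fun i' _ => ?_
      have : ¬ (g = h' ∧ κ' = κ ∧ i' = i) := by
        rintro ⟨a1, a2, -⟩
        rcases hg with hg | hg
        · exact hg a1
        · exact hg a2
      simp only [hf, this, if_false]
    have hcp2 : ∑ i', z2 (f h' κ i') = cp ω' κ + 1 := by
      rw [cp, ← sum_flip (fun i' => ω' (κ, i')) i]
      refine sum_congr rfl fun i' _ => ?_
      by_cases hi : i' = i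
      · subst hi; simp [hf]
      · rw [Function.update_of_ne hi]; simp [hf, hi]
    have hphub : ∀ g, par (Gr m) (Sum.inl g) (asg f) = 1 := by
      intro g
      rw [par_hub]
      have e1 : ∀ κ' ∈ univ.filter (fun κ' : Fin 3 => κ' ≠ g),
          ∑ i' : Fin m, z2 (asg f (ed g κ' i')) = ∑ i', z2 (f g κ' i') := by
        intro κ' hκ'
        refine sum_congr rfl fun i' _ => ?_
        rw [asg_ed _ i' (mem_filter.mp hκ').2.symm]
      rw [sum_congr rfl e1]
      have hg3 := three g h h' κ h1 h4 h5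
      rcases hg3 with rfl | rfl | rfl
      · rw [sum_two _ h5 h1.symm h4, hcp1 _ _ (Or.inl h5.symm), hcp1 _ _ (Or.inl h5.symm), hω2,
          hω2]
        simp only [h5, if_false, h1.symm]
        exact hsat
      · rw [sum_two _ h4.symm h5.symm h1.symm, hcp2, hcp1 _ _ (Or.inr h1), hω2, hω2]
        simp only [h1.symm, if_false, if_true]
        generalize cp ω κ = z
        revert z; decide
      · rw [sum_two _ h1 h4 h5.symm, hcp1 _ _ (Or.inr h1), hcp1 _ _ (Or.inr h4), hω2, hω2]
        simp only [h5, if_false, if_true]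
        rw [add_comm]; exact hsat
    have hpmid : ∀ c, c ≠ (κ, i) → par (Gr m) (Sum.inr c) (asg f) = 0 := by
      intro c hc
      rw [par_mid]
      obtain ⟨a, b, a1, a2, a3⟩ := third c.1
      rw [sum_two _ a1 a2 a3, asg_ed _ _ a1, asg_ed _ _ a2]
      have hn : ∀ g, ¬ (g = h' ∧ c.1 = κ ∧ c.2 = i) := by
        rintro g ⟨-, b1, b2⟩
        exact hc (Prod.ext b1 b2)
      simp only [hf, hn, if_false]
      have : ∀ z : ZMod 2, z + z = 0 := by decide
      exact this _
    refine R.key (aw ω) (asg f) k ?_ h2 ?_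
    · unfold aw
      apply asg_congr
      intro g κ' i' hg hmem
      have hn : ¬ (g = h' ∧ κ' = κ ∧ i' = i) := by
        rintro ⟨rfl, rfl, rfl⟩
        exact h6 hmem
      simp only [hf, hn, if_false]
      exact (hω1 (κ', i') ((mem_tch R).mpr ⟨g, hg, hmem⟩)).symm
    · intro l hl
      refine end_vars R hax (v0 := Sum.inr (κ, i)) ?_ (ed_mem_mid h1) l hl
      intro v hv
      rcases v with g | c
      · exact absurd (hphub g) hv
      · by_contra hne
        exact hv (hpmid c fun hh => hne (by rw [hh]))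

end Pool.Agent.Helper95.Urq
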