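import Mathlib
import Pool.Agent.Helper95.UrqLower

/-!
# Counting the clauses of a regular refutation of the fat triangle
-/

set_option autoImplicit false

namespace Pool.Agent.Helper95.Urq

open Finset

variable {m : ℕ} (R : Ref (Sym2 (Vx m)))
variable (hax : ∀ i, R.b i = true → IsAx (Gr m) (lab m) (R.D i))

theorem tch_mono (ω : Fin 3 × Fin m → Bool) {k l : ℕ} (h : k ≤ l) :
    tch R ω k ⊆ tch R ω l := by
  intro c hc
  obtain ⟨g, h1, h2⟩ := (mem_tch R).mp hc
  exact (mem_tch R).mpr ⟨g, h1, R.hist_mono _ h h2⟩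

theorem tch_zero (ω : Fin 3 × Fin m → Bool) : tch R ω 0 = ∅ := by
  ext c
  rw [mem_tch]
  simp [R.hist_zero]

theorem tch_new (ω : Fin 3 × Fin m → Bool) (k : ℕ) {c c' : Fin 3 × Fin m}
    (h1 : c ∈ tch R ω (k + 1)) (h2 : c ∉ tch R ω k) (h3 : c' ∈ tch R ω (k + 1))
    (h4 : c' ∉ tch R ω k) : c = c' := by
  have key : ∀ c, c ∈ tch R ω (k + 1) → c ∉ tch R ω k →
      ∃ h, ed h c.1 c.2 = R.y (R.node (aw ω) k) := by
    intro c h1 h2
    obtain ⟨h, h5, h6⟩ := (mem_tch R).mp h1
    cases hb : R.b (R.node (aw ω) k)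
    · rw [R.hist_succ_of_false _ _ hb, mem_insert] at h6
      rcases h6 with h6 | h6
      · exact ⟨h, h6⟩
      · exact absurd ((mem_tch R).mpr ⟨h, h5, h6⟩) h2
    · rw [R.hist_succ_of_true _ _ hb] at h6
      exact absurd ((mem_tch R).mpr ⟨h, h5, h6⟩) h2
  obtain ⟨h, h5⟩ := key c h1 h2
  obtain ⟨h', h6⟩ := key c' h3 h4
  rw [← h6] at h5
  obtain ⟨-, h7, h8⟩ := ed_inj.mp h5
  exact Prod.ext h7 h8

theorem tch_card_succ (ω : Fin 3 × Fin m → Bool) (k : ℕ) :
    (tch R ω (k + 1)).card ≤ (tch R ω k).card + 1 := by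
  have h1 : (tch R ω (k + 1) \ tch R ω k).card ≤ 1 := by
    rw [card_le_one]
    intro a ha b hb
    rw [mem_sdiff] at ha hb
    exact tch_new R ω k ha.1 ha.2 hb.1 hb.2
  have h2 := card_sdiff_add_card_eq_card (tch_mono R ω (l := k + 1) (Nat.le_succ k))
  omega

include hax in
/-- the path ends at a violated complete hub -/
theorem ends (ω : Fin 3 × Fin m → Bool) :
    ∃ l h, comp (tch R ω l) h ∧ ¬ sat h ω := by
  obtain ⟨l, hl⟩ := R.terminates (aw ω)
  obtain ⟨v, h1, h2⟩ := ax_fals (Gr m) (lab m) (hax _ hl) (R.fals_node (aw ω) l)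
  rcases v with h | c
  · refine ⟨l, h, ?_, ?_⟩
    · intro c hc
      refine (mem_tch R).mpr ⟨h, hc.symm, R.vars_node _ _ ?_⟩
      rw [h2]
      exact ed_mem_hub hc.symm
    · intro hs
      apply h1
      rw [par_aw_hub]
      exact hs
  · exact absurd (par_aw_mid ω c) h1

/-- no violated hub gets complete before everything is touched -/
def Nice (ω : Fin 3 × Fin m → Bool) : Prop :=
  ∀ k h, comp (tch R ω k) h → tch R ω k ≠ univ → sat h ω

include hax in
theorem level (ω : Fin 3 × Fin m → Bool) (hω : Nice R ω) {t : ℕ} (ht : t ≤ 3 * m) :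
    ∃ k, (tch R ω k).card = t := by
  classical
  obtain ⟨l, h, h1, h2⟩ := ends R hax ω
  have h3 : tch R ω l = univ := by
    by_contra hne
    exact h2 (hω l h h1 hne)
  have h4 : ∃ k, t ≤ (tch R ω k).card := by
    refine ⟨l, ?_⟩
    rw [h3, card_univ, Fintype.card_prod, Fintype.card_fin, Fintype.card_fin]
    exact ht
  refine ⟨Nat.find h4, le_antisymm ?_ (Nat.find_spec h4)⟩
  rcases hk : Nat.find h4 with _ | k
  · rw [tch_zero]; simp
  · have h5 := Nat.find_min h4 (m := k) (by omega)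
    have h6 := tch_card_succ R ω k
    omega

/-- the first completion of a hub -/
def FC (ω : Fin 3 × Fin m → Bool) (K : ℕ) (c : Fin 3 × Fin m) : Prop :=
  (∀ h, ¬ comp (tch R ω K) h) ∧ (∃ h, comp (tch R ω (K + 1)) h) ∧ c ∉ tch R ω K ∧
    c ∈ tch R ω (K + 1)

theorem comp_mono {T T' : Finset (Fin 3 × Fin m)} (h : T ⊆ T') {g : Fin 3} (hg : comp T g) :
    comp T' g := fun c hc => h (hg c hc)

theorem FC_unique {ω : Fin 3 × Fin m → Bool} {K K' : ℕ} {c c' : Fin 3 × Fin m}
    (h : FC R ω K c) (h' : FC R ω K' c') : K = K' ∧ c = c' := by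
  have hK : K = K' := by
    rcases lt_trichotomy K K' with hlt | heq | hlt
    · obtain ⟨g, hg⟩ := h.2.1
      exact absurd (comp_mono (tch_mono R ω hlt) hg) (h'.1 g)
    · exact heq
    · obtain ⟨g, hg⟩ := h'.2.1
      exact absurd (comp_mono (tch_mono R ω hlt) hg) (h.1 g)
  subst hK
  exact ⟨rfl, tch_new R ω K h.2.2.2 h.2.2.1 h'.2.2.2 h'.2.2.1⟩

include hax in
theorem FC_exists (hm : 0 < m) (ω : Fin 3 × Fin m → Bool) : ∃ K c, FC R ω K c := by
  classical
  obtain ⟨l, h, h1, -⟩ := ends R hax ω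
  have h4 : ∃ k, ∃ h, comp (tch R ω k) h := ⟨l, h, h1⟩
  have hmin := fun k => Nat.find_min h4 (m := k)
  have hsp := Nat.find_spec h4
  rcases hk : Nat.find h4 with _ | K
  · exfalso
    rw [hk, tch_zero] at hsp
    obtain ⟨g, hg⟩ := hsp
    obtain ⟨a, b, h5, -⟩ := third g
    exact absurd (hg (a, ⟨0, hm⟩) h5) (notMem_empty _)
  · rw [hk] at hsp
    have h5 : ∀ h, ¬ comp (tch R ω K) h := by
      intro g hg
      exact hmin K (by omega) ⟨g, hg⟩
    obtain ⟨g, hg⟩ := hsp
    have h6 : ∃ c : Fin 3 × Fin m, c.1 ≠ g ∧ c ∉ tch R ω K := by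
      by_contra hcon
      push Not at hcon
      exact h5 g hcon
    obtain ⟨c, hc1, hc2⟩ := h6
    exact ⟨K, c, h5, ⟨g, hg⟩, hc2, hg c hc1⟩

open Classical in
/-- flip one coordinate -/
noncomputable def flip (ω : Fin 3 × Fin m → Bool) (c : Fin 3 × Fin m) : Fin 3 × Fin m → Bool :=
  Function.update ω c (!ω c)

theorem flip_flip (ω : Fin 3 × Fin m → Bool) (c : Fin 3 × Fin m) :
    flip (flip ω c) c = ω := by
  unfold flip
  simp

theorem flip_tch {ω : Fin 3 × Fin m → Bool} {c : Fin 3 × Fin m} {K : ℕ}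
    (hc : c ∉ tch R ω K) {j : ℕ} (hj : j ≤ K + 1) : tch R (flip ω c) j = tch R ω j := by
  have hag : ∀ i ≤ K, ∀ e ∈ R.hist (aw ω) i, aw ω e = aw (flip ω c) e := by
    intro i hi
    unfold aw
    apply asg_congr
    intro h κ i' hk hmem
    unfold flip
    rw [Function.update_of_ne]
    rintro rfl
    exact hc ((mem_tch R).mpr ⟨h, hk, R.hist_mono _ hi hmem⟩)
  have h1 : R.hist (aw (flip ω c)) j = R.hist (aw ω) j := by
    rcases Nat.lt_or_ge j (K + 1) with h | h
    · exact (R.agree _ _ j (hag j (by omega))).2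
    · have : j = K + 1 := by omega
      subst this
      obtain ⟨h2, h3⟩ := R.agree _ _ K (hag K le_rfl)
      cases hb : R.b (R.node (aw ω) K)
      · rw [R.hist_succ_of_false _ _ hb, R.hist_succ_of_false _ _ (by rw [h2]; exact hb), h2, h3]
      · rw [R.hist_succ_of_true _ _ hb, R.hist_succ_of_true _ _ (by rw [h2]; exact hb), h3]
  ext d
  rw [mem_tch, mem_tch, h1]

theorem FC_flip {ω : Fin 3 × Fin m → Bool} {K : ℕ} {c : Fin 3 × Fin m} (h : FC R ω K c) :
    FC R (flip ω c) K c := by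
  unfold FC
  rw [flip_tch R h.2.2.1 (Nat.le_succ K), flip_tch R h.2.2.1 le_rfl]
  exact h

theorem sat_flip {ω : Fin 3 × Fin m → Bool} {c : Fin 3 × Fin m} {h : Fin 3} (hc : c.1 ≠ h)
    (hs : ¬ sat h ω) : sat h (flip ω c) := by
  obtain ⟨a, b, h1, h2, h3⟩ := third h
  unfold sat at hs ⊢
  have hcp : ∀ κ, cp (flip ω c) κ = if κ = c.1 then cp ω κ + 1 else cp ω κ := by
    intro κ
    unfold cp
    split_ifs with hk
    · subst hk
      rw [← sum_flip (fun i => ω (c.1, i)) c.2]
      refine sum_congr rfl fun i _ => ?_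
      unfold flip
      by_cases hi : i = c.2
      · subst hi; simp
      · rw [Function.update_of_ne hi, Function.update_of_ne]
        intro hcon
        exact hi (by rw [← hcon])
    · refine sum_congr rfl fun i _ => ?_
      unfold flip
      rw [Function.update_of_ne]
      intro hcon
      exact hk (by rw [← hcon])
  rw [sum_two _ h1 h2 h3] at hs ⊢
  rw [hcp, hcp]
  have hab : (a = c.1 ∧ b ≠ c.1) ∨ (a ≠ c.1 ∧ b = c.1) := by
    have : c.1 = a ∨ c.1 = b := by
      have := three c.1 a b h h1 h2 h3.symm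
      rcases this with h4 | h4 | h4
      · exact Or.inl h4
      · exact Or.inr h4
      · exact absurd h4 hc
    rcases this with h4 | h4
    · left; exact ⟨h4.symm, fun h5 => h3 (h4.symm.trans h5.symm)⟩
    · right; exact ⟨fun h5 => h3 (h5.trans h4), h4.symm⟩
  have hz : ∀ x y : ZMod 2, x + y ≠ 1 → (x + 1) + y = 1 ∧ x + (y + 1) = 1 := by decide
  rcases hab with ⟨h4, h5⟩ | ⟨h4, h5⟩
  · rw [if_pos h4, if_neg h5]
    exact (hz _ _ hs).1
  · rw [if_neg h4, if_pos h5]
    exact (hz _ _ hs).2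

theorem nice_flip {ω : Fin 3 × Fin m → Bool} {K : ℕ} {c : Fin 3 × Fin m} (h : FC R ω K c)
    (hn : ¬ Nice R ω) : Nice R (flip ω c) := by
  obtain ⟨h0, hh0⟩ := h.2.1
  -- the class of `c` is not `h0`
  have hc0 : c.1 ≠ h0 := by
    have : ∃ c' : Fin 3 × Fin m, c'.1 ≠ h0 ∧ c' ∉ tch R ω K := by
      by_contra hcon
      push Not at hcon
      exact h.1 h0 hcon
    obtain ⟨c', h1, h2⟩ := this
    have := tch_new R ω K h.2.2.2 h.2.2.1 (hh0 c' h1) h2
    rw [this]; exact h1
  have hle : ∀ ω' : Fin 3 × Fin m → Bool, FC R ω' K c → comp (tch R ω' (K + 1)) h0 →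
      ∀ k g, comp (tch R ω' k) g → tch R ω' k ≠ univ → g = h0 := by
    intro ω' hF hc' k g hg hne
    have hk : K + 1 ≤ k := by
      by_contra hcon
      exact hF.1 g (comp_mono (tch_mono R ω' (by omega)) hg)
    by_contra hgh
    exact hne (comp_two hg (comp_mono (tch_mono R ω' hk) hc') hgh)
  have hns : ¬ sat h0 ω := by
    unfold Nice at hn
    push Not at hn
    obtain ⟨k, g, h1, h2, h3⟩ := hn
    rw [← hle ω h hh0 k g h1 h2]
    exact h3
  intro k g h1 h2
  rw [hle _ (FC_flip R h) (by rw [flip_tch R h.2.2.1 le_rfl]; exact hh0) k g h1 h2]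
  exact sat_flip hc0 hns

open Classical in
include hax in
/-- at least half of the assignments are nice -/
theorem card_nice (hm : 0 < m) :
    2 ^ (3 * m) ≤ 2 * (univ.filter fun ω : Fin 3 × Fin m → Bool => Nice R ω).card := by
  choose K c hF using FC_exists R hax hm
  have h1 : (univ.filter fun ω : Fin 3 × Fin m → Bool => ¬ Nice R ω).card ≤
      (univ.filter fun ω : Fin 3 × Fin m → Bool => Nice R ω).card := by
    apply card_le_card_of_injOn (fun ω => flip ω (c ω))
    · intro ω hω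
      have : ¬ Nice R ω := by simpa using hω
      simpa using nice_flip R (hF ω) this
    · intro ω1 _ ω2 _ h12
      simp only at h12
      have e1 := FC_flip R (hF ω1)
      have e2 := FC_flip R (hF ω2)
      rw [h12] at e1
      have e3 := (FC_unique R e1 e2).2
      rw [← flip_flip ω1 (c ω1), h12, e3, flip_flip]
  have h2 : (univ.filter fun ω : Fin 3 × Fin m → Bool => Nice R ω).card +
      (univ.filter fun ω : Fin 3 × Fin m → Bool => ¬ Nice R ω).card = 2 ^ (3 * m) := by
    rw [card_filter_add_card_filter_not, card_univ, Fintype.card_fun, Fintype.card_bool,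
      Fintype.card_prod, Fintype.card_fin, Fintype.card_fin]
  omega

open Classical in
/-- coordinates of a clause -/
noncomputable def crd (i : Fin R.n) : Finset (Fin 3 × Fin m) :=
  univ.filter fun c => ∃ h, h ≠ c.1 ∧ ed h c.1 c.2 ∈ vars (R.D i)

theorem mem_crd {i : Fin R.n} {c : Fin 3 × Fin m} :
    c ∈ crd R i ↔ ∃ h, h ≠ c.1 ∧ ed h c.1 c.2 ∈ vars (R.D i) := by
  unfold crd; simp

include hax in
theorem crd_eq (ω : Fin 3 × Fin m → Bool) (hω : Nice R ω) (k : ℕ) (hT : tch R ω k ≠ univ) :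
    crd R (R.node (aw ω) k) = tch R ω k := by
  ext c
  constructor
  · intro hc
    obtain ⟨h, h1, h2⟩ := (mem_crd R).mp hc
    exact (mem_tch R).mpr ⟨h, h1, R.vars_node _ _ h2⟩
  · intro hc
    exact (mem_crd R).mpr (remember R hax ω k hT (fun h hh => hω k h hh hT) hc)

theorem agree_of_node {ω ω' : Fin 3 × Fin m → Bool} {k k' : ℕ}
    (h : R.node (aw ω) k = R.node (aw ω') k') {c : Fin 3 × Fin m}
    (hc : c ∈ crd R (R.node (aw ω) k)) : ω c = ω' c := by
  obtain ⟨g, h1, h2⟩ := (mem_crd R).mp hc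
  obtain ⟨v, hv⟩ := mem_vars.mp h2
  have e1 := R.fals_node (aw ω) k _ _ hv
  rw [h] at hv
  have e2 := R.fals_node (aw ω') k' _ _ hv
  unfold aw at e1 e2
  rw [asg_ed _ _ h1] at e1 e2
  exact e1.trans e2.symm

theorem card_agree {ι : Type} [Fintype ι] [DecidableEq ι] (T : Finset ι) (ω0 : ι → Bool) :
    (univ.filter fun ω : ι → Bool => ∀ c ∈ T, ω c = ω0 c).card =
      2 ^ (Fintype.card ι - T.card) := by
  have : (univ.filter fun ω : ι → Bool => ∀ c ∈ T, ω c = ω0 c) =
      Fintype.piFinset fun c => if c ∈ T then {ω0 c} else univ := by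
    ext ω
    simp only [mem_filter, mem_univ, true_and, Fintype.mem_piFinset]
    refine forall_congr' fun c => ?_
    by_cases hc : c ∈ T <;> simp [hc]
  rw [this, Fintype.card_piFinset]
  have h2 : ∀ c, (if c ∈ T then ({ω0 c} : Finset Bool) else univ).card = if c ∈ T then 1 else 2 := by
    intro c
    by_cases hc : c ∈ T <;> simp [hc]
  simp only [h2]
  rw [prod_ite]
  simp only [prod_const, one_pow, one_mul]
  congr 1
  rw [filter_not, card_sdiff_of_subset (filter_subset _ _), card_univ]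
  congr 2
  ext c; simp

open Classical in
include hax in
theorem card_level (hm : 0 < m) {t : ℕ} (ht1 : 1 ≤ t) (ht : t < 3 * m) :
    2 ^ (t - 1) ≤ (univ.filter fun i : Fin R.n => (crd R i).card = t).card := by
  set W := univ.filter fun ω : Fin 3 × Fin m → Bool => Nice R ω with hWdef
  have hlev : ∀ ω : Fin 3 × Fin m → Bool, ∃ k, Nice R ω → (tch R ω k).card = t := by
    intro ω
    by_cases hω : Nice R ω
    · obtain ⟨k, hk⟩ := level R hax ω hω ht.le
      exact ⟨k, fun _ => hk⟩
    · exact ⟨0, fun h => absurd h hω⟩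
  choose K hK using hlev
  have hne : ∀ ω, Nice R ω → tch R ω (K ω) ≠ univ := by
    intro ω hω hcon
    have := hK ω hω
    rw [hcon, card_univ, Fintype.card_prod, Fintype.card_fin, Fintype.card_fin] at this
    omega
  set F : (Fin 3 × Fin m → Bool) → Fin R.n := fun ω => R.node (aw ω) (K ω) with hF
  have hsub : W.image F ⊆ univ.filter fun i : Fin R.n => (crd R i).card = t := by
    intro i hi
    obtain ⟨ω, h1, rfl⟩ := mem_image.mp hi
    have hω : Nice R ω := (mem_filter.mp h1).2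
    rw [mem_filter]
    refine ⟨mem_univ _, ?_⟩
    rw [crd_eq R hax ω hω (K ω) (hne ω hω)]
    exact hK ω hω
  have hfib : ∀ i ∈ W.image F, (W.filter fun ω => F ω = i).card ≤ 2 ^ (3 * m - t) := by
    intro i hi
    obtain ⟨ω0, h1, rfl⟩ := mem_image.mp hi
    have hω0 : Nice R ω0 := (mem_filter.mp h1).2
    have h3 : (W.filter fun ω => F ω = F ω0) ⊆
        univ.filter fun ω : Fin 3 × Fin m → Bool => ∀ c ∈ crd R (F ω0), ω c = ω0 c := by
      intro ω hω
      rw [mem_filter] at hω
      rw [mem_filter]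
      refine ⟨mem_univ _, fun c hc => ?_⟩
      exact (agree_of_node R hω.2.symm hc).symm
    refine (card_le_card h3).trans ?_
    rw [card_agree, Fintype.card_prod, Fintype.card_fin, Fintype.card_fin,
      crd_eq R hax ω0 hω0 (K ω0) (hne ω0 hω0), hK ω0 hω0]
  have h4 := card_le_mul_card_image W (2 ^ (3 * m - t)) hfib
  have h5 := card_nice R hax hm
  have h6 := card_le_card hsub
  have h7 : 2 ^ (3 * m) = 2 * (2 ^ (3 * m - t) * 2 ^ (t - 1)) := by
    rw [← pow_add, ← pow_succ']
    congr 1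
    omega
  have h8 : 2 * (2 ^ (3 * m - t) * 2 ^ (t - 1)) ≤ 2 * (2 ^ (3 * m - t) * (W.image F).card) := by
    rw [← h7]
    exact h5.trans (Nat.mul_le_mul_left 2 h4)
  have h9 : 2 ^ (t - 1) ≤ (W.image F).card := by
    have h10 := Nat.le_of_mul_le_mul_left h8 (by norm_num)
    exact Nat.le_of_mul_le_mul_left h10 (by positivity)
  exact h9.trans h6

include hax in
/-- every regular refutation has at least `2 ^ (3 m - 1) - 1` clauses -/
theorem regular_lower (hm : 0 < m) : 2 ^ (3 * m - 1) - 1 ≤ R.n := by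
  classical
  have h1 : ∑ t ∈ range (3 * m - 1),
      (univ.filter fun i : Fin R.n => (crd R i).card = t + 1).card ≤ R.n := by
    have h2 : (((range (3 * m - 1)).biUnion fun t =>
        univ.filter fun i : Fin R.n => (crd R i).card = t + 1)).card ≤ R.n := by
      refine (card_le_univ _).trans ?_
      rw [Fintype.card_fin]
    rw [card_biUnion] at h2
    · exact h2
    · intro a _ b _ hab
      rw [Function.onFun, disjoint_left]
      intro i hi hj
      have e1 := (mem_filter.mp hi).2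
      have e2 := (mem_filter.mp hj).2
      omega
  refine le_trans ?_ h1
  have h3 : ∑ t ∈ range (3 * m - 1), 2 ^ t = 2 ^ (3 * m - 1) - 1 := by
    rw [Nat.geomSum_eq (le_refl 2)]
    simp
  rw [← h3]
  refine sum_le_sum fun t ht => ?_
  rw [mem_range] at ht
  have := card_level R hax hm (t := t + 1) (by omega) (by omega)
  simpa using this

end Pool.Agent.Helper95.Urq
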