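import Mathlib
import Pool.Agent.Helper95.UrqGraph

/-!
# A calculus for building resolution derivations
-/

set_option autoImplicit false

namespace Pool.Agent.Helper95.Urq

open Finset

section calculus

variable {E : Type} [DecidableEq E]

/-- lists of clauses (latest first) that are resolution derivations from the initial clauses `Ax` -/
inductive Drv (Ax : Finset (E × Bool) → Prop) : List (Finset (E × Bool)) → Prop
  | nil : Drv Ax []
  | ax {L : List (Finset (E × Bool))} {C : Finset (E × Bool)} (h : Drv Ax L) (hC : Ax C) :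
      Drv Ax (C :: L)
  | res {L : List (Finset (E × Bool))} {P Q : Finset (E × Bool)} {e : E} (h : Drv Ax L)
      (hP : P ∈ L) (hQ : Q ∈ L) (h1 : (e, true) ∈ P) (h2 : (e, false) ∈ Q) :
      Drv Ax ((P.erase (e, true) ∪ Q.erase (e, false)) :: L)

/-- `C` is subsumed by a member of `L` -/
def Subs (L : List (Finset (E × Bool))) (C : Finset (E × Bool)) : Prop := ∃ D ∈ L, D ⊆ C

/-- From clauses subsuming those of `T` one gets clauses subsuming those of `T'` by adding at
most `n` clauses to the derivation. -/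
def Stp (Ax : Finset (E × Bool) → Prop) (T : Set (Finset (E × Bool))) (n : ℕ)
    (T' : Set (Finset (E × Bool))) : Prop :=
  ∀ L, Drv Ax L → (∀ C ∈ T, Subs L C) →
    ∃ L', Drv Ax L' ∧ L ⊆ L' ∧ L'.length ≤ L.length + n ∧ ∀ C ∈ T', Subs L' C

variable {Ax : Finset (E × Bool) → Prop}

theorem Subs.mono {L L' : List (Finset (E × Bool))} (h : L ⊆ L') {C C' : Finset (E × Bool)}
    (hC : C ⊆ C') (hs : Subs L C) : Subs L' C' := by
  obtain ⟨D, h1, h2⟩ := hs
  exact ⟨D, h h1, h2.trans hC⟩

theorem Stp.weak {T T' : Set (Finset (E × Bool))} (h : ∀ C ∈ T', ∃ C' ∈ T, C' ⊆ C) :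
    Stp Ax T 0 T' := by
  intro L hL hT
  refine ⟨L, hL, List.Subset.refl _, le_rfl, fun C hC => ?_⟩
  obtain ⟨C', h1, h2⟩ := h C hC
  exact (hT C' h1).mono (List.Subset.refl _) h2

theorem Stp.mono {T : Set (Finset (E × Bool))} {n n' : ℕ} {T' : Set (Finset (E × Bool))}
    (h : Stp Ax T n T') (hn : n ≤ n') : Stp Ax T n' T' := by
  intro L hL hT
  obtain ⟨L', h1, h2, h3, h4⟩ := h L hL hT
  exact ⟨L', h1, h2, by omega, h4⟩

theorem Stp.trans {T : Set (Finset (E × Bool))} {n n' : ℕ} {T' T'' : Set (Finset (E × Bool))}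
    (h : Stp Ax T n T') (h' : Stp Ax (T ∪ T') n' T'') : Stp Ax T (n + n') (T' ∪ T'') := by
  intro L hL hT
  obtain ⟨L', h1, h2, h3, h4⟩ := h L hL hT
  obtain ⟨L'', h5, h6, h7, h8⟩ := h' L' h1 (by
    rintro C (hC | hC)
    · exact (hT C hC).mono h2 subset_rfl
    · exact h4 C hC)
  refine ⟨L'', h5, fun _ hx => h6 (h2 hx), by omega, ?_⟩
  rintro C (hC | hC)
  · exact (h4 C hC).mono h6 subset_rfl
  · exact h8 C hC

theorem Stp.left {T : Set (Finset (E × Bool))} {n : ℕ} {T' T'' : Set (Finset (E × Bool))}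
    (h : Stp Ax T n T') (hs : T'' ⊆ T') : Stp Ax T n T'' := by
  intro L hL hT
  obtain ⟨L', h1, h2, h3, h4⟩ := h L hL hT
  exact ⟨L', h1, h2, h3, fun C hC => h4 C (hs hC)⟩

theorem Stp.pre {T T1 : Set (Finset (E × Bool))} {n : ℕ} {T' : Set (Finset (E × Bool))}
    (h : Stp Ax T n T') (hs : ∀ C ∈ T, ∃ C' ∈ T1, C' ⊆ C) : Stp Ax T1 n T' := by
  intro L hL hT
  refine h L hL fun C hC => ?_
  obtain ⟨C', h1, h2⟩ := hs C hC
  exact (hT C' h1).mono (List.Subset.refl _) h2

theorem Stp.leafStep {T : Set (Finset (E × Bool))} {C D : Finset (E × Bool)} (hD : Ax D)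
    (h : D ⊆ C) : Stp Ax T 1 {C} := by
  intro L hL _
  refine ⟨D :: L, Drv.ax hL hD, List.subset_cons_self _ _, by simp, ?_⟩
  rintro C' rfl
  exact ⟨D, List.mem_cons_self, h⟩

theorem Stp.res {T : Set (Finset (E × Bool))} {C : Finset (E × Bool)} (e : E)
    (h1 : ∃ C' ∈ T, C' ⊆ insert (e, true) C) (h2 : ∃ C' ∈ T, C' ⊆ insert (e, false) C) :
    Stp Ax T 1 {C} := by
  intro L hL hT
  obtain ⟨C1, hC1, h1⟩ := h1
  obtain ⟨C2, hC2, h2⟩ := h2
  obtain ⟨P, hP, hP1⟩ := hT C1 hC1
  obtain ⟨Q, hQ, hQ1⟩ := hT C2 hC2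
  have hP2 := hP1.trans h1
  have hQ2 := hQ1.trans h2
  by_cases h3 : (e, true) ∈ P
  · by_cases h4 : (e, false) ∈ Q
    · refine ⟨_, Drv.res hL hP hQ h3 h4, List.subset_cons_self _ _, by simp, ?_⟩
      rintro C' rfl
      refine ⟨_, List.mem_cons_self, ?_⟩
      intro x hx
      rcases mem_union.mp hx with hx | hx
      · obtain ⟨hx1, hx2⟩ := mem_erase.mp hx
        exact (mem_insert.mp (hP2 hx2)).resolve_left hx1
      · obtain ⟨hx1, hx2⟩ := mem_erase.mp hx
        exact (mem_insert.mp (hQ2 hx2)).resolve_left hx1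
    · refine ⟨L, hL, List.Subset.refl _, by omega, ?_⟩
      rintro C' rfl
      refine ⟨Q, hQ, fun x hx => ?_⟩
      rcases mem_insert.mp (hQ2 hx) with h5 | h5
      · rw [h5] at hx; exact absurd hx h4
      · exact h5
  · refine ⟨L, hL, List.Subset.refl _, by omega, ?_⟩
    rintro C' rfl
    refine ⟨P, hP, fun x hx => ?_⟩
    rcases mem_insert.mp (hP2 hx) with h5 | h5
    · rw [h5] at hx; exact absurd hx h3
    · exact h5

/-- many clauses, each with the same cost -/
theorem Stp.family {ι : Type} (s : Finset ι) (f : ι → Finset (E × Bool))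
    {T : Set (Finset (E × Bool))} {n : ℕ} (h : ∀ j ∈ s, Stp Ax T n {f j}) :
    Stp Ax T (s.card * n) {C | ∃ j ∈ s, f j = C} := by
  classical
  induction s using Finset.induction_on with
  | empty =>
    refine (Stp.weak ?_).mono (Nat.zero_le _)
    rintro C ⟨j, hj, -⟩
    exact absurd hj (notMem_empty _)
  | insert j s hj ih =>
    have h1 := ih fun i hi => h i (mem_insert_of_mem hi)
    have h2 := (h j (mem_insert_self _ _)).pre (T1 := T ∪ {C | ∃ j ∈ s, f j = C})
      (fun C hC => ⟨C, Or.inl hC, subset_rfl⟩)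
    rw [card_insert_of_notMem hj, Nat.add_mul, one_mul]
    refine (h1.trans h2).left ?_
    rintro C ⟨i, hi, rfl⟩
    rcases mem_insert.mp hi with rfl | hi
    · exact Or.inr rfl
    · exact Or.inl ⟨i, hi, rfl⟩

/-- the literals falsified by `a` on the list of variables `es` -/
def lits (es : List E) (a : E → Bool) : Finset (E × Bool) :=
  es.toFinset.image fun e => (e, !a e)

/-- decision tree over the variables `es` -/
theorem Stp.tree (es : List E) : ∀ {T : Set (Finset (E × Bool))} {C : Finset (E × Bool)},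
    (∀ a : E → Bool, ∃ C' ∈ T, C' ⊆ C ∪ lits es a) → Stp Ax T (2 ^ es.length - 1) {C} := by
  induction es with
  | nil =>
    intro T C h
    refine Stp.weak ?_
    rintro C' rfl
    obtain ⟨D, h1, h2⟩ := h fun _ => true
    exact ⟨D, h1, by simpa [lits] using h2⟩
  | cons e es ih =>
    intro T C h
    have key : ∀ v : Bool, Stp Ax T (2 ^ es.length - 1) {insert (e, !v) C} := by
      intro v
      apply ih
      intro a
      obtain ⟨D, h1, h2⟩ := h (Function.update a e v)
      refine ⟨D, h1, h2.trans ?_⟩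
      intro x hx
      rcases mem_union.mp hx with hx | hx
      · exact mem_union_left _ (mem_insert_of_mem hx)
      · unfold lits at hx
        obtain ⟨e', he', rfl⟩ := mem_image.mp hx
        by_cases hee : e' = e
        · subst hee
          rw [Function.update_self]
          exact mem_union_left _ (mem_insert_self _ _)
        · rw [Function.update_of_ne hee]
          refine mem_union_right _ (mem_image.mpr ⟨e', ?_, rfl⟩)
          rw [List.mem_toFinset] at he' ⊢
          exact (List.mem_cons.mp he').resolve_left hee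
    have h1 := key false
    have h2 := (key true).pre (T1 := T ∪ {insert (e, !false) C})
      (fun C hC => ⟨C, Or.inl hC, subset_rfl⟩)
    have h3 := h1.trans h2
    have h4 : Stp Ax (T ∪ ({insert (e, !false) C} ∪ {insert (e, !true) C})) 1 {C} := by
      refine Stp.res e ?_ ?_
      · exact ⟨insert (e, true) C, Or.inr (Or.inl rfl), subset_rfl⟩
      · exact ⟨insert (e, false) C, Or.inr (Or.inr rfl), subset_rfl⟩
    have h5 := h3.trans h4
    refine (h5.left (fun x hx => Or.inr hx)).mono ?_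
    have : 1 ≤ 2 ^ es.length := Nat.one_le_two_pow
    rw [List.length_cons, pow_succ]
    omega

end calculus

/-! ## From derivations to sequences -/

section conversion

variable {E : Type} [DecidableEq E] {Ax : Finset (E × Bool) → Prop}

theorem Drv.toSeq {L : List (Finset (E × Bool))} (h : Drv Ax L) :
    ∃ C : Fin L.length → Finset (E × Bool),
      (∀ i, Ax (C i) ∨ ∃ p q : Fin L.length, ∃ e : E, p < i ∧ q < i ∧ (e, true) ∈ C p ∧
        (e, false) ∈ C q ∧ C i = (C p).erase (e, true) ∪ (C q).erase (e, false)) ∧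
      ∀ D ∈ L, ∃ i, C i = D := by
  induction h with
  | nil => exact ⟨fun i => ∅, fun i => i.elim0, fun D hD => absurd hD (by simp)⟩
  | @ax L D h hD ih =>
    obtain ⟨C, h1, h2⟩ := ih
    refine ⟨Fin.snoc (α := fun _ => Finset (E × Bool)) C D, ?_, ?_⟩
    · intro i
      refine Fin.lastCases ?_ (fun j => ?_) i
      · left; rw [Fin.snoc_last]; exact hD
      · rw [Fin.snoc_castSucc]
        rcases h1 j with h3 | ⟨p, q, e, h3, h4, h5, h6, h7⟩
        · exact Or.inl h3
        · refine Or.inr ⟨p.castSucc, q.castSucc, e, Fin.castSucc_lt_castSucc_iff.mpr h3,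
            Fin.castSucc_lt_castSucc_iff.mpr h4, ?_, ?_, ?_⟩
          · rw [Fin.snoc_castSucc]; exact h5
          · rw [Fin.snoc_castSucc]; exact h6
          · rw [Fin.snoc_castSucc, Fin.snoc_castSucc]; exact h7
    · intro D' hD'
      rcases List.mem_cons.mp hD' with rfl | h3
      · exact ⟨Fin.last _, Fin.snoc_last _ _⟩
      · obtain ⟨i, hi⟩ := h2 D' h3
        exact ⟨i.castSucc, by rw [Fin.snoc_castSucc]; exact hi⟩
  | @res L P Q e h hP hQ he1 he2 ih =>
    obtain ⟨C, h1, h2⟩ := ih
    refine ⟨Fin.snoc (α := fun _ => Finset (E × Bool)) C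
      (P.erase (e, true) ∪ Q.erase (e, false)), ?_, ?_⟩
    · intro i
      refine Fin.lastCases ?_ (fun j => ?_) i
      · right
        obtain ⟨p, hp⟩ := h2 P hP
        obtain ⟨q, hq⟩ := h2 Q hQ
        refine ⟨p.castSucc, q.castSucc, e, Fin.castSucc_lt_last p, Fin.castSucc_lt_last q,
          ?_, ?_, ?_⟩
        · rw [Fin.snoc_castSucc, hp]; exact he1
        · rw [Fin.snoc_castSucc, hq]; exact he2
        · rw [Fin.snoc_castSucc, Fin.snoc_castSucc, Fin.snoc_last, hp, hq]
      · rw [Fin.snoc_castSucc]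
        rcases h1 j with h3 | ⟨p, q, e, h3, h4, h5, h6, h7⟩
        · exact Or.inl h3
        · refine Or.inr ⟨p.castSucc, q.castSucc, e, Fin.castSucc_lt_castSucc_iff.mpr h3,
            Fin.castSucc_lt_castSucc_iff.mpr h4, ?_, ?_, ?_⟩
          · rw [Fin.snoc_castSucc]; exact h5
          · rw [Fin.snoc_castSucc]; exact h6
          · rw [Fin.snoc_castSucc, Fin.snoc_castSucc]; exact h7
    · intro D' hD'
      rcases List.mem_cons.mp hD' with rfl | h3
      · exact ⟨Fin.last _, Fin.snoc_last _ _⟩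
      · obtain ⟨i, hi⟩ := h2 D' h3
        exact ⟨i.castSucc, by rw [Fin.snoc_castSucc]; exact hi⟩

end conversion

end Pool.Agent.Helper95.Urq
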