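import Mathlib
import Pool.Agent.Helper95.UrqStep
import Pool.Agent.Helper95.UrqLower

/-!
# A short irregular refutation of the fat triangle
-/

set_option autoImplicit false

namespace Pool.Agent.Helper95.Urq

open Finset

variable {m : ℕ}

/-- the literals falsified when the edges `ed h κ i` have the values `a i` -/
def At (h κ : Fin 3) (a : Fin m → Bool) : Finset (Sym2 (Vx m) × Bool) :=
  univ.image fun i => (ed h κ i, !a i)

/-- parity of a vector -/
def pa (a : Fin m → Bool) : ZMod 2 := ∑ i, z2 (a i)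

open Classical in
/-- vectors of a given parity -/
noncomputable def vec (m : ℕ) (ε : ZMod 2) : Finset (Fin m → Bool) :=
  univ.filter fun a => pa a = ε

theorem mem_vec {ε : ZMod 2} {a : Fin m → Bool} : a ∈ vec m ε ↔ pa a = ε := by
  unfold vec; simp

theorem card_vec (hm : 0 < m) (ε : ZMod 2) : (vec m ε).card ≤ 2 ^ (m - 1) := by
  classical
  have h1 : ∀ ε : ZMod 2, (vec m ε).card ≤ (vec m (ε + 1)).card := by
    intro ε
    apply card_le_card_of_injOn (fun a => Function.update a ⟨0, hm⟩ (!a ⟨0, hm⟩))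
    · intro a ha
      have h2 : pa a = ε := mem_vec.mp ha
      have h3 : pa (Function.update a ⟨0, hm⟩ (!a ⟨0, hm⟩)) = ε + 1 := by
        unfold pa at *
        rw [sum_flip, h2]
      exact mem_vec.mpr h3
    · intro a _ b _ hab
      simp only at hab
      funext i
      by_cases hi : i = ⟨0, hm⟩
      · subst hi
        have := congr_fun hab ⟨0, hm⟩
        simpa using this
      · have := congr_fun hab i
        rwa [Function.update_of_ne hi, Function.update_of_ne hi] at this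
  have h2 : (vec m 0).card + (vec m 1).card = 2 ^ m := by
    have h3 : vec m 1 = univ.filter fun a => ¬ pa a = 0 := by
      ext a
      rw [mem_vec, mem_filter]
      simp only [mem_univ, true_and]
      generalize pa a = z
      revert z; decide
    rw [h3]
    unfold vec
    rw [card_filter_add_card_filter_not, card_univ, Fintype.card_fun, Fintype.card_bool,
      Fintype.card_fin]
  have h3 := h1 0
  have h4 := h1 1
  have h5 : (1 : ZMod 2) + 1 = 0 := by decide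
  rw [h5] at h4
  rw [zero_add] at h3
  have h6 : 2 ^ m = 2 * 2 ^ (m - 1) := by
    rw [← pow_succ']
    congr 1
    omega
  have h7 : ε = 0 ∨ ε = 1 := by revert ε; decide
  rcases h7 with rfl | rfl <;> omega

/-- initial clauses of the formula -/
abbrev AX (m : ℕ) : Finset (Sym2 (Vx m) × Bool) → Prop := IsAx (Gr m) (lab m)

theorem hub_leaf {g κ1 κ2 : Fin 3} (h1 : κ1 ≠ g) (h2 : κ2 ≠ g) (h3 : κ1 ≠ κ2)
    {a c : Fin m → Bool} (hac : pa a + pa c ≠ 1) {T : Set (Finset (Sym2 (Vx m) × Bool))} :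
    Stp (AX m) T 1 {At g κ1 a ∪ At g κ2 c} := by
  set f : Fin 3 → Fin 3 → Fin m → Bool := fun _ κ i => if κ = κ1 then a i else c i with hf
  have hpar : par (Gr m) (Sum.inl g) (asg f) ≠ lab m (Sum.inl g) := by
    rw [par_hub, sum_two _ h1 h2 h3]
    have e1 : ∑ i, z2 (asg f (ed g κ1 i)) = pa a := by
      refine sum_congr rfl fun i _ => ?_
      rw [asg_ed _ _ h1.symm]; simp [hf]
    have e2 : ∑ i, z2 (asg f (ed g κ2 i)) = pa c := by
      refine sum_congr rfl fun i _ => ?_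
      rw [asg_ed _ _ h2.symm]; simp [hf, h3.symm]
    rw [e1, e2]
    exact hac
  refine Stp.leafStep (isAx_of (Gr m) (lab m) hpar) ?_
  intro x hx
  obtain ⟨e, he, rfl⟩ := mem_image.mp hx
  rw [inc_hub] at he
  obtain ⟨⟨κ, i⟩, hk, rfl⟩ := mem_image.mp he
  have hk' : κ ≠ g := by simpa using hk
  simp only
  rw [asg_ed _ _ hk'.symm]
  have hκ : κ = κ1 ∨ κ = κ2 := by
    rcases three κ κ1 κ2 g h1 h2 h3.symm with h | h | h
    · exact Or.inl h
    · exact Or.inr h
    · exact absurd h hk'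
  rcases hκ with rfl | rfl
  · refine mem_union_left _ (mem_image.mpr ⟨i, mem_univ _, ?_⟩)
    simp [hf]
  · refine mem_union_right _ (mem_image.mpr ⟨i, mem_univ _, ?_⟩)
    simp [hf, h3.symm]

theorem mid_leaf {h h' κ : Fin 3} (h1 : h ≠ κ) (h2 : h' ≠ κ) (h3 : h ≠ h') (i : Fin m)
    (v : Bool) {T : Set (Finset (Sym2 (Vx m) × Bool))} :
    Stp (AX m) T 1 {{(ed h κ i, !v), (ed h' κ i, v)}} := by
  set f : Fin 3 → Fin 3 → Fin m → Bool := fun g _ _ => if g = h then v else !v with hf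
  have hpar : par (Gr m) (Sum.inr (κ, i)) (asg f) ≠ lab m (Sum.inr (κ, i)) := by
    rw [par_mid, sum_two _ h1 h2 h3]
    simp only
    rw [asg_ed _ _ h1, asg_ed _ _ h2]
    simp only [hf, if_true, h3.symm, if_false, z2_not]
    change z2 v + (z2 v + 1) ≠ 0
    generalize z2 v = z
    revert z; decide
  refine Stp.leafStep (isAx_of (Gr m) (lab m) hpar) ?_
  intro x hx
  obtain ⟨e, he, rfl⟩ := mem_image.mp hx
  rw [inc_mid] at he
  obtain ⟨g, hg, rfl⟩ := mem_image.mp he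
  have hg' : g ≠ κ := by simpa using hg
  simp only
  rw [asg_ed _ _ hg']
  have hgh : g = h ∨ g = h' := by
    rcases three g h h' κ h1 h2 h3.symm with h | h | h
    · exact Or.inl h
    · exact Or.inr h
    · exact absurd h hg'
  rcases hgh with rfl | rfl
  · simp [hf]
  · simp [hf, h3.symm]

/-- decision tree over a class at a hub -/
theorem tree_at (h κ : Fin 3) {T : Set (Finset (Sym2 (Vx m) × Bool))}
    {C : Finset (Sym2 (Vx m) × Bool)}
    (H : ∀ a : Fin m → Bool, ∃ C' ∈ T, C' ⊆ C ∪ At h κ a) : Stp (AX m) T (2 ^ m - 1) {C} := by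
  have := Stp.tree (Ax := AX m) (List.ofFn fun i : Fin m => ed h κ i) (T := T) (C := C) (by
    intro a
    obtain ⟨D, h1, h2⟩ := H fun i => a (ed h κ i)
    refine ⟨D, h1, h2.trans (union_subset_union_right ?_)⟩
    intro x hx
    obtain ⟨i, -, rfl⟩ := mem_image.mp hx
    refine mem_image.mpr ⟨ed h κ i, ?_, rfl⟩
    rw [List.mem_toFinset, List.mem_ofFn]
    exact ⟨i, rfl⟩)
  rwa [List.length_ofFn] at this

/-- move a class from one hub to the other -/
theorem conv {h h' κ : Fin 3} (h1 : h ≠ κ) (h2 : h' ≠ κ) (h3 : h ≠ h') (a : Fin m → Bool)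
    (C : Finset (Sym2 (Vx m) × Bool)) {T : Set (Finset (Sym2 (Vx m) × Bool))}
    (H : ∃ C' ∈ T, C' ⊆ C ∪ At h' κ a) : Stp (AX m) T (2 * m) {C ∪ At h κ a} := by
  have key : ∀ s : Finset (Fin m), ∀ T : Set (Finset (Sym2 (Vx m) × Bool)),
      (∃ C' ∈ T, C' ⊆ (C ∪ At h κ a) ∪ s.image fun i => (ed h' κ i, !a i)) →
      Stp (AX m) T (2 * s.card) {C ∪ At h κ a} := by
    intro s
    induction s using Finset.induction_on with
    | empty =>
      intro T hT
      refine (Stp.weak ?_).mono (Nat.zero_le _)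
      rintro D rfl
      simpa using hT
    | insert i s hi ih =>
      intro T hT
      obtain ⟨D, hD1, hD2⟩ := hT
      set Cs := (C ∪ At h κ a) ∪ s.image fun i => (ed h' κ i, !a i) with hCs
      have e1 := mid_leaf h1 h2 h3 i (a i) (T := T)
      have hmem : (ed h κ i, !a i) ∈ Cs :=
        mem_union_left _ (mem_union_right _ (mem_image.mpr ⟨i, mem_univ _, rfl⟩))
      have f1 : D ⊆ insert (ed h' κ i, !a i) Cs := by
        intro x hx
        have := hD2 hx
        rw [image_insert] at this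
        rcases mem_union.mp this with h4 | h4
        · exact mem_insert_of_mem (mem_union_left _ h4)
        · rcases mem_insert.mp h4 with h4 | h4
          · rw [h4]; exact mem_insert_self _ _
          · exact mem_insert_of_mem (mem_union_right _ h4)
      have f2 : ({(ed h κ i, !a i), (ed h' κ i, a i)} : Finset (Sym2 (Vx m) × Bool)) ⊆
          insert (ed h' κ i, a i) Cs := by
        intro x hx
        rcases mem_insert.mp hx with h4 | h4
        · rw [h4]; exact mem_insert_of_mem hmem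
        · rw [mem_singleton.mp h4]; exact mem_insert_self _ _
      have e2 : Stp (AX m) (T ∪ {{(ed h κ i, !a i), (ed h' κ i, a i)}}) 1 {Cs} := by
        apply Stp.res (ed h' κ i)
        · cases hv : a i
          · exact ⟨D, Or.inl hD1, by rw [hv] at f1; exact f1⟩
          · exact ⟨_, Or.inr rfl, by rw [hv] at f2; exact f2⟩
        · cases hv : a i
          · exact ⟨_, Or.inr rfl, by rw [hv] at f2; exact f2⟩
          · exact ⟨D, Or.inl hD1, by rw [hv] at f1; exact f1⟩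
      have e3 := ih (T ∪ ({{(ed h κ i, !a i), (ed h' κ i, a i)}} ∪ {Cs}))
        ⟨Cs, Or.inr (Or.inr rfl), subset_rfl⟩
      have e4 := ((e1.trans e2).trans e3).left (T'' := {C ∪ At h κ a}) (fun x hx => Or.inr hx)
      refine e4.mono ?_
      rw [card_insert_of_notMem hi]
      omega
  have := key univ T (by
    obtain ⟨D, hD1, hD2⟩ := H
    refine ⟨D, hD1, hD2.trans ?_⟩
    intro x hx
    rcases mem_union.mp hx with h4 | h4
    · exact mem_union_left _ (mem_union_left _ h4)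
    · exact mem_union_right _ h4)
  rwa [card_univ, Fintype.card_fin] at this

/-- clauses `At h κ a` with `a` of parity `ε` -/
def SS (m : ℕ) (h κ : Fin 3) (ε : ZMod 2) : Set (Finset (Sym2 (Vx m) × Bool)) :=
  {C | ∃ a ∈ vec m ε, At h κ a = C}

/-- clauses `At h κ a ∪ At h' κ' c` with given parities -/
def PP (m : ℕ) (h κ : Fin 3) (ε : ZMod 2) (h' κ' : Fin 3) (ε' : ZMod 2) :
    Set (Finset (Sym2 (Vx m) × Bool)) :=
  {C | ∃ j ∈ vec m ε ×ˢ vec m ε', At h κ j.1 ∪ At h' κ' j.2 = C}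

theorem sq_le (hm : 0 < m) (ε ε' : ZMod 2) (n : ℕ) :
    (vec m ε ×ˢ vec m ε').card * n ≤ 2 ^ (m - 1) * 2 ^ (m - 1) * n := by
  rw [card_product]
  exact Nat.mul_le_mul_right n (Nat.mul_le_mul (card_vec hm ε) (card_vec hm ε'))

theorem lin_le (hm : 0 < m) (ε : ZMod 2) (n : ℕ) :
    (vec m ε).card * n ≤ 2 ^ (m - 1) * n :=
  Nat.mul_le_mul_right n (card_vec hm ε)

theorem dbl1 : ∀ ε : ZMod 2, (ε + 1) + (ε + 1) ≠ 1 := by decide

/-- the wide stage -/
theorem wide (hm : 0 < m) {x y z : Fin 3} (hxy : x ≠ y) (hyz : y ≠ z) (hxz : x ≠ z)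
    (ε : ZMod 2) (T : Set (Finset (Sym2 (Vx m) × Bool))) :
    Stp (AX m) T (2 ^ (m - 1) * 2 ^ (m - 1) * (1 + 2 * m) +
      (2 ^ (m - 1) * 2 ^ (m - 1) * (1 + 2 * m + 2 * m) +
      (2 ^ (m - 1) * 2 ^ (m - 1) * (2 ^ m - 1) + (2 ^ (m - 1) * 2 ^ (m - 1) * 1 +
      2 ^ (m - 1) * (2 ^ m - 1))))) (SS m y x ε) := by
  have hs : ε + ε ≠ 1 := by revert ε; decide
  have hs' : (ε + 1) + (ε + 1) ≠ 1 := by revert ε; decide
  -- clauses of the first kind
  have A1 : ∀ T, Stp (AX m) T (2 ^ (m - 1) * 2 ^ (m - 1) * (1 + 2 * m))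
      (PP m y x ε z y ε) := by
    intro T
    refine (Stp.family (vec m ε ×ˢ vec m ε) (fun j => At y x j.1 ∪ At z y j.2)
      (n := 1 + 2 * m) ?_).mono (sq_le hm _ _ _)
    rintro ⟨a, c⟩ hac
    obtain ⟨ha, hc⟩ := mem_product.mp hac
    have ha' := mem_vec.mp ha
    have hc' := mem_vec.mp hc
    simp only at ha' hc' ⊢
    have e1 := hub_leaf (g := z) hxz hyz hxy (a := a) (c := c) (by rw [ha', hc']; exact hs)
      (T := T)
    have e2 := conv (h := y) (h' := z) (κ := x) hxy.symm hxz.symm hyz a (At z y c)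
      (T := T ∪ {At z x a ∪ At z y c}) ⟨_, Or.inr rfl, by rw [union_comm]⟩
    rw [union_comm (At z y c)] at e2
    exact (e1.trans e2).left fun x hx => Or.inr hx
  have A2 : ∀ T, Stp (AX m) T (2 ^ (m - 1) * 2 ^ (m - 1) * (1 + 2 * m + 2 * m))
      (PP m y z (ε + 1) z y (ε + 1)) := by
    intro T
    refine (Stp.family (vec m (ε + 1) ×ˢ vec m (ε + 1)) (fun j => At y z j.1 ∪ At z y j.2)
      (n := 1 + 2 * m + 2 * m) ?_).mono (sq_le hm _ _ _)
    rintro ⟨b, c⟩ hbc
    obtain ⟨hb, hc⟩ := mem_product.mp hbc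
    have hb' := mem_vec.mp hb
    have hc' := mem_vec.mp hc
    simp only at hb' hc' ⊢
    have e1 := hub_leaf (g := x) hxz.symm hxy.symm hyz.symm (a := b) (c := c)
      (by rw [hb', hc']; exact hs') (T := T)
    have e2 := conv (h := y) (h' := x) (κ := z) hyz hxz hxy.symm b (At x y c)
      (T := T ∪ {At x z b ∪ At x y c}) ⟨_, Or.inr rfl, by rw [union_comm]⟩
    have e3 := conv (h := z) (h' := x) (κ := y) hyz.symm hxy hxz.symm c (At y z b)
      (T := T ∪ ({At x z b ∪ At x y c} ∪ {At x y c ∪ At y z b}))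
      ⟨_, Or.inr (Or.inr rfl), by rw [union_comm]⟩
    exact ((e1.trans e2).trans e3).left fun x hx => Or.inr hx
  have A3 : ∀ T, PP m y x ε z y ε ⊆ T → PP m y z (ε + 1) z y (ε + 1) ⊆ T →
      Stp (AX m) T (2 ^ (m - 1) * 2 ^ (m - 1) * (2 ^ m - 1))
      (PP m y x ε y z (ε + 1)) := by
    intro T hT1 hT2
    refine (Stp.family (vec m ε ×ˢ vec m (ε + 1)) (fun j => At y x j.1 ∪ At y z j.2)
      (n := 2 ^ m - 1) ?_).mono (sq_le hm _ _ _)
    rintro ⟨a, b⟩ hab
    obtain ⟨ha, hb⟩ := mem_product.mp hab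
    simp only at ha hb ⊢
    refine tree_at z y fun c => ?_
    by_cases hc : pa c = ε
    · refine ⟨At y x a ∪ At z y c, hT1 ⟨(a, c), mem_product.mpr ⟨ha, mem_vec.mpr hc⟩, rfl⟩, ?_⟩
      intro w hw
      rcases mem_union.mp hw with hw | hw
      · exact mem_union_left _ (mem_union_left _ hw)
      · exact mem_union_right _ hw
    · refine ⟨At y z b ∪ At z y c,
        hT2 ⟨(b, c), mem_product.mpr ⟨hb, mem_vec.mpr (two_ne hc)⟩, rfl⟩, ?_⟩
      intro w hw
      rcases mem_union.mp hw with hw | hw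
      · exact mem_union_left _ (mem_union_right _ hw)
      · exact mem_union_right _ hw
  have A4 : ∀ T, Stp (AX m) T (2 ^ (m - 1) * 2 ^ (m - 1) * 1) (PP m y x ε y z ε) := by
    intro T
    refine (Stp.family (vec m ε ×ˢ vec m ε) (fun j => At y x j.1 ∪ At y z j.2)
      (n := 1) ?_).mono (sq_le hm _ _ _)
    rintro ⟨a, b⟩ hab
    obtain ⟨ha, hb⟩ := mem_product.mp hab
    exact hub_leaf hxy hyz.symm hxz (by rw [mem_vec.mp ha, mem_vec.mp hb]; exact hs)
  have A5 : ∀ T, PP m y x ε y z (ε + 1) ⊆ T → PP m y x ε y z ε ⊆ T →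
      Stp (AX m) T (2 ^ (m - 1) * (2 ^ m - 1)) (SS m y x ε) := by
    intro T hT1 hT2
    refine (Stp.family (vec m ε) (fun a => At y x a) (n := 2 ^ m - 1) ?_).mono (lin_le hm _ _)
    intro a ha
    refine tree_at y z fun b => ?_
    by_cases hb : pa b = ε
    · exact ⟨At y x a ∪ At y z b, hT2 ⟨(a, b), mem_product.mpr ⟨ha, mem_vec.mpr hb⟩, rfl⟩,
        subset_rfl⟩
    · exact ⟨At y x a ∪ At y z b,
        hT1 ⟨(a, b), mem_product.mpr ⟨ha, mem_vec.mpr (two_ne hb)⟩, rfl⟩, subset_rfl⟩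
  have B1 := A1 T
  have B2 := A2 (T ∪ PP m y x ε z y ε)
  have B3 := A3 ((T ∪ PP m y x ε z y ε) ∪ PP m y z (ε + 1) z y (ε + 1))
    (fun _ h => Or.inl (Or.inr h)) (fun _ h => Or.inr h)
  have B4 := A4 (((T ∪ PP m y x ε z y ε) ∪ PP m y z (ε + 1) z y (ε + 1)) ∪
    PP m y x ε y z (ε + 1))
  have B5 := A5 ((((T ∪ PP m y x ε z y ε) ∪ PP m y z (ε + 1) z y (ε + 1)) ∪
    PP m y x ε y z (ε + 1)) ∪ PP m y x ε y z ε) (fun _ h => Or.inl (Or.inr h))
    (fun _ h => Or.inr h)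
  have C4 := (B4.trans B5).left (T'' := SS m y x ε) fun _ h => Or.inr h
  have C3 := (B3.trans C4).left (T'' := SS m y x ε) fun _ h => Or.inr h
  have C2 := (B2.trans C3).left (T'' := SS m y x ε) fun _ h => Or.inr h
  exact (B1.trans C2).left (T'' := SS m y x ε) fun _ h => Or.inr h

/-- a narrow stage: here the class `z` at the hub `x` is used -/
theorem narrow (hm : 0 < m) {x y z : Fin 3} (hxy : x ≠ y) (hyz : y ≠ z) (hxz : x ≠ z)
    (ε : ZMod 2) (T : Set (Finset (Sym2 (Vx m) × Bool))) (hT : SS m x z ε ⊆ T) :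
    Stp (AX m) T (2 ^ (m - 1) * (2 * m) + (2 ^ (m - 1) * 2 ^ (m - 1) * 1 +
      2 ^ (m - 1) * (2 ^ m - 1))) (SS m y x (ε + 1)) := by
  have hs' : (ε + 1) + (ε + 1) ≠ 1 := dbl1 ε
  have A1 : Stp (AX m) T (2 ^ (m - 1) * (2 * m)) (SS m y z ε) := by
    refine (Stp.family (vec m ε) (fun b => At y z b) (n := 2 * m) ?_).mono (lin_le hm _ _)
    intro b hb
    have e := conv (h := y) (h' := x) (κ := z) hyz hxz hxy.symm b ∅ (T := T)
      ⟨At x z b, hT ⟨b, hb, rfl⟩, by rw [empty_union]⟩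
    rwa [empty_union] at e
  have A2 : ∀ T, Stp (AX m) T (2 ^ (m - 1) * 2 ^ (m - 1) * 1)
      (PP m y x (ε + 1) y z (ε + 1)) := by
    intro T
    refine (Stp.family (vec m (ε + 1) ×ˢ vec m (ε + 1)) (fun j => At y x j.1 ∪ At y z j.2)
      (n := 1) ?_).mono (sq_le hm _ _ _)
    rintro ⟨a, b⟩ hab
    obtain ⟨ha, hb⟩ := mem_product.mp hab
    exact hub_leaf hxy hyz.symm hxz (by rw [mem_vec.mp ha, mem_vec.mp hb]; exact hs')
  have A3 : ∀ T, SS m y z ε ⊆ T → PP m y x (ε + 1) y z (ε + 1) ⊆ T →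
      Stp (AX m) T (2 ^ (m - 1) * (2 ^ m - 1)) (SS m y x (ε + 1)) := by
    intro T hT1 hT2
    refine (Stp.family (vec m (ε + 1)) (fun a => At y x a) (n := 2 ^ m - 1) ?_).mono
      (lin_le hm _ _)
    intro a ha
    refine tree_at y z fun b => ?_
    by_cases hb : pa b = ε
    · exact ⟨At y z b, hT1 ⟨b, mem_vec.mpr hb, rfl⟩, subset_union_right⟩
    · exact ⟨At y x a ∪ At y z b,
        hT2 ⟨(a, b), mem_product.mpr ⟨ha, mem_vec.mpr (two_ne hb)⟩, rfl⟩, subset_rfl⟩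
  have B2 := A2 (T ∪ SS m y z ε)
  have B3 := A3 ((T ∪ SS m y z ε) ∪ PP m y x (ε + 1) y z (ε + 1))
    (fun _ h => Or.inl (Or.inr h)) (fun _ h => Or.inr h)
  have C2 := (B2.trans B3).left (T'' := SS m y x (ε + 1)) fun _ h => Or.inr h
  exact (A1.trans C2).left (T'' := SS m y x (ε + 1)) fun _ h => Or.inr h

/-- cost of the wide stage -/
def cw (m : ℕ) : ℕ := 2 ^ (m - 1) * 2 ^ (m - 1) * (1 + 2 * m) +
      (2 ^ (m - 1) * 2 ^ (m - 1) * (1 + 2 * m + 2 * m) +
      (2 ^ (m - 1) * 2 ^ (m - 1) * (2 ^ m - 1) + (2 ^ (m - 1) * 2 ^ (m - 1) * 1 +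
      2 ^ (m - 1) * (2 ^ m - 1))))

/-- cost of a narrow stage -/
def cn (m : ℕ) : ℕ := 2 ^ (m - 1) * (2 * m) + (2 ^ (m - 1) * 2 ^ (m - 1) * 1 +
      2 ^ (m - 1) * (2 ^ m - 1))

/-- the irregular refutation -/
theorem refutation (hm : 0 < m) :
    ∃ L, Drv (AX m) L ∧ L.length ≤ cw m + (cn m + (cn m + (cn m + (2 ^ m - 1)))) ∧ ∅ ∈ L := by
  have n01 : (0 : Fin 3) ≠ 1 := by decide
  have n12 : (1 : Fin 3) ≠ 2 := by decide
  have n02 : (0 : Fin 3) ≠ 2 := by decide
  have e1 : (0 : ZMod 2) + 1 = 1 := by decide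
  have e2 : (1 : ZMod 2) + 1 = 0 := by decide
  -- class 0 at hub 1, parity 0
  have B1 : Stp (AX m) ∅ (cw m) (SS m 1 0 0) := wide hm n01 n12 n02 0 ∅
  -- class 1 at hub 2, parity 1
  have B2 : Stp (AX m) (∅ ∪ SS m 1 0 0) (cn m) (SS m 2 1 1) := by
    have := narrow hm (x := 1) (y := 2) (z := 0) n12 n02.symm n01.symm 0 (∅ ∪ SS m 1 0 0)
      (fun _ h => Or.inr h)
    rwa [e1] at this
  -- class 2 at hub 0, parity 0
  have B3 : Stp (AX m) (∅ ∪ SS m 1 0 0 ∪ SS m 2 1 1) (cn m) (SS m 0 2 0) := by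
    have := narrow hm (x := 2) (y := 0) (z := 1) n02.symm n01 n12.symm 1
      (∅ ∪ SS m 1 0 0 ∪ SS m 2 1 1) (fun _ h => Or.inr h)
    rwa [e2] at this
  -- class 0 at hub 1, parity 1
  have B4 : Stp (AX m) (∅ ∪ SS m 1 0 0 ∪ SS m 2 1 1 ∪ SS m 0 2 0) (cn m) (SS m 1 0 1) := by
    have := narrow hm (x := 0) (y := 1) (z := 2) n01 n12 n02 0
      (∅ ∪ SS m 1 0 0 ∪ SS m 2 1 1 ∪ SS m 0 2 0) (fun _ h => Or.inr h)
    rwa [e1] at this
  have B5 : Stp (AX m) (∅ ∪ SS m 1 0 0 ∪ SS m 2 1 1 ∪ SS m 0 2 0 ∪ SS m 1 0 1) (2 ^ m - 1)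
      {∅} := by
    refine tree_at 1 0 fun a => ?_
    rw [empty_union]
    have h : pa a = 0 ∨ pa a = 1 := by
      generalize pa a = w
      revert w; decide
    rcases h with h | h
    · exact ⟨At 1 0 a, Or.inl (Or.inl (Or.inl (Or.inr ⟨a, mem_vec.mpr h, rfl⟩))), subset_rfl⟩
    · exact ⟨At 1 0 a, Or.inr ⟨a, mem_vec.mpr h, rfl⟩, subset_rfl⟩
  have C4 := (B4.trans B5).left (T'' := {∅}) fun _ h => Or.inr h
  have C3 := (B3.trans C4).left (T'' := {∅}) fun _ h => Or.inr h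
  have C2 := (B2.trans C3).left (T'' := {∅}) fun _ h => Or.inr h
  have C1 := (B1.trans C2).left (T'' := {∅}) fun _ h => Or.inr h
  obtain ⟨L, h1, -, h2, h3⟩ := C1 [] Drv.nil (fun C hC => absurd hC (Set.notMem_empty C))
  obtain ⟨D, h4, h5⟩ := h3 ∅ rfl
  refine ⟨L, h1, by simpa using h2, ?_⟩
  rwa [subset_empty.mp h5] at h4

end Pool.Agent.Helper95.Urq
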